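import Pool.Agent.H636R2.MT.SpecT
import Pool.Agent.H636R2.SM.FAMA
import Pool.Agent.H636R2.SM.KSQ
open MeasureTheory Real
open scoped ENNReal BigOperators

/-! CLS: the random polynomials belong to the class -/

namespace MtMt
open HypVol MWidth SmSm

open Classical in
/-- `ph k` is the real part of `cls_a k * chi k` -/
noncomputable def cls_a {d : ℕ} (k : Fin d → ℤ) : ℂ :=
  if posk k then ((Real.sqrt 2 : ℝ) : ℂ) else -(Complex.I * ((Real.sqrt 2 : ℝ) : ℂ))

theorem cls_a_norm {d : ℕ} (k : Fin d → ℤ) : ‖cls_a k‖ = Real.sqrt 2 := by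
  unfold cls_a
  split_ifs
  · rw [Complex.norm_real, Real.norm_of_nonneg (Real.sqrt_nonneg _)]
  · rw [norm_neg, norm_mul, Complex.norm_I, one_mul, Complex.norm_real,
      Real.norm_of_nonneg (Real.sqrt_nonneg _)]

theorem cls_chi_re {d : ℕ} (k : Fin d → ℤ) (x : Fin d → ℝ) :
    (chi k x).re = Real.cos (∑ j, (k j : ℝ) * x j) := by
  unfold chi
  rw [mul_comm, Complex.exp_ofReal_mul_I_re]

theorem cls_chi_im {d : ℕ} (k : Fin d → ℤ) (x : Fin d → ℝ) :
    (chi k x).im = Real.sin (∑ j, (k j : ℝ) * x j) := by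
  unfold chi
  rw [mul_comm, Complex.exp_ofReal_mul_I_im]

theorem cls_ph {d : ℕ} (k : Fin d → ℤ) (x : Fin d → ℝ) : ph k x = (cls_a k * chi k x).re := by
  unfold ph cls_a
  split_ifs
  · rw [Complex.re_ofReal_mul, cls_chi_re]
  · rw [Complex.mul_re, cls_chi_re, cls_chi_im]
    simp

theorem cls_re_sum {d n : ℕ} (c : (Fin d → ℤ) → ℂ) (x : Fin d → ℝ) :
    ((∑ k ∈ layer d n, (c k * chi k x).re : ℝ) : ℂ) =
      ∑ k ∈ layer d n, ((c k + (starRingEnd ℂ) (c (-k))) / 2) * chi k x := by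
  push_cast
  have h1 : ∀ z : ℂ, ((z.re : ℝ) : ℂ) = (z + (starRingEnd ℂ) z) / 2 := by
    intro z
    rw [Complex.add_conj]
    push_cast
    ring
  simp only [h1]
  rw [← Finset.sum_div, Finset.sum_add_distrib]
  have h2 : ∑ k ∈ layer d n, (starRingEnd ℂ) (c k * chi k x) =
      ∑ k ∈ layer d n, (starRingEnd ℂ) (c (-k)) * chi k x := by
    refine Finset.sum_nbij' (fun k => -k) (fun k => -k) (fun k hk => fama_layer_neg hk)
      (fun k hk => fama_layer_neg hk) (fun k _ => neg_neg k) (fun k _ => neg_neg k)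
      fun k _ => ?_
    rw [map_mul, fama_chi_neg, neg_neg]
  rw [h2, ← Finset.sum_add_distrib, Finset.sum_div]
  refine Finset.sum_congr rfl fun k _ => ?_
  ring

theorem cls_fc {d n : ℕ} (c : (Fin d → ℤ) → ℂ) (k : Fin d → ℤ) :
    fc (fun x => ((∑ k ∈ layer d n, (c k * chi k x).re : ℝ) : ℂ)) k =
      if k ∈ layer d n then (c k + (starRingEnd ℂ) (c (-k))) / 2 else 0 := by
  simp only [cls_re_sum]
  exact fama_fc_sum _ (fun k => (c k + (starRingEnd ℂ) (c (-k))) / 2) k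

open Classical in
/-- signs, extended by zero -/
noncomputable def cls_e {d n : ℕ} (ε : layer d n → Bool) (k : Fin d → ℤ) : ℝ :=
  if h : k ∈ layer d n then sg (ε ⟨k, h⟩) else 0

theorem cls_e_coe {d n : ℕ} (ε : layer d n → Bool) (k : layer d n) :
    cls_e ε k.1 = sg (ε k) := by
  unfold cls_e
  rw [dif_pos k.2]

theorem cls_ge {d n : ℕ} (ε : layer d n → Bool) (x : Fin d → ℝ) :
    ge ε x = ∑ k ∈ layer d n, (((cls_e ε k : ℂ) * cls_a k) * chi k x).re := by
  rw [← Finset.sum_coe_sort (layer d n)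
    (fun k => (((cls_e ε k : ℂ) * cls_a k) * chi k x).re)]
  unfold ge
  refine Finset.sum_congr rfl fun k _ => ?_
  rw [cls_e_coe, cls_ph, mul_assoc, Complex.re_ofReal_mul]

/-- terms of the function `φ` -/
noncomputable def cls_b {d : ℕ} (n : ℕ) (r : ℝ) (k : Fin d → ℤ) (x : Fin d → ℝ) : ℝ :=
  ((2:ℝ)^(-(r * n)) / Real.sqrt (layer d n).card) *
    (cls_a k * Fh (-r) (-(fun _ => r)) k * chi k x).re

theorem cls_phi {d n : ℕ} (r : ℝ) (ε : layer d n → Bool) (x : Fin d → ℝ) :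
    ∑ k : layer d n, sg (ε k) * cls_b n r k.1 x = ∑ k ∈ layer d n,
      (((((2:ℝ)^(-(r * n)) / Real.sqrt (layer d n).card : ℝ) : ℂ) * ((cls_e ε k : ℂ) * cls_a k) *
        Fh (-r) (-(fun _ => r)) k) * chi k x).re := by
  rw [← Finset.sum_coe_sort (layer d n)
    (fun k => (((((2:ℝ)^(-(r * n)) / Real.sqrt (layer d n).card : ℝ) : ℂ) *
      ((cls_e ε k : ℂ) * cls_a k) * Fh (-r) (-(fun _ => r)) k) * chi k x).re)]
  refine Finset.sum_congr rfl fun k _ => ?_
  rw [cls_e_coe]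
  unfold cls_b
  have h : (((2:ℝ)^(-(r * n)) / Real.sqrt (layer d n).card : ℝ) : ℂ) *
      (((sg (ε k) : ℝ) : ℂ) * cls_a k.1) * Fh (-r) (-(fun _ => r)) k.1 * chi k.1 x =
      ((((2:ℝ)^(-(r * n)) / Real.sqrt (layer d n).card * sg (ε k) : ℝ)) : ℂ) *
        (cls_a k.1 * Fh (-r) (-(fun _ => r)) k.1 * chi k.1 x) := by
    rw [Complex.ofReal_mul]
    ring
  rw [h, Complex.re_ofReal_mul]
  ring

theorem cls_b_sq {d n : ℕ} {r : ℝ} (hr : 0 ≤ r) {k : Fin d → ℤ} (hk : k ∈ layer d n)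
    (x : Fin d → ℝ) : (cls_b n r k x)^2 ≤ 2 / (layer d n).card := by
  have h1 := ksq_Fh (r := r) hr (fun _ => r) hk
  unfold cls_b
  have hN : (0:ℝ) < (layer d n).card := by exact_mod_cast Finset.card_pos.2 ⟨k, hk⟩
  rw [mul_pow, div_pow, Real.sq_sqrt hN.le]
  have h2 : (cls_a k * Fh (-r) (-(fun _ => r)) k * chi k x).re ^ 2 ≤ 2 * (2:ℝ)^(2 * r * n) := by
    have h3 : |(cls_a k * Fh (-r) (-(fun _ => r)) k * chi k x).re| ≤
        Real.sqrt 2 * ‖Fh (-r) (-(fun _ => r)) k‖ := by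
      refine (Complex.abs_re_le_norm _).trans ?_
      rw [norm_mul, norm_mul, cls_a_norm, fama_chi, Sol_KX_wf_split.wchr_norm, mul_one]
    rw [← sq_abs]
    refine (pow_le_pow_left₀ (abs_nonneg _) h3 2).trans ?_
    rw [mul_pow, Real.sq_sqrt (by norm_num)]
    exact mul_le_mul_of_nonneg_left h1 (by norm_num)
  have h4 : ((2:ℝ)^(-(r * n)))^2 * (2:ℝ)^(2 * r * n) = 1 := by
    rw [← Real.rpow_natCast, ← Real.rpow_mul (by norm_num), ← Real.rpow_add (by norm_num)]
    have : -(r * n) * ((2:ℕ):ℝ) + 2 * r * n = 0 := by push_cast; ring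
    rw [this, Real.rpow_zero]
  rw [div_mul_eq_mul_div]
  refine div_le_div_of_nonneg_right ?_ hN.le
  calc ((2:ℝ)^(-(r * n)))^2 * (cls_a k * Fh (-r) (-(fun _ => r)) k * chi k x).re ^ 2
      ≤ ((2:ℝ)^(-(r * n)))^2 * (2 * (2:ℝ)^(2 * r * n)) :=
        mul_le_mul_of_nonneg_left h2 (sq_nonneg _)
    _ = 2 * (((2:ℝ)^(-(r * n)))^2 * (2:ℝ)^(2 * r * n)) := by ring
    _ = 2 := by rw [h4, mul_one]

theorem cls_sum_sq {d n : ℕ} {r : ℝ} (hr : 0 ≤ r) (x : Fin d → ℝ) :
    ∑ k : layer d n, (cls_b n r k.1 x)^2 ≤ 2 := by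
  refine (Finset.sum_le_sum fun k _ => cls_b_sq hr k.2 x).trans ?_
  rw [Finset.sum_const, Finset.card_univ, Fintype.card_coe, nsmul_eq_mul]
  rcases Nat.eq_zero_or_pos (layer d n).card with h | h
  · rw [h]; norm_num
  · have h' : ((layer d n).card : ℝ) ≠ 0 := by exact_mod_cast h.ne'
    rw [mul_div_cancel₀ _ h']

theorem cls_b_cont {d : ℕ} (n : ℕ) (r : ℝ) (k : Fin d → ℤ) : Continuous (cls_b n r k) := by
  unfold cls_b chi
  fun_prop

theorem cls (h : S_KHI) : S_CLS := by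
  classical
  intro d _ r hr j hj
  obtain ⟨C0, hC0, hK⟩ := h j
  have hpos : 0 < C0 * 2^j := by positivity
  refine ⟨1 + 10 * (C0 * 2^j), by positivity, fun n _ => ?_⟩
  have hsum : ∀ x : Fin d → ℝ, ∑ ε : layer d n → Bool,
      (∑ k : layer d n, sg (ε k) * cls_b n r k.1 x) ^ (2 * j) ≤
      (C0 * 2^j) * (Fintype.card (layer d n → Bool)) := by
    intro x
    refine (hK (layer d n) (fun k => cls_b n r k.1 x)).trans ?_
    have h1 : (∑ k : layer d n, (cls_b n r k.1 x)^2)^j ≤ 2^j :=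
      pow_le_pow_left₀ (Finset.sum_nonneg fun _ _ => sq_nonneg _) (cls_sum_sq hr.le x) j
    have h2 : (Fintype.card (layer d n → Bool) : ℝ) = 2^(Fintype.card (layer d n)) := by
      rw [Fintype.card_fun, Fintype.card_bool]
      push_cast
      rfl
    rw [h2]
    calc C0 * 2^(Fintype.card (layer d n)) * (∑ k : layer d n, (cls_b n r k.1 x)^2)^j
        ≤ C0 * 2^(Fintype.card (layer d n)) * 2^j :=
          mul_le_mul_of_nonneg_left h1 (by positivity)
      _ = _ := by ring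
  have hb : ∀ (ε : layer d n → Bool) (x : Fin d → ℝ),
      |∑ k : layer d n, sg (ε k) * cls_b n r k.1 x| ≤ (Fintype.card (layer d n)) * Real.sqrt 2 := by
    intro ε x
    refine (Finset.abs_sum_le_sum_abs _ _).trans ?_
    have h1 : ∀ k ∈ (Finset.univ : Finset (layer d n)),
        |sg (ε k) * cls_b n r k.1 x| ≤ Real.sqrt 2 := by
      intro k _
      have h2 : |sg (ε k)| = 1 := by
        unfold sg
        split_ifs <;> simp
      rw [abs_mul, h2, one_mul]
      refine Real.abs_le_sqrt ?_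
      exact (Finset.single_le_sum (f := fun k : layer d n => (cls_b n r k.1 x)^2)
        (fun _ _ => sq_nonneg _) (Finset.mem_univ k)).trans (cls_sum_sq hr.le x)
    refine (Finset.sum_le_sum h1).trans ?_
    rw [Finset.sum_const, Finset.card_univ, nsmul_eq_mul]
  have hc : ∀ ε : layer d n → Bool,
      Continuous (fun x : Fin d → ℝ => ∑ k : layer d n, sg (ε k) * cls_b n r k.1 x) := by
    intro ε
    exact continuous_finsetSum _ fun k _ => continuous_const.mul (cls_b_cont n r k.1)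
  have hM := fama_markov (fun (ε : layer d n → Bool) x => ∑ k : layer d n, sg (ε k) * cls_b n r k.1 x)
    ((Fintype.card (layer d n)) * Real.sqrt 2) (C0 * 2^j) j hc hb hpos hsum
  refine ⟨Finset.univ.filter fun ε : layer d n → Bool => ∫ x, (∑ k : layer d n, sg (ε k) *
      cls_b n r k.1 x) ^ (2 * j) ∂(TP d) ≤ 10 * (C0 * 2^j), ?_, fun ε hε =>
        ⟨fun x => ∑ k : layer d n, sg (ε k) * cls_b n r k.1 x, hc ε, ?_, ?_⟩⟩
  rotate_left
  · refine ((Finset.mem_filter.1 hε).2).trans ?_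
    have h1 : (1:ℝ) ≤ 1 + 10 * (C0 * 2^j) := by linarith
    calc 10 * (C0 * 2^j) ≤ (1 + 10 * (C0 * 2^j))^1 := by linarith
      _ ≤ (1 + 10 * (C0 * 2^j))^(2*j) := pow_le_pow_right₀ h1 (by omega)
  · intro k
    simp only [cls_phi, cls_ge]
    rw [cls_fc, cls_fc]
    split_ifs with hk
    · have hF := fama_Fh_inv (d := d) r (fun _ => r) k
      have hF2 := fama_Fh_conj (d := d) (-r) (-(fun _ => r)) (-k)
      rw [neg_neg] at hF2
      simp only [map_mul, Complex.conj_ofReal]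
      rw [hF2]
      linear_combination ((((2:ℝ)^(-(r * n)) / Real.sqrt (layer d n).card : ℝ) : ℂ) *
        ((cls_e ε k : ℂ) * cls_a k + (cls_e ε (-k) : ℂ) * (starRingEnd ℂ) (cls_a (-k))) / 2) * hF
    · simp
  · refine le_trans ?_ hM
    have h2 : (Fintype.card (layer d n → Bool) : ℝ) = 2^(layer d n).card := by
      rw [Fintype.card_fun, Fintype.card_bool, Fintype.card_coe]
      push_cast
      rfl
    rw [h2]
    have : (0:ℝ) < 2^(layer d n).card := by positivity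
    linarith

end MtMt
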