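import Pool.Agent.H636R2.MT.SpecT

open MeasureTheory Real
open scoped ENNReal BigOperators

/-!
Khinchine's inequality
-/

namespace MtMt
open HypVol MWidth SmSm

theorem khi_exp (I : Type) [Fintype I] [DecidableEq I] (b : I → ℝ) (t : ℝ) :
    ∑ ε : I → Bool, Real.exp (t * ∑ i, sg (ε i) * b i) ≤
      2 ^ (Fintype.card I) * Real.exp (t ^ 2 * (∑ i, (b i) ^ 2) / 2) := by
  have h1 : ∀ ε : I → Bool, Real.exp (t * ∑ i, sg (ε i) * b i) =
      ∏ i, Real.exp (t * (sg (ε i) * b i)) := by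
    intro ε
    rw [← Real.exp_sum, Finset.mul_sum]
  have h2 : ∑ ε : I → Bool, ∏ i, Real.exp (t * (sg (ε i) * b i)) =
      ∏ i : I, ∑ a : Bool, Real.exp (t * (sg a * b i)) := by
    rw [Finset.prod_univ_sum (fun _ : I => (Finset.univ : Finset Bool))
      (fun i a => Real.exp (t * (sg a * b i))), Fintype.piFinset_univ]
  rw [Finset.sum_congr rfl (fun ε _ => h1 ε), h2]
  have h3 : ∀ i : I, ∑ a : Bool, Real.exp (t * (sg a * b i)) ≤
      2 * Real.exp (t ^ 2 * (b i) ^ 2 / 2) := by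
    intro i
    have h4 := Real.cosh_le_exp_half_sq (t * b i)
    rw [Real.cosh_eq] at h4
    have e1 : Real.exp (t * (sg true * b i)) = Real.exp (t * b i) := by simp [sg]
    have e2 : Real.exp (t * (sg false * b i)) = Real.exp (-(t * b i)) := by simp [sg]
    rw [Fintype.sum_bool, e1, e2]
    have e3 : t ^ 2 * (b i) ^ 2 / 2 = (t * b i) ^ 2 / 2 := by ring
    rw [e3]
    linarith
  calc ∏ i : I, ∑ a : Bool, Real.exp (t * (sg a * b i))
      ≤ ∏ i : I, (2 * Real.exp (t ^ 2 * (b i) ^ 2 / 2)) :=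
        Finset.prod_le_prod (fun i _ => Finset.sum_nonneg fun a _ => (Real.exp_pos _).le)
          (fun i _ => h3 i)
    _ = 2 ^ (Fintype.card I) * Real.exp (t ^ 2 * (∑ i, (b i) ^ 2) / 2) := by
        rw [Finset.prod_mul_distrib, Finset.prod_const, Finset.card_univ, ← Real.exp_sum]
        congr 2
        rw [Finset.mul_sum, Finset.sum_div]

/-- Khinchine's inequality -/
theorem khi : S_KHI := by
  intro j
  refine ⟨2 * ((2 * j).factorial : ℝ) * Real.exp (1 / 2) + 1, by positivity, ?_⟩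
  intro I _ _ b
  have hq : 0 ≤ ∑ i, (b i) ^ 2 := Finset.sum_nonneg fun i _ => sq_nonneg _
  rcases hq.eq_or_lt with h0 | hpos
  · have hb : ∀ i, b i = 0 := by
      intro i
      have := (Finset.sum_eq_zero_iff_of_nonneg (fun i _ => sq_nonneg (b i))).1 h0.symm i
        (Finset.mem_univ i)
      exact pow_eq_zero_iff (two_ne_zero) |>.1 this
    rw [← h0]
    rcases Nat.eq_zero_or_pos j with rfl | hj
    · simp only [mul_zero, pow_zero, Finset.sum_const, Finset.card_univ, Fintype.card_pi,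
        Fintype.card_bool, Finset.prod_const, nsmul_eq_mul, mul_one]
      have h1 : (0 : ℝ) < 2 ^ (Fintype.card I) := by positivity
      have h2 : (0 : ℝ) < Real.exp (1 / 2) := Real.exp_pos _
      push_cast
      nlinarith [mul_pos h2 h1]
    · have e : ∀ ε : I → Bool, (∑ i, sg (ε i) * b i) ^ (2 * j) = 0 := by
        intro ε
        have : ∑ i, sg (ε i) * b i = 0 := Finset.sum_eq_zero fun i _ => by rw [hb i, mul_zero]
        rw [this]
        exact zero_pow (by omega)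
      rw [Finset.sum_congr rfl (fun ε _ => e ε), Finset.sum_const_zero, zero_pow (by omega), mul_zero]
  · set q := ∑ i, (b i) ^ 2 with hqd
    set s := Real.sqrt q with hs
    have hspos : 0 < s := Real.sqrt_pos.2 hpos
    have hs2 : s ^ 2 = q := Real.sq_sqrt hq
    have key : ∀ x : ℝ, x ^ (2 * j) ≤ ((2 * j).factorial : ℝ) * s ^ (2 * j) *
        (Real.exp (s⁻¹ * x) + Real.exp (-s⁻¹ * x)) := by
      intro x
      have h1 := Real.pow_div_factorial_le_exp (|s⁻¹ * x|) (abs_nonneg _) (2 * j)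
      have hf : (0 : ℝ) < ((2 * j).factorial : ℝ) := by exact_mod_cast Nat.factorial_pos _
      rw [div_le_iff₀ hf] at h1
      have h2 : |s⁻¹ * x| ^ (2 * j) = (s⁻¹ * x) ^ (2 * j) := by
        rw [pow_mul, pow_mul, sq_abs]
      have h3 : Real.exp |s⁻¹ * x| ≤ Real.exp (s⁻¹ * x) + Real.exp (-s⁻¹ * x) := by
        rcases abs_cases (s⁻¹ * x) with ⟨h, _⟩ | ⟨h, _⟩
        · rw [h]
          linarith [Real.exp_pos (-s⁻¹ * x)]
        · rw [h, neg_mul]
          linarith [Real.exp_pos (s⁻¹ * x)]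
      have h4 : x ^ (2 * j) = s ^ (2 * j) * (s⁻¹ * x) ^ (2 * j) := by
        rw [← mul_pow, mul_inv_cancel_left₀ hspos.ne']
      rw [h4, ← h2]
      have h5 : |s⁻¹ * x| ^ (2 * j) ≤
          (Real.exp (s⁻¹ * x) + Real.exp (-s⁻¹ * x)) * ((2 * j).factorial : ℝ) :=
        h1.trans (mul_le_mul_of_nonneg_right h3 hf.le)
      calc s ^ (2 * j) * |s⁻¹ * x| ^ (2 * j) ≤ s ^ (2 * j) *
            ((Real.exp (s⁻¹ * x) + Real.exp (-s⁻¹ * x)) * ((2 * j).factorial : ℝ)) :=
            mul_le_mul_of_nonneg_left h5 (by positivity)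
        _ = _ := by ring
    have hsq : s ^ (2 * j) = q ^ j := by rw [pow_mul, hs2]
    have e1 := khi_exp I b s⁻¹
    have e2 := khi_exp I b (-s⁻¹)
    have hexp : (s⁻¹) ^ 2 * q / 2 = 1 / 2 := by
      rw [← hs2]; field_simp
    have hexp' : (-s⁻¹) ^ 2 * q / 2 = 1 / 2 := by rw [neg_sq, hexp]
    rw [← hqd, hexp] at e1
    rw [← hqd, hexp'] at e2
    calc ∑ ε : I → Bool, (∑ i, sg (ε i) * b i) ^ (2 * j)
        ≤ ∑ ε : I → Bool, ((2 * j).factorial : ℝ) * s ^ (2 * j) *
          (Real.exp (s⁻¹ * ∑ i, sg (ε i) * b i) + Real.exp (-s⁻¹ * ∑ i, sg (ε i) * b i)) :=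
          Finset.sum_le_sum fun ε _ => key _
      _ = ((2 * j).factorial : ℝ) * s ^ (2 * j) *
          ((∑ ε : I → Bool, Real.exp (s⁻¹ * ∑ i, sg (ε i) * b i)) +
            ∑ ε : I → Bool, Real.exp (-s⁻¹ * ∑ i, sg (ε i) * b i)) := by
          rw [← Finset.mul_sum, Finset.sum_add_distrib]
      _ ≤ ((2 * j).factorial : ℝ) * s ^ (2 * j) *
          (2 ^ (Fintype.card I) * Real.exp (1 / 2) + 2 ^ (Fintype.card I) * Real.exp (1 / 2)) :=
          mul_le_mul_of_nonneg_left (add_le_add e1 e2) (by positivity)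
      _ = (2 * ((2 * j).factorial : ℝ) * Real.exp (1 / 2)) * 2 ^ (Fintype.card I) * q ^ j := by
          rw [hsq]; ring
      _ ≤ (2 * ((2 * j).factorial : ℝ) * Real.exp (1 / 2) + 1) * 2 ^ (Fintype.card I) * q ^ j := by
          have : 0 ≤ (2 : ℝ) ^ (Fintype.card I) * q ^ j := by positivity
          nlinarith

end MtMt
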