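import Pool.Agent.H636R2.MT.SpecT
import Pool.Agent.HypVol.L_card_layer
import Pool.Agent.HypVol.L_shp_lower
open MeasureTheory Real
open scoped ENNReal BigOperators

namespace MtMt
open HypVol MWidth SmSm

/-- **NUMT** -/
theorem numt : S_NUMT := by
  intro d hd r c0 n0 hr hc0
  obtain ⟨c1, hc1, hlow⟩ := shp_lower d (by omega)
  set c : ℝ := c0 * c1 / 4 with hcdef
  have hc : 0 < c := by positivity
  set n1 : ℕ := max n0 2 with hn1
  have hn1' : 2 ≤ n1 := le_max_right _ _
  set g : ℕ → ℝ := fun n => c * 2^n * (n:ℝ)^(d-1) with hg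
  set e : ℝ := r * ((d:ℝ)-1) + 1/2 with he
  have hd1 : (1:ℝ) ≤ d := by exact_mod_cast (by omega : 1 ≤ d)
  have hep : 0 < e := by
    have : 0 ≤ r * ((d:ℝ)-1) := mul_nonneg hr.le (by linarith)
    rw [he]; linarith
  set C1 : ℝ := |Real.log c| + 1 + d with hC1
  have hC1p : 0 < C1 := by positivity
  set G : ℝ := g n1 with hG
  have hGp : 0 < G := by
    rw [hG, hg]; positivity
  set R : ℝ := (2:ℝ)^(-(r * n1)) * Real.sqrt n1 with hR
  have hRp : 0 < R := by
    have : (0:ℝ) < n1 := by positivity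
    have := Real.sqrt_pos.2 this
    rw [hR]; positivity
  set D : ℝ := (c / 2^d)^(-r) * C1^e + G^e / R with hD
  have hDp : 0 < D := by positivity
  refine ⟨1 / D, by positivity, ?_⟩
  intro m hm
  have hk0 : (0:ℝ) < m := by positivity
  have hk1 : (1:ℝ) ≤ m := by exact_mod_cast (by omega : 1 ≤ m)
  have hex : ∃ n, n1 ≤ n ∧ (m:ℝ) ≤ g n := by
    refine ⟨max n1 ⌈(m:ℝ)/c⌉₊, le_max_left _ _, ?_⟩
    set n := max n1 ⌈(m:ℝ)/c⌉₊ with hn
    have h1 : (m:ℝ)/c ≤ n := (Nat.le_ceil _).trans (by exact_mod_cast le_max_right _ _)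
    have h2 : (n:ℝ) ≤ 2^n := by exact_mod_cast (Nat.lt_two_pow_self).le
    have h3 : (1:ℝ) ≤ (n:ℝ)^(d-1) := one_le_pow₀ (by
      exact_mod_cast (by omega : 1 ≤ n))
    rw [div_le_iff₀ hc] at h1
    calc (m:ℝ) ≤ n * c := h1
      _ ≤ 2^n * c := mul_le_mul_of_nonneg_right h2 hc.le
      _ = c * 2^n * 1 := by ring
      _ ≤ c * 2^n * (n:ℝ)^(d-1) := mul_le_mul_of_nonneg_left h3 (by positivity)
  classical
  set n := Nat.find hex with hn
  have hn2 : n1 ≤ n := (Nat.find_spec hex).1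
  have hn3 : (m:ℝ) ≤ g n := (Nat.find_spec hex).2
  have hnn : 2 ≤ n := hn1'.trans hn2
  have hnp : (0:ℝ) < n := by positivity
  have hn1r : (1:ℝ) ≤ n := by exact_mod_cast (by omega : 1 ≤ n)
  have hl : 0 ≤ Real.log m := Real.log_nonneg hk1
  have hcard : g n ≤ c0 * (layer d n).card / 4 := by
    have h1 := hlow n (by omega)
    rw [card_layer]
    push_cast
    rw [hg]
    simp only
    rw [hcdef]
    calc c0 * c1 / 4 * 2^n * (n:ℝ)^(d-1) = c0 / 4 * 2^n * (c1 * (n:ℝ)^(d-1)) := by ring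
      _ ≤ c0 / 4 * 2^n * shp d n := mul_le_mul_of_nonneg_left h1 (by positivity)
      _ = c0 * (2^n * shp d n) / 4 := by ring
  refine ⟨n, (le_max_left _ _).trans hn2, by omega, hn3.trans hcard, ?_⟩
  have hmain : (m:ℝ)^(-r) * (Real.log m)^e ≤ D * ((2:ℝ)^(-(r * n)) * Real.sqrt n) := by
    rcases hn2.eq_or_lt with he1 | hlt
    · have e1 : (m:ℝ) ≤ G := by rw [hG, he1]; exact hn3
      have e2 : Real.log m ≤ G := (Real.log_le_self hk0.le).trans e1
      have e4 : (m:ℝ)^(-r) ≤ 1 := Real.rpow_le_one_of_one_le_of_nonpos hk1 (by linarith)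
      have e5 : (Real.log m)^e ≤ G^e := Real.rpow_le_rpow hl e2 hep.le
      have e6 : (m:ℝ)^(-r) * (Real.log m)^e ≤ 1 * G^e :=
        mul_le_mul e4 e5 (Real.rpow_nonneg hl _) (by norm_num)
      rw [one_mul] at e6
      refine e6.trans ?_
      rw [← he1, ← hR, hD, add_mul, div_mul_cancel₀ _ hRp.ne']
      have : 0 ≤ (c / 2^d)^(-r) * C1^e * R := by positivity
      linarith
    · have hlt' : ¬ (n1 ≤ n - 1 ∧ (m:ℝ) ≤ g (n-1)) := Nat.find_min hex (by omega)
      have h4 : g (n-1) < m := by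
        by_contra hcon
        exact hlt' ⟨by omega, not_lt.1 hcon⟩
      have h5 : c / 2^d * (2^n * (n:ℝ)^(d-1)) ≤ m := by
        refine le_trans ?_ h4.le
        have e1 : ((n - 1 : ℕ) : ℝ) = n - 1 := by
          rw [Nat.cast_sub (by omega)]; norm_num
        have e2 : (n:ℝ) / 2 ≤ ((n - 1 : ℕ) : ℝ) := by
          have : (2:ℝ) ≤ n := by exact_mod_cast hnn
          rw [e1]; linarith
        have e3 : ((n:ℝ) / 2)^(d-1) ≤ ((n - 1 : ℕ) : ℝ)^(d-1) := pow_le_pow_left₀ (by positivity) e2 _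
        have e4 : (2:ℝ)^n = 2 * 2^(n-1) := by
          rw [← pow_succ']; congr 1; omega
        have e5 : (2:ℝ)^d = 2 * 2^(d-1) := by
          rw [← pow_succ']; congr 1; omega
        rw [hg]
        simp only
        calc c / 2^d * (2^n * (n:ℝ)^(d-1)) = c * 2^(n-1) * ((n:ℝ)/2)^(d-1) := by
              rw [e4, e5, div_pow]; field_simp
          _ ≤ c * 2^(n-1) * ((n - 1 : ℕ) : ℝ)^(d-1) := mul_le_mul_of_nonneg_left e3 (by positivity)
      have h6 : Real.log m ≤ C1 * n := by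
        have e1 : Real.log m ≤ Real.log (g n) := Real.log_le_log hk0 hn3
        have e2 : Real.log (g n) = Real.log c + n * Real.log 2 + ((d-1 : ℕ) : ℝ) * Real.log n := by
          rw [hg]
          simp only
          rw [Real.log_mul (by positivity) (by positivity), Real.log_mul hc.ne' (by positivity),
            Real.log_pow, Real.log_pow]
        have e3 : Real.log 2 ≤ 1 := by
          have := Real.log_two_lt_d9; linarith
        have e4 : Real.log n ≤ n := Real.log_le_self hnp.le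
        have e5 : Real.log c ≤ |Real.log c| * n := by
          have := le_abs_self (Real.log c)
          have := abs_nonneg (Real.log c)
          nlinarith
        have e6 : ((d-1 : ℕ) : ℝ) ≤ d := by exact_mod_cast Nat.sub_le _ _
        have e7 : ((d-1 : ℕ) : ℝ) * Real.log n ≤ d * n :=
          mul_le_mul e6 e4 (Real.log_nonneg hn1r) (by positivity)
        have e8 : (n:ℝ) * Real.log 2 ≤ n := by nlinarith
        rw [e2] at e1
        rw [hC1]
        linarith
      have h8 : (m:ℝ)^(-r) ≤ (c / 2^d * (2^n * (n:ℝ)^(d-1)))^(-r) :=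
        Real.rpow_le_rpow_of_nonpos (by positivity) h5 (by linarith)
      have h9 : (c / 2^d * (2^n * (n:ℝ)^(d-1)))^(-r) =
          (c / 2^d)^(-r) * ((2:ℝ)^(-(r * n)) * (n:ℝ)^(-(r * ((d:ℝ)-1)))) := by
        rw [Real.mul_rpow (by positivity) (by positivity), Real.mul_rpow (by positivity) (by positivity)]
        congr 2
        · rw [← Real.rpow_natCast, ← Real.rpow_mul (by norm_num)]
          congr 1; ring
        · rw [← Real.rpow_natCast, ← Real.rpow_mul hnp.le]
          congr 1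
          rw [Nat.cast_sub (by omega)]
          push_cast; ring
      have h10 : (Real.log m)^e ≤ C1^e * (n:ℝ)^e := by
        rw [← Real.mul_rpow hC1p.le hnp.le]
        exact Real.rpow_le_rpow hl h6 hep.le
      have h11 : (n:ℝ)^e = (n:ℝ)^(r * ((d:ℝ)-1)) * Real.sqrt n := by
        rw [he, Real.rpow_add hnp, Real.sqrt_eq_rpow]
      have h12 : (n:ℝ)^(-(r * ((d:ℝ)-1))) * (n:ℝ)^(r * ((d:ℝ)-1)) = 1 := by
        rw [← Real.rpow_add hnp]; simp
      calc (m:ℝ)^(-r) * (Real.log m)^e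
          ≤ ((c / 2^d)^(-r) * ((2:ℝ)^(-(r * n)) * (n:ℝ)^(-(r * ((d:ℝ)-1))))) * (C1^e * (n:ℝ)^e) := by
            refine mul_le_mul (h8.trans_eq h9) h10 (Real.rpow_nonneg hl _) (by positivity)
        _ = (c / 2^d)^(-r) * C1^e * ((2:ℝ)^(-(r * n)) * Real.sqrt n) *
            ((n:ℝ)^(-(r * ((d:ℝ)-1))) * (n:ℝ)^(r * ((d:ℝ)-1))) := by
            rw [h11]; ring
        _ = (c / 2^d)^(-r) * C1^e * ((2:ℝ)^(-(r * n)) * Real.sqrt n) := by rw [h12, mul_one]
        _ ≤ D * ((2:ℝ)^(-(r * n)) * Real.sqrt n) := by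
            refine mul_le_mul_of_nonneg_right ?_ (by positivity)
            have : 0 ≤ G^e / R := by positivity
            rw [hD]; linarith
  calc 1 / D * ((m:ℝ)^(-r) * (Real.log m)^e) ≤ 1 / D * (D * ((2:ℝ)^(-(r * n)) * Real.sqrt n)) :=
        mul_le_mul_of_nonneg_left hmain (by positivity)
    _ = (2:ℝ)^(-(r * n)) * Real.sqrt n := by field_simp

end MtMt
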