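import Pool.Agent.H636R2.MT.SpecT
import Pool.Agent.H636R2.SM.KSQ
open MeasureTheory Real
open scoped ENNReal BigOperators

namespace MtMt
open HypVol MWidth SmSm

theorem pho_sum {d m : ℕ} (n : Fin d → ℤ) (hb : ∀ j, |n j| < 2^(m+2)) :
    ∑ y : GG d m, chi n (gpt y) = if n = 0 then ((2:ℂ)^(m+2))^d else 0 := by
  by_cases h : n = 0
  · subst h
    rw [if_pos rfl]
    simp only [ksq_chi_zero, Finset.sum_const, Finset.card_univ, Fintype.card_fun,
        Fintype.card_fin, nsmul_eq_mul, mul_one]
    push_cast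
    ring
  · rw [if_neg h]
    have h1 := ksq_orth (d := d) (m := m) (-n) (neg_ne_zero.2 h) (by
      intro j; rw [Pi.neg_apply, abs_neg]; exact hb j) 0
    rw [← h1]
    refine Finset.sum_congr rfl fun y _ => ?_
    unfold chi
    congr 3
    refine Finset.sum_congr rfl fun j _ => ?_
    simp

theorem pho_cs {d m : ℕ} (n : Fin d → ℤ) (hb : ∀ j, |n j| < 2^(m+2)) :
    (∑ y : GG d m, Real.cos (∑ j, (n j : ℝ) * gpt y j) = if n = 0 then ((2:ℝ)^(m+2))^d else 0) ∧
    (∑ y : GG d m, Real.sin (∑ j, (n j : ℝ) * gpt y j) = 0) := by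
  have h := pho_sum (m := m) n hb
  have e : ∀ y : GG d m, chi n (gpt y) =
      ((Real.cos (∑ j, (n j : ℝ) * gpt y j) : ℝ) : ℂ) +
        ((Real.sin (∑ j, (n j : ℝ) * gpt y j) : ℝ) : ℂ) * Complex.I := by
    intro y
    unfold chi
    rw [mul_comm, Complex.exp_mul_I, ← Complex.ofReal_cos, ← Complex.ofReal_sin]
  rw [Finset.sum_congr rfl (fun y _ => e y), Finset.sum_add_distrib, ← Finset.sum_mul,
    ← Complex.ofReal_sum, ← Complex.ofReal_sum] at h
  have h2 : (if n = 0 then ((2:ℂ)^(m+2))^d else 0) =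
      (((if n = 0 then ((2:ℝ)^(m+2))^d else 0 : ℝ)) : ℂ) := by
    split_ifs <;> push_cast <;> rfl
  rw [h2] at h
  set A : ℝ := ∑ y : GG d m, Real.cos (∑ j, (n j : ℝ) * gpt y j)
  set B : ℝ := ∑ y : GG d m, Real.sin (∑ j, (n j : ℝ) * gpt y j)
  constructor
  · have := congrArg Complex.re h
    simpa only [Complex.add_re, Complex.mul_re, Complex.ofReal_re, Complex.ofReal_im, Complex.I_re,
      Complex.I_im, mul_zero, zero_mul, sub_zero, add_zero] using this
  · have := congrArg Complex.im h
    simpa only [Complex.add_im, Complex.mul_im, Complex.ofReal_re, Complex.ofReal_im, Complex.I_re,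
      Complex.I_im, mul_zero, zero_mul, zero_add, mul_one, add_zero] using this

theorem pho_posk_neg {d : ℕ} {k : Fin d → ℤ} (hk : k ≠ 0) : posk (-k) ↔ ¬ posk k := by
  classical
  have hex : ∃ i : Fin d, k i ≠ 0 := by
    by_contra h
    push Not at h
    exact hk (funext h)
  obtain ⟨i, hi, hmin⟩ : ∃ i : Fin d, k i ≠ 0 ∧ ∀ j, j < i → k j = 0 := by
    have hne : (Finset.univ.filter (fun i : Fin d => k i ≠ 0)).Nonempty := by
      obtain ⟨i, hi⟩ := hex
      exact ⟨i, by simp [hi]⟩
    refine ⟨(Finset.univ.filter (fun i : Fin d => k i ≠ 0)).min' hne, ?_, ?_⟩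
    · have := Finset.min'_mem _ hne
      simpa using this
    · intro j hj
      by_contra hne0
      have : (Finset.univ.filter (fun i : Fin d => k i ≠ 0)).min' hne ≤ j :=
        Finset.min'_le _ _ (by simp [hne0])
      exact absurd hj (not_lt.2 this)
  have huniq : ∀ i', k i' ≠ 0 → (∀ j, j < i' → k j = 0) → i' = i := by
    intro i' h1 h2
    rcases lt_trichotomy i' i with h | h | h
    · exact absurd (hmin i' h) h1
    · exact h
    · exact absurd (h2 i h) hi
  have e1 : posk k ↔ 0 < k i := by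
    constructor
    · rintro ⟨i', h1, h2⟩
      have := huniq i' (by omega) h2
      rw [← this]; exact h1
    · intro h
      exact ⟨i, h, hmin⟩
  have e2 : posk (-k) ↔ k i < 0 := by
    constructor
    · rintro ⟨i', h1, h2⟩
      simp only [Pi.neg_apply] at h1 h2
      have := huniq i' (by omega) (fun j hj => by have := h2 j hj; omega)
      rw [← this]; omega
    · intro h
      refine ⟨i, by simp only [Pi.neg_apply]; omega, fun j hj => ?_⟩
      simp only [Pi.neg_apply, hmin j hj, neg_zero]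
  rw [e1, e2]
  omega

theorem pho_chi_swap {d m : ℕ} (l y y' : GG d m) :
    chi (fun j => -((l j : ℕ) : ℤ)) (gpt y) *
      (starRingEnd ℂ) (chi (fun j => -((l j : ℕ) : ℤ)) (gpt y')) =
    chi (fun j => ((y' j : ℕ) : ℤ) - ((y j : ℕ) : ℤ)) (gpt l) := by
  unfold chi
  rw [← Complex.exp_conj, ← Complex.exp_add]
  congr 1
  simp only [map_mul, Complex.conj_I, Complex.conj_ofReal]
  have : (∑ j, ((((y' j : ℕ) : ℤ) - ((y j : ℕ) : ℤ) : ℤ) : ℝ) * gpt l j) =
      (∑ j, ((-((l j : ℕ) : ℤ) : ℤ) : ℝ) * gpt y j) - ∑ j, ((-((l j : ℕ) : ℤ) : ℤ) : ℝ) * gpt y' j := by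
    rw [← Finset.sum_sub_distrib]
    refine Finset.sum_congr rfl fun j _ => ?_
    unfold gpt
    push_cast
    ring
  rw [this]
  push_cast
  ring

theorem pho_planch {d n : ℕ} (h g : GG d n → ℂ) :
    (∑ y, h y * (starRingEnd ℂ) (g y)) / ((2:ℂ)^(n+2))^d =
    ∑ l, gf h l * (starRingEnd ℂ) (gf g l) := by
  classical
  set N : ℂ := ((2:ℂ)^(n+2))^d with hN
  have hN0 : N ≠ 0 := by rw [hN]; exact pow_ne_zero _ (pow_ne_zero _ two_ne_zero)
  have hNc : (starRingEnd ℂ) N = N := by
    rw [hN, map_pow, map_pow, Complex.conj_ofNat]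
  have h1 : ∀ l : GG d n, gf h l * (starRingEnd ℂ) (gf g l) =
      (∑ y, ∑ y', h y * (starRingEnd ℂ) (g y') *
        chi (fun j => ((y' j : ℕ) : ℤ) - ((y j : ℕ) : ℤ)) (gpt l)) / (N * N) := by
    intro l
    unfold gf
    rw [map_div₀, hNc, div_mul_div_comm, map_sum, Finset.sum_mul_sum]
    congr 1
    refine Finset.sum_congr rfl fun y _ => Finset.sum_congr rfl fun y' _ => ?_
    rw [← pho_chi_swap, map_mul]
    ring
  rw [Finset.sum_congr rfl (fun l _ => h1 l), ← Finset.sum_div]
  have h2 : ∑ l : GG d n, ∑ y, ∑ y', h y * (starRingEnd ℂ) (g y') *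
        chi (fun j => ((y' j : ℕ) : ℤ) - ((y j : ℕ) : ℤ)) (gpt l) =
      N * ∑ y, h y * (starRingEnd ℂ) (g y) := by
    rw [Finset.sum_comm, Finset.mul_sum]
    refine Finset.sum_congr rfl fun y _ => ?_
    rw [Finset.sum_comm, Finset.sum_eq_single y]
    · rw [← Finset.mul_sum, pho_sum _ (by intro j; simp), if_pos (by funext j; simp)]
      ring
    · intro y' _ hne
      rw [← Finset.mul_sum, pho_sum, if_neg, mul_zero]
      · intro h0
        apply hne
        funext j
        have := congrFun h0 j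
        simp only [Pi.zero_apply] at this
        apply Fin.ext
        omega
      · intro j
        have a1 := (y j).isLt
        have a2 := (y' j).isLt
        have a3 : ((y j : ℕ) : ℤ) < 2^(n+2) := by exact_mod_cast a1
        have a4 : ((y' j : ℕ) : ℤ) < 2^(n+2) := by exact_mod_cast a2
        rw [abs_lt]
        constructor <;> omega
    · intro h; exact absurd (Finset.mem_univ _) h
  rw [h2]
  field_simp

/-- **PHO** -/
theorem pho : S_PHO := by
  intro d n hn
  refine ⟨?_, ?_, ?_, fun h g => pho_planch h g⟩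
  · intro k x
    unfold ph
    have h2 : 0 ≤ Real.sqrt 2 := Real.sqrt_nonneg _
    split_ifs
    · rw [abs_mul, abs_of_nonneg h2]
      exact mul_le_of_le_one_right h2 (Real.abs_cos_le_one _)
    · rw [abs_mul, abs_of_nonneg h2]
      exact mul_le_of_le_one_right h2 (Real.abs_sin_le_one _)
  · intro k hk k' hk'
    have hb := (ksq_layer hk).1
    have hb' := (ksq_layer hk').1
    have h4 : (2:ℤ)^(n+2) = 4 * 2^n := by ring
    have hp : (0:ℤ) < 2^n := by positivity
    have hbm : ∀ j, |(k - k') j| < 2^(n+2) := by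
      intro j
      have a1 := abs_lt.1 (hb j)
      have a2 := abs_lt.1 (hb' j)
      rw [h4, abs_lt, Pi.sub_apply]
      constructor <;> linarith [a1.1, a1.2, a2.1, a2.2]
    have hbp : ∀ j, |(k + k') j| < 2^(n+2) := by
      intro j
      have a1 := abs_lt.1 (hb j)
      have a2 := abs_lt.1 (hb' j)
      rw [h4, abs_lt, Pi.add_apply]
      constructor <;> linarith [a1.1, a1.2, a2.1, a2.2]
    have hne : ∀ {k : Fin d → ℤ}, k ∈ layer d n → k ≠ 0 := by
      rintro k hk rfl
      obtain ⟨-, s, hs, h1⟩ := ksq_layer hk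
      have h0 : ∀ j, s j = 0 := by
        intro j
        have h1 := (h1 j).1
        simp only [Pi.zero_apply, abs_zero] at h1
        by_contra hne
        obtain ⟨t, ht⟩ := Nat.exists_eq_succ_of_ne_zero hne
        rw [ht, Nat.succ_eq_add_one, pow_succ, Int.mul_ediv_cancel _ (by norm_num)] at h1
        have : (0 : ℤ) < 2 ^ t := by positivity
        omega
      rw [Finset.sum_eq_zero (fun j _ => h0 j)] at hs
      omega
    have hm := pho_cs (m := n) (k - k') hbm
    have hpl := pho_cs (m := n) (k + k') hbp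
    have em : ∀ y : GG d n, (∑ j, ((k - k') j : ℝ) * gpt y j) =
        (∑ j, (k j : ℝ) * gpt y j) - ∑ j, (k' j : ℝ) * gpt y j := by
      intro y
      rw [← Finset.sum_sub_distrib]
      refine Finset.sum_congr rfl fun j _ => ?_
      rw [Pi.sub_apply]; push_cast; ring
    have ep : ∀ y : GG d n, (∑ j, ((k + k') j : ℝ) * gpt y j) =
        (∑ j, (k j : ℝ) * gpt y j) + ∑ j, (k' j : ℝ) * gpt y j := by
      intro y
      rw [← Finset.sum_add_distrib]
      refine Finset.sum_congr rfl fun j _ => ?_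
      rw [Pi.add_apply]; push_cast; ring
    simp_rw [em] at hm
    simp_rw [ep] at hpl
    have hkm : k - k' = 0 ↔ k = k' := sub_eq_zero
    have hkp : k + k' = 0 ↔ k' = -k := by
      constructor
      · intro h; exact (neg_eq_of_add_eq_zero_right h).symm
      · rintro rfl; simp
    have hNp : ((2:ℝ)^(n+2))^d ≠ 0 := by positivity
    have hs2 : Real.sqrt 2 * Real.sqrt 2 = 2 := Real.mul_self_sqrt (by norm_num)
    simp only [hkm] at hm
    simp only [hkp] at hpl
    have hkk : posk (-k) ↔ ¬ posk k := pho_posk_neg (hne hk)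
    unfold ph
    by_cases p1 : posk k
    · by_cases p2 : posk k'
      · have hne' : k' ≠ -k := by
          rintro rfl
          exact (hkk.1 p2) p1
        rw [if_neg hne'] at hpl
        simp only [if_pos p1, if_pos p2]
        have e : ∀ y : GG d n, Real.sqrt 2 * Real.cos (∑ j, (k j : ℝ) * gpt y j) *
            (Real.sqrt 2 * Real.cos (∑ j, (k' j : ℝ) * gpt y j)) =
            Real.cos ((∑ j, (k j : ℝ) * gpt y j) - ∑ j, (k' j : ℝ) * gpt y j) +
            Real.cos ((∑ j, (k j : ℝ) * gpt y j) + ∑ j, (k' j : ℝ) * gpt y j) := by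
          intro y
          rw [Real.cos_sub, Real.cos_add]
          linear_combination (Real.cos (∑ j, (k j : ℝ) * gpt y j) * Real.cos (∑ j, (k' j : ℝ) * gpt y j)) * hs2
        rw [Finset.sum_congr rfl (fun y _ => e y), Finset.sum_add_distrib, hm.1, hpl.1, add_zero]
        split_ifs
        · field_simp
        · simp
      · have hne' : k ≠ k' := by
          rintro rfl; exact p2 p1
        simp only [if_pos p1, if_neg p2, if_neg hne']
        have e : ∀ y : GG d n, Real.sqrt 2 * Real.cos (∑ j, (k j : ℝ) * gpt y j) *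
            (Real.sqrt 2 * Real.sin (∑ j, (k' j : ℝ) * gpt y j)) =
            Real.sin ((∑ j, (k j : ℝ) * gpt y j) + ∑ j, (k' j : ℝ) * gpt y j) -
            Real.sin ((∑ j, (k j : ℝ) * gpt y j) - ∑ j, (k' j : ℝ) * gpt y j) := by
          intro y
          rw [Real.sin_sub, Real.sin_add]
          linear_combination (Real.cos (∑ j, (k j : ℝ) * gpt y j) * Real.sin (∑ j, (k' j : ℝ) * gpt y j)) * hs2
        rw [Finset.sum_congr rfl (fun y _ => e y), Finset.sum_sub_distrib, hm.2, hpl.2]
        simp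
    · by_cases p2 : posk k'
      · have hne' : k ≠ k' := by
          rintro rfl; exact p1 p2
        simp only [if_neg p1, if_pos p2, if_neg hne']
        have e : ∀ y : GG d n, Real.sqrt 2 * Real.sin (∑ j, (k j : ℝ) * gpt y j) *
            (Real.sqrt 2 * Real.cos (∑ j, (k' j : ℝ) * gpt y j)) =
            Real.sin ((∑ j, (k j : ℝ) * gpt y j) + ∑ j, (k' j : ℝ) * gpt y j) +
            Real.sin ((∑ j, (k j : ℝ) * gpt y j) - ∑ j, (k' j : ℝ) * gpt y j) := by
          intro y
          rw [Real.sin_sub, Real.sin_add]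
          linear_combination (Real.sin (∑ j, (k j : ℝ) * gpt y j) * Real.cos (∑ j, (k' j : ℝ) * gpt y j)) * hs2
        rw [Finset.sum_congr rfl (fun y _ => e y), Finset.sum_add_distrib, hm.2, hpl.2]
        simp
      · have hne' : k' ≠ -k := by
          rintro rfl
          exact p2 (hkk.2 p1)
        rw [if_neg hne'] at hpl
        simp only [if_neg p1, if_neg p2]
        have e : ∀ y : GG d n, Real.sqrt 2 * Real.sin (∑ j, (k j : ℝ) * gpt y j) *
            (Real.sqrt 2 * Real.sin (∑ j, (k' j : ℝ) * gpt y j)) =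
            Real.cos ((∑ j, (k j : ℝ) * gpt y j) - ∑ j, (k' j : ℝ) * gpt y j) -
            Real.cos ((∑ j, (k j : ℝ) * gpt y j) + ∑ j, (k' j : ℝ) * gpt y j) := by
          intro y
          rw [Real.cos_sub, Real.cos_add]
          linear_combination (Real.sin (∑ j, (k j : ℝ) * gpt y j) * Real.sin (∑ j, (k' j : ℝ) * gpt y j)) * hs2
        rw [Finset.sum_congr rfl (fun y _ => e y), Finset.sum_sub_distrib, hm.1, hpl.1, sub_zero]
        split_ifs
        · field_simp
        · simp
  · intro h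
    have h1 := pho_planch h h
    have e1 : ∀ z : ℂ, z * (starRingEnd ℂ) z = ((‖z‖^2 : ℝ) : ℂ) := by
      intro z
      rw [Complex.mul_conj, Complex.normSq_eq_norm_sq]
    simp_rw [e1] at h1
    rw [← Complex.ofReal_sum, ← Complex.ofReal_sum] at h1
    have h2 : (((∑ y, ‖h y‖^2) / ((2:ℝ)^(n+2))^d : ℝ) : ℂ) = ((∑ l, ‖gf h l‖^2 : ℝ) : ℂ) := by
      rw [← h1]; push_cast; rfl
    exact (Complex.ofReal_injective h2).symm

end MtMt
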