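import Pool.Agent.H636R2.MT.SpecT

open MeasureTheory Real
open scoped ENNReal BigOperators

namespace MtMt
open HypVol MWidth SmSm

/-- expansion of the remainder -/
lemma rb_expand {d n : ℕ} (lam : ℝ) (ε : layer d n → Bool) (y : GG d n) :
    Rr lam ε y = ∑ B : Finset (layer d n), if 2 ≤ B.card then
      lam ^ B.card * (∏ k ∈ B, sg (ε k)) * ∏ k ∈ B, ph k.1 (gpt y) else 0 := by
  classical
  set x : layer d n → ℝ := fun k => lam * sg (ε k) * ph k.1 (gpt y) with hx
  have h1 : ∏ k : layer d n, (1 + lam * sg (ε k) * ph k.1 (gpt y)) =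
      ∑ B : Finset (layer d n), ∏ k ∈ B, x k := by
    rw [← Finset.powerset_univ, ← Finset.prod_one_add]
  have h2 : ∀ B : Finset (layer d n), ∏ k ∈ B, x k =
      (if 2 ≤ B.card then lam ^ B.card * (∏ k ∈ B, sg (ε k)) * ∏ k ∈ B, ph k.1 (gpt y) else 0) +
      ((if B = ∅ then 1 else 0) + ∑ k : layer d n, if B = {k} then x k else 0) := by
    intro B
    have e0 : ∏ k ∈ B, x k = lam ^ B.card * (∏ k ∈ B, sg (ε k)) * ∏ k ∈ B, ph k.1 (gpt y) := by
      rw [hx, Finset.prod_mul_distrib, Finset.prod_mul_distrib, Finset.prod_const]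
    rcases Nat.lt_or_ge B.card 2 with h | h
    · rw [if_neg (by omega), zero_add]
      rcases Nat.eq_zero_or_pos B.card with h0 | h0
      · have hB : B = ∅ := Finset.card_eq_zero.1 h0
        subst hB
        have : ∀ k : layer d n, (if (∅ : Finset (layer d n)) = {k} then x k else 0) = 0 := by
          intro k
          rw [if_neg]
          exact (Finset.singleton_ne_empty k).symm
        simp [this]
      · have hc : B.card = 1 := by omega
        obtain ⟨b, hb⟩ := Finset.card_eq_one.1 hc
        subst hb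
        have h3 : (∑ k : layer d n, if ({b} : Finset (layer d n)) = {k} then x k else 0) = x b := by
          have : ∀ k : layer d n, (if ({b} : Finset (layer d n)) = {k} then x k else 0) =
              if b = k then x k else 0 := by
            intro k
            simp only [Finset.singleton_inj]
          rw [Finset.sum_congr rfl fun k _ => this k]
          simp
        rw [h3, if_neg (Finset.singleton_ne_empty b), zero_add, Finset.prod_singleton]
    · have hB1 : B ≠ ∅ := by
        intro hB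
        rw [hB] at h
        simp at h
      have hB2 : ∀ k : layer d n, (if B = {k} then x k else 0) = 0 := by
        intro k
        rw [if_neg]
        intro hB
        rw [hB] at h
        simp at h
      rw [if_pos h, if_neg hB1, Finset.sum_congr rfl fun k _ => hB2 k, e0]
      simp
  unfold Rr
  rw [h1, Finset.sum_congr rfl fun B _ => h2 B, Finset.sum_add_distrib, Finset.sum_add_distrib,
    Finset.sum_comm]
  have h4 : (∑ B : Finset (layer d n), if B = ∅ then (1:ℝ) else 0) = 1 := by simp
  have h5 : ∀ k : layer d n, (∑ B : Finset (layer d n), if B = {k} then x k else 0) = x k := by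
    intro k
    simp
  rw [Finset.sum_congr rfl fun k _ => h5 k, h4]
  have h6 : ∑ k : layer d n, x k = lam * ge ε (gpt y) := by
    unfold ge
    rw [Finset.mul_sum]
    refine Finset.sum_congr rfl fun k _ => ?_
    rw [hx]
    ring
  rw [h6]
  ring

lemma rb_gf {d n : ℕ} (lam : ℝ) (ε : layer d n → Bool) (l : GG d n) :
    gf (fun y => ((Rr lam ε y : ℝ) : ℂ)) l =
      ∑ B : Finset (layer d n), (if 2 ≤ B.card then
        ((lam ^ B.card : ℝ) : ℂ) * gf (fun y => ((∏ k ∈ B, ph k.1 (gpt y) : ℝ) : ℂ)) l else 0) *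
          ∏ k ∈ B, (sg (ε k) : ℂ) := by
  classical
  have h1 : ∀ y : GG d n, ((Rr lam ε y : ℝ) : ℂ) * chi (fun j => -((l j : ℕ) : ℤ)) (gpt y) =
      ∑ B : Finset (layer d n), (if 2 ≤ B.card then ((lam ^ B.card : ℝ) : ℂ) *
        (((∏ k ∈ B, ph k.1 (gpt y) : ℝ) : ℂ) * chi (fun j => -((l j : ℕ) : ℤ)) (gpt y)) *
          ∏ k ∈ B, (sg (ε k) : ℂ) else 0) := by
    intro y
    rw [rb_expand, Complex.ofReal_sum, Finset.sum_mul]
    refine Finset.sum_congr rfl fun B _ => ?_
    split_ifs with h
    · push_cast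
      ring
    · simp
  unfold gf
  rw [Finset.sum_congr rfl fun y _ => h1 y, Finset.sum_comm, Finset.sum_div]
  refine Finset.sum_congr rfl fun B _ => ?_
  split_ifs with h
  · rw [← Finset.sum_mul, ← Finset.mul_sum]
    ring
  · simp

theorem rb (h1 : S_PHO) (h2 : S_BON) (h3 : S_FB) : S_RB := by
  classical
  intro d n hn lam hlam
  obtain ⟨-, -, hpar, -⟩ := h1 d n hn
  rw [Finset.sum_comm]
  have key : ∀ l : GG d n, ∑ ε : layer d n → Bool,
      ‖gf (fun y => ((Rr lam ε y : ℝ) : ℂ)) l‖^4 ≤
        2^(layer d n).card * ‖gf (fun y => ((Gk d n (6 * lam^2) y : ℝ) : ℂ)) l‖^2 := by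
    intro l
    set a : Finset (layer d n) → ℂ := fun B => if 2 ≤ B.card then
        ((lam ^ B.card : ℝ) : ℂ) * gf (fun y => ((∏ k ∈ B, ph k.1 (gpt y) : ℝ) : ℂ)) l else 0
      with ha
    have e1 := h2 (layer d n) a
    have e2 : Fintype.card (layer d n) = (layer d n).card := Fintype.card_coe _
    rw [e2] at e1
    have e3 : ∑ B : Finset (layer d n), (3:ℝ)^(B.card) * ‖a B‖^2 =
        ∑ B ∈ (Finset.univ : Finset (Finset (layer d n))).filter (fun B => 2 ≤ B.card),
          (3 * lam^2)^(B.card) *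
            ‖gf (fun y => ((∏ k ∈ B, ph k.1 (gpt y) : ℝ) : ℂ)) l‖^2 := by
      rw [Finset.sum_filter]
      refine Finset.sum_congr rfl fun B _ => ?_
      rw [ha]
      simp only
      split_ifs with h
      · rw [norm_mul, Complex.norm_real, Real.norm_eq_abs, abs_of_nonneg (by positivity), mul_pow,
          mul_pow, ← pow_mul, ← pow_mul, mul_comm B.card 2]
        ring
      · simp
    have e4 := h3 d n hn lam hlam l
    rw [← e3] at e4
    have e5 : 0 ≤ ∑ B : Finset (layer d n), (3:ℝ)^(B.card) * ‖a B‖^2 :=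
      Finset.sum_nonneg fun B _ => by positivity
    have e6 : (∑ B : Finset (layer d n), (3:ℝ)^(B.card) * ‖a B‖^2)^2 ≤
        ‖gf (fun y => ((Gk d n (6 * lam^2) y : ℝ) : ℂ)) l‖^2 :=
      pow_le_pow_left₀ e5 (e4.trans (Complex.re_le_norm _)) 2
    have e7 : ∑ ε : layer d n → Bool, ‖gf (fun y => ((Rr lam ε y : ℝ) : ℂ)) l‖^4 =
        ∑ ε : layer d n → Bool, ‖∑ B : Finset (layer d n), a B * ∏ i ∈ B, (sg (ε i) : ℂ)‖^4 := by
      refine Finset.sum_congr rfl fun ε _ => ?_
      rw [rb_gf]
    rw [e7]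
    exact e1.trans (mul_le_mul_of_nonneg_left e6 (by positivity))
  refine (Finset.sum_le_sum fun l _ => key l).trans ?_
  rw [← Finset.mul_sum, hpar]
  refine le_of_eq ?_
  congr 2
  refine Finset.sum_congr rfl fun y _ => ?_
  rw [Complex.norm_real, Real.norm_eq_abs, sq_abs]

end MtMt
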