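import Pool.Agent.H636R2.MT.SpecT

/-! Task T_BON (helper724): Bonami's inequality for the fourth moment, complex coefficients. -/

namespace MtMt

open Finset

theorem bon_two (X Y : ℂ) : ‖X + Y‖ ^ 4 + ‖X - Y‖ ^ 4 ≤
    2 * (‖X‖ ^ 4 + 6 * (‖X‖ ^ 2 * ‖Y‖ ^ 2) + ‖Y‖ ^ 4) := by
  have h1 : ‖X + Y‖ ^ 2 = ‖X‖ ^ 2 + ‖Y‖ ^ 2 + 2 * (X * (starRingEnd ℂ) Y).re := by
    rw [← Complex.normSq_eq_norm_sq, ← Complex.normSq_eq_norm_sq, ← Complex.normSq_eq_norm_sq,
      Complex.normSq_add]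
  have h2 : ‖X - Y‖ ^ 2 = ‖X‖ ^ 2 + ‖Y‖ ^ 2 - 2 * (X * (starRingEnd ℂ) Y).re := by
    rw [← Complex.normSq_eq_norm_sq, ← Complex.normSq_eq_norm_sq, ← Complex.normSq_eq_norm_sq,
      Complex.normSq_sub]
  have h3 : |(X * (starRingEnd ℂ) Y).re| ≤ ‖X‖ * ‖Y‖ := by
    refine (Complex.abs_re_le_norm _).trans ?_
    rw [norm_mul, RCLike.norm_conj]
  have h4 : (X * (starRingEnd ℂ) Y).re ^ 2 ≤ ‖X‖ ^ 2 * ‖Y‖ ^ 2 := by
    rw [← mul_pow, ← sq_abs]
    exact pow_le_pow_left₀ (abs_nonneg _) h3 2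
  have e1 : ‖X + Y‖ ^ 4 = (‖X + Y‖ ^ 2) ^ 2 := by ring
  have e2 : ‖X - Y‖ ^ 4 = (‖X - Y‖ ^ 2) ^ 2 := by ring
  rw [e1, e2, h1, h2]
  nlinarith [h4]

variable {I : Type} [Fintype I] [DecidableEq I]

/-- partial sums -/
noncomputable def bonZ (a : Finset I → ℂ) (S : Finset I) (ε : I → Bool) : ℂ :=
  ∑ B ∈ S.powerset, a B * ∏ i ∈ B, (sg (ε i) : ℂ)

/-- flip of one sign -/
def bonF (i : I) (ε : I → Bool) : I → Bool := Function.update ε i (!(ε i))

theorem bonF_inv (i : I) (ε : I → Bool) : bonF i (bonF i ε) = ε := by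
  unfold bonF
  funext j
  by_cases h : j = i
  · subst h; simp
  · simp [h]

theorem bonZ_flip (a : Finset I → ℂ) (S : Finset I) (i : I) (hi : i ∉ S) (ε : I → Bool) :
    bonZ a S (bonF i ε) = bonZ a S ε := by
  unfold bonZ
  apply Finset.sum_congr rfl
  intro B hB
  congr 1
  apply Finset.prod_congr rfl
  intro j hj
  have hji : j ≠ i := by
    rintro rfl
    exact hi (Finset.mem_powerset.1 hB hj)
  unfold bonF
  rw [Function.update_of_ne hji]

theorem bonZ_insert (a : Finset I → ℂ) (S : Finset I) (i : I) (hi : i ∉ S) (ε : I → Bool) :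
    bonZ a (insert i S) ε = bonZ a S ε + (sg (ε i) : ℂ) * bonZ (fun B => a (insert i B)) S ε := by
  unfold bonZ
  rw [Finset.sum_powerset_insert hi]
  congr 1
  rw [Finset.mul_sum]
  apply Finset.sum_congr rfl
  intro B hB
  have hiB : i ∉ B := fun h => hi (Finset.mem_powerset.1 hB h)
  rw [Finset.prod_insert hiB]
  ring

theorem sg_not (b : Bool) : sg (!b) = - sg b := by
  cases b <;> simp [sg]

theorem sg_norm (b : Bool) : ‖(sg b : ℂ)‖ = 1 := by
  cases b <;> simp [sg]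

theorem bon_main (S : Finset I) : ∀ a : Finset I → ℂ,
    ∑ ε : I → Bool, ‖bonZ a S ε‖ ^ 4 ≤
      2 ^ (Fintype.card I) * (∑ B ∈ S.powerset, (3 : ℝ) ^ (B.card) * ‖a B‖ ^ 2) ^ 2 := by
  induction S using Finset.induction_on with
  | empty =>
    intro a
    have h : ∀ ε : I → Bool, ‖bonZ a ∅ ε‖ ^ 4 = ‖a ∅‖ ^ 4 := by
      intro ε
      unfold bonZ
      simp
    rw [Finset.sum_congr rfl fun ε _ => h ε, Finset.sum_const, Finset.card_univ, nsmul_eq_mul]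
    have : (Fintype.card (I → Bool) : ℝ) = 2 ^ (Fintype.card I) := by
      rw [Fintype.card_fun, Fintype.card_bool]; push_cast; rfl
    rw [this]
    apply le_of_eq
    simp
    ring
  | insert i S hi ih =>
    intro a
    set N : ℝ := 2 ^ (Fintype.card I) with hN
    have hN0 : 0 < N := by positivity
    set X : (I → Bool) → ℂ := bonZ a S with hX
    set Y : (I → Bool) → ℂ := bonZ (fun B => a (insert i B)) S with hY
    set A : ℝ := ∑ B ∈ S.powerset, (3 : ℝ) ^ (B.card) * ‖a B‖ ^ 2 with hA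
    set C : ℝ := ∑ B ∈ S.powerset, (3 : ℝ) ^ (B.card) * ‖a (insert i B)‖ ^ 2 with hC
    have hA0 : 0 ≤ A := Finset.sum_nonneg fun _ _ => by positivity
    have hC0 : 0 ≤ C := Finset.sum_nonneg fun _ _ => by positivity
    have h1 : ∑ ε, ‖X ε‖ ^ 4 ≤ N * A ^ 2 := ih a
    have h2 : ∑ ε, ‖Y ε‖ ^ 4 ≤ N * C ^ 2 := ih _
    have hcs : ∑ ε, ‖X ε‖ ^ 2 * ‖Y ε‖ ^ 2 ≤ N * (A * C) := by
      have h3 := Finset.sum_mul_sq_le_sq_mul_sq (Finset.univ : Finset (I → Bool))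
        (fun ε => ‖X ε‖ ^ 2) (fun ε => ‖Y ε‖ ^ 2)
      have e1 : ∑ ε, (‖X ε‖ ^ 2) ^ 2 = ∑ ε, ‖X ε‖ ^ 4 :=
        Finset.sum_congr rfl fun ε _ => by ring
      have e2 : ∑ ε, (‖Y ε‖ ^ 2) ^ 2 = ∑ ε, ‖Y ε‖ ^ 4 :=
        Finset.sum_congr rfl fun ε _ => by ring
      rw [e1, e2] at h3
      have h4 : (∑ ε, ‖X ε‖ ^ 2 * ‖Y ε‖ ^ 2) ^ 2 ≤ (N * (A * C)) ^ 2 := by
        refine h3.trans ?_
        calc (∑ ε, ‖X ε‖ ^ 4) * ∑ ε, ‖Y ε‖ ^ 4 ≤ (N * A ^ 2) * (N * C ^ 2) := by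
              apply mul_le_mul h1 h2 (Finset.sum_nonneg fun _ _ => by positivity) (by positivity)
          _ = _ := by ring
      exact le_of_sq_le_sq h4 (by positivity)
    -- the sum over the flips
    have hflip : ∑ ε, ‖bonZ a (insert i S) ε‖ ^ 4 = ∑ ε, ‖bonZ a (insert i S) (bonF i ε)‖ ^ 4 := by
      refine (Finset.sum_nbij' (bonF i) (bonF i) ?_ ?_ ?_ ?_ ?_)
      · intro _ _; exact Finset.mem_univ _
      · intro _ _; exact Finset.mem_univ _
      · intro ε _; exact bonF_inv i ε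
      · intro ε _; exact bonF_inv i ε
      · intro ε _; rw [bonF_inv]
    have hpt : ∀ ε, ‖bonZ a (insert i S) ε‖ ^ 4 + ‖bonZ a (insert i S) (bonF i ε)‖ ^ 4 ≤
        2 * (‖X ε‖ ^ 4 + 6 * (‖X ε‖ ^ 2 * ‖Y ε‖ ^ 2) + ‖Y ε‖ ^ 4) := by
      intro ε
      rw [bonZ_insert a S i hi, bonZ_insert a S i hi, bonZ_flip a S i hi, bonZ_flip _ S i hi]
      have e : sg (bonF i ε i) = - sg (ε i) := by
        unfold bonF
        rw [Function.update_self, sg_not]
      rw [e]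
      have := bon_two (X ε) ((sg (ε i) : ℂ) * Y ε)
      rw [norm_mul, sg_norm, one_mul] at this
      have e2 : X ε + ((-sg (ε i) : ℝ) : ℂ) * Y ε = X ε - (sg (ε i) : ℂ) * Y ε := by
        push_cast; ring
      rw [e2]
      exact this
    have hsum := Finset.sum_le_sum fun (ε : I → Bool) (_ : ε ∈ Finset.univ) => hpt ε
    rw [Finset.sum_add_distrib, ← hflip, ← Finset.mul_sum, Finset.sum_add_distrib,
      Finset.sum_add_distrib, ← Finset.mul_sum] at hsum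
    have hR : ∑ B ∈ (insert i S).powerset, (3 : ℝ) ^ (B.card) * ‖a B‖ ^ 2 = A + 3 * C := by
      rw [Finset.sum_powerset_insert hi, hC, Finset.mul_sum]
      congr 1
      apply Finset.sum_congr rfl
      intro B hB
      have hiB : i ∉ B := fun h => hi (Finset.mem_powerset.1 hB h)
      rw [Finset.card_insert_of_notMem hiB, pow_succ]
      ring
    rw [hR]
    have hf : N * (A + 3 * C) ^ 2 = N * A ^ 2 + 6 * (N * (A * C)) + 9 * (N * C ^ 2) := by ring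
    rw [hf]
    have : 0 ≤ N * C ^ 2 := by positivity
    linarith

theorem bon : S_BON := by
  intro I _ _ a
  have h := bon_main (Finset.univ : Finset I) a
  unfold bonZ at h
  rw [Finset.powerset_univ] at h
  exact h

end MtMt
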