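import Pool.Agent.H636R2.MT.SpecT
import Mathlib

open Finset

namespace MtMt

theorem con_two {K t G0 G1 H0 H1 : ℝ} (hG0 : 0 ≤ G0) (hG1 : 0 ≤ G1) (hH0 : 0 ≤ H0) (hH1 : 0 ≤ H1)
    (hK : 0 ≤ K) (h00 : G0 * H0 ≤ K) (h11 : G1 * H1 ≤ K) (h01 : G0 * H1 ≤ K * Real.exp t)
    (h10 : G1 * H0 ≤ K * Real.exp t) :
    (G0 + G1) * (H0 + H1) ≤ K * (2 + Real.exp t + Real.exp (-t)) := by
  rcases hK.eq_or_lt with h | h
  · subst h
    simp only [zero_mul] at *
    nlinarith
  · have hu : 0 < Real.exp t := Real.exp_pos t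
    have hinv : Real.exp (-t) * Real.exp t = 1 := by
      rw [← Real.exp_add]
      simp
    set u := Real.exp t
    set w := Real.exp (-t)
    have hA : 0 ≤ G0 * H1 := mul_nonneg hG0 hH1
    have hB : 0 ≤ G1 * H0 := mul_nonneg hG1 hH0
    have hC : 0 ≤ G0 * H0 := mul_nonneg hG0 hH0
    have hD : 0 ≤ G1 * H1 := mul_nonneg hG1 hH1
    have hAB : (G0 * H1) * (G1 * H0) ≤ K * K := by
      calc (G0 * H1) * (G1 * H0) = (G0 * H0) * (G1 * H1) := by ring
        _ ≤ K * K := mul_le_mul h00 h11 hD hK
    have h1 : 0 ≤ (K * u - G0 * H1) * (K * u - G1 * H0) :=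
      mul_nonneg (by linarith) (by linarith)
    have h2 : K * u * (G0 * H1 + G1 * H0) ≤ K * u * (K * (u + w)) := by
      have e : K * u * (K * (u + w)) = K * u * (K * u) + K * K := by
        have : K * u * (K * (u + w)) = K * u * (K * u) + K * K * (w * u) := by ring
        rw [this, hinv]
        ring
      rw [e]
      nlinarith
    have h3 : G0 * H1 + G1 * H0 ≤ K * (u + w) := le_of_mul_le_mul_left h2 (by positivity)
    nlinarith

/-- the Hamming distance -/
noncomputable def con_d {I : Type} [Fintype I] (x y : I → Bool) : ℝ :=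
  ∑ i, if x i = y i then (0 : ℝ) else 1

theorem con_fin (t : ℝ) (n : ℕ) : ∀ (g h : (Fin n → Bool) → ℝ), (∀ x, 0 ≤ g x) →
    (∀ x, 0 ≤ h x) → ∀ K : ℝ, 0 ≤ K → (∀ x y, g x * h y ≤ K * Real.exp (t * con_d x y)) →
    (∑ x, g x) * (∑ y, h y) ≤ K * (2 + Real.exp t + Real.exp (-t)) ^ n := by
  induction n with
  | zero =>
    intro g h hg hh K hK H
    rw [Fintype.sum_unique, Fintype.sum_unique, pow_zero, mul_one]
    refine (H _ _).trans (le_of_eq ?_)
    simp only [con_d, univ_eq_empty, sum_empty, mul_zero, Real.exp_zero, mul_one]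
  | succ n ih =>
    intro g h hg hh K hK H
    have hsum : ∀ f : (Fin (n + 1) → Bool) → ℝ, ∑ x, f x =
        ∑ x : Fin n → Bool, f (Fin.cons false x) + ∑ x : Fin n → Bool, f (Fin.cons true x) := by
      intro f
      rw [← Equiv.sum_comp (Fin.consEquiv (fun _ : Fin (n + 1) => Bool)), Fintype.sum_prod_type,
        Fintype.sum_bool, add_comm]
      rfl
    have hd : ∀ (a b : Bool) (x y : Fin n → Bool), con_d (Fin.cons a x : Fin (n + 1) → Bool)
        (Fin.cons b y) = (if a = b then (0 : ℝ) else 1) + con_d x y := by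
      intro a b x y
      unfold con_d
      rw [Fin.sum_univ_succ]
      simp only [Fin.cons_zero, Fin.cons_succ]
    have hc : 0 ≤ (2 + Real.exp t + Real.exp (-t)) ^ n := by positivity
    have hab : ∀ a b : Bool, (∑ x : Fin n → Bool, g (Fin.cons a x)) *
        (∑ y : Fin n → Bool, h (Fin.cons b y)) ≤
        K * Real.exp (t * (if a = b then (0 : ℝ) else 1)) *
          (2 + Real.exp t + Real.exp (-t)) ^ n := by
      intro a b
      apply ih (fun x => g (Fin.cons a x)) (fun y => h (Fin.cons b y)) (fun x => hg _)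
        (fun x => hh _) _ (by positivity)
      intro x y
      have := H (Fin.cons a x) (Fin.cons b y)
      rw [hd, mul_add, Real.exp_add, ← mul_assoc] at this
      exact this
    rw [hsum g, hsum h, pow_succ, ← mul_assoc]
    apply con_two (sum_nonneg fun _ _ => hg _) (sum_nonneg fun _ _ => hg _)
      (sum_nonneg fun _ _ => hh _) (sum_nonneg fun _ _ => hh _) (mul_nonneg hK hc)
    · have := hab false false
      simpa using this
    · have := hab true true
      simpa using this
    · have := hab false true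
      simp only [Bool.false_eq_true, if_false, mul_one] at this
      calc _ ≤ _ := this
        _ = _ := by ring
    · have := hab true false
      simp only [Bool.true_eq_false, if_false, mul_one] at this
      calc _ ≤ _ := this
        _ = _ := by ring

theorem con_type (t : ℝ) (I : Type) [Fintype I] [DecidableEq I] (g h : (I → Bool) → ℝ) (hg : ∀ x, 0 ≤ g x)
    (hh : ∀ x, 0 ≤ h x) (H : ∀ x y, g x * h y ≤ Real.exp (t * con_d x y)) :
    (∑ x, g x) * (∑ y, h y) ≤ (2 + Real.exp t + Real.exp (-t)) ^ (Fintype.card I) := by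
  let e : I ≃ Fin (Fintype.card I) := Fintype.equivFin I
  let E : (Fin (Fintype.card I) → Bool) ≃ (I → Bool) := Equiv.arrowCongr e.symm (Equiv.refl Bool)
  have hE : ∀ (x : Fin (Fintype.card I) → Bool) (i : I), E x i = x (e i) := fun x i => rfl
  have := con_fin t (Fintype.card I) (fun x => g (E x)) (fun x => h (E x)) (fun x => hg _)
    (fun x => hh _) 1 zero_le_one (by
      intro x y
      have h1 := H (E x) (E y)
      have h2 : con_d (E x) (E y) = con_d x y := by
        unfold con_d
        rw [← Equiv.sum_comp e]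
        rfl
      rw [h2] at h1
      simpa using h1)
  rw [Equiv.sum_comp E g, Equiv.sum_comp E h, one_mul] at this
  exact this

theorem con_sg (a b : Bool) : sg a * sg b = 1 - 2 * (if a = b then (0 : ℝ) else 1) := by
  cases a <;> cases b <;> simp [sg] <;> norm_num

theorem con_cosh (t : ℝ) : 2 + Real.exp t + Real.exp (-t) ≤ 4 * Real.exp (t ^ 2 / 4) := by
  have h := Real.cosh_le_exp_half_sq (t / 2)
  have h1 : 2 + Real.exp t + Real.exp (-t) = 4 * Real.cosh (t / 2) ^ 2 := by
    have e1 : Real.exp t = Real.exp (t / 2) ^ 2 := by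
      rw [← Real.exp_nat_mul]
      congr 1
      push_cast
      ring
    have e2 : Real.exp (-t) = Real.exp (-(t / 2)) ^ 2 := by
      rw [← Real.exp_nat_mul]
      congr 1
      push_cast
      ring
    have e3 : Real.exp (t / 2) * Real.exp (-(t / 2)) = 1 := by
      rw [← Real.exp_add]
      simp
    rw [Real.cosh_eq, e1, e2]
    nlinarith
  have h2 : Real.cosh (t / 2) ^ 2 ≤ Real.exp ((t / 2) ^ 2 / 2) ^ 2 :=
    pow_le_pow_left₀ (Real.cosh_pos _).le h 2
  have h3 : Real.exp ((t / 2) ^ 2 / 2) ^ 2 = Real.exp (t ^ 2 / 4) := by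
    rw [← Real.exp_nat_mul]
    congr 1
    push_cast
    ring
  rw [h1]
  rw [h3] at h2
  linarith

theorem con_jensen {X : Type} [Fintype X] [Nonempty X] (u : X → ℝ) :
    (Fintype.card X : ℝ) * Real.exp ((∑ x, u x) / Fintype.card X) ≤ ∑ x, Real.exp (u x) := by
  have hc : (0 : ℝ) < Fintype.card X := by exact_mod_cast Fintype.card_pos
  set m := (∑ x, u x) / Fintype.card X with hm
  have h1 : ∀ x, Real.exp m * (1 + (u x - m)) ≤ Real.exp (u x) := by
    intro x
    have h2 := Real.add_one_le_exp (u x - m)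
    have h3 : Real.exp (u x) = Real.exp m * Real.exp (u x - m) := by
      rw [← Real.exp_add]
      congr 1
      ring
    rw [h3]
    apply mul_le_mul_of_nonneg_left _ (Real.exp_pos m).le
    linarith
  have h4 : ∑ x, Real.exp m * (1 + (u x - m)) = Fintype.card X * Real.exp m := by
    rw [← mul_sum, sum_add_distrib, sum_sub_distrib]
    simp only [sum_const, card_univ, nsmul_eq_mul, mul_one]
    have : (Fintype.card X : ℝ) * m = ∑ x, u x := by
      rw [hm]
      field_simp
    rw [this]
    ring
  rw [← h4]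
  exact sum_le_sum fun x _ => h1 x

theorem con : S_CON := by
  intro I _ _ E η F hη hE hF
  set N := Fintype.card I with hN
  have hcard : (Fintype.card (I → Bool) : ℝ) = 2 ^ N := by
    rw [Fintype.card_fun, Fintype.card_bool]
    push_cast
    rfl
  have h2N : (0 : ℝ) < 2 ^ N := by positivity
  -- mean of F
  set m := (∑ x, F x) / 2 ^ N with hm
  have key : ∀ t : ℝ, 0 < t → t * (N - m) / 2 ≤ η * N + t ^ 2 / 4 * N := by
    intro t ht
    have h1 := con_type t I (fun x => Real.exp (t * ((N - F x) / 2)))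
      (fun y => if y ∈ E then 1 else 0) (fun x => (Real.exp_pos _).le)
      (fun y => by positivity) (by
        intro x y
        by_cases hy : y ∈ E
        · simp only [hy, if_true, mul_one]
          apply Real.exp_le_exp.mpr
          apply mul_le_mul_of_nonneg_left _ ht.le
          have h2 := hF x y hy
          have h3 : ∑ i, sg (x i) * sg (y i) = N - 2 * con_d x y := by
            unfold con_d
            simp only [con_sg]
            rw [sum_sub_distrib, ← mul_sum]
            simp [hN]
          rw [h3] at h2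
          linarith
        · simp only [hy, if_false, mul_zero]
          positivity)
    have h2 : ∑ y : I → Bool, (if y ∈ E then (1 : ℝ) else 0) = E.card := by
      simp
    rw [h2] at h1
    have h3 := con_jensen (fun x : I → Bool => t * ((N - F x) / 2))
    rw [hcard] at h3
    have h4 : (∑ x, t * ((N - F x) / 2)) / 2 ^ N = t * (N - m) / 2 := by
      rw [← mul_sum, ← sum_div, sum_sub_distrib]
      simp only [sum_const, card_univ, nsmul_eq_mul]
      rw [hcard, hm]
      field_simp
    rw [h4] at h3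
    have h5 : (2 : ℝ) ^ N * Real.exp (t * (N - m) / 2) * (2 ^ N * Real.exp (-(η * N))) ≤
        (4 * Real.exp (t ^ 2 / 4)) ^ N := by
      calc (2 : ℝ) ^ N * Real.exp (t * (N - m) / 2) * (2 ^ N * Real.exp (-(η * N)))
          ≤ (∑ x, Real.exp (t * ((N - F x) / 2))) * E.card :=
            mul_le_mul h3 hE (by positivity) (sum_nonneg fun _ _ => (Real.exp_pos _).le)
        _ ≤ (2 + Real.exp t + Real.exp (-t)) ^ N := h1
        _ ≤ (4 * Real.exp (t ^ 2 / 4)) ^ N := pow_le_pow_left₀ (by positivity) (con_cosh t) N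
    have h6 : (4 * Real.exp (t ^ 2 / 4)) ^ N = 2 ^ N * 2 ^ N * Real.exp (t ^ 2 / 4 * N) := by
      rw [mul_pow, ← Real.exp_nat_mul, mul_comm (t ^ 2 / 4) (N : ℝ), ← mul_pow]
      norm_num
    rw [h6] at h5
    have h7 : (2 : ℝ) ^ N * 2 ^ N * Real.exp (t * (N - m) / 2 + -(η * N)) ≤
        2 ^ N * 2 ^ N * Real.exp (t ^ 2 / 4 * N) := by
      rw [Real.exp_add]
      calc _ = (2 : ℝ) ^ N * Real.exp (t * (N - m) / 2) * (2 ^ N * Real.exp (-(η * N))) := by ring
        _ ≤ _ := h5
    have h8 := Real.exp_le_exp.mp (le_of_mul_le_mul_left h7 (by positivity))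
    linarith
  have hfin : (N : ℝ) * (1 - 2 * Real.sqrt η) ≤ m := by
    rcases hη.eq_or_lt with h | h
    · subst h
      simp only [Real.sqrt_zero, mul_zero, sub_zero, mul_one]
      by_contra hcon
      push Not at hcon
      set δ := (N : ℝ) - m with hδ
      have hδ0 : 0 < δ := by linarith
      have hN0 : (0 : ℝ) ≤ N := Nat.cast_nonneg _
      have h1 := key (δ / (N + 1)) (by positivity)
      have h2 : δ / (N + 1) * δ / 2 ≤ (δ / (N + 1)) ^ 2 / 4 * N := by linarith
      have h3 : (δ / (N + 1)) ^ 2 / 4 * N ≤ δ / (N + 1) * δ / 4 := by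
        have h4 : δ / ((N : ℝ) + 1) * N ≤ δ := by
          rw [div_mul_eq_mul_div, div_le_iff₀ (by positivity)]
          nlinarith
        have h5 : (0 : ℝ) ≤ δ / (N + 1) := by positivity
        calc (δ / (N + 1)) ^ 2 / 4 * N = δ / (N + 1) * (δ / (N + 1) * N) / 4 := by ring
          _ ≤ δ / (N + 1) * δ / 4 := by
            apply div_le_div_of_nonneg_right _ (by norm_num)
            exact mul_le_mul_of_nonneg_left h4 h5
      have h6 : 0 < δ / (N + 1) * δ := by positivity
      linarith
    · have hs : 0 < Real.sqrt η := Real.sqrt_pos.mpr h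
      have hss : Real.sqrt η * Real.sqrt η = η := Real.mul_self_sqrt h.le
      have h1 := key (2 * Real.sqrt η) (by positivity)
      have h2 : Real.sqrt η * (N - m) ≤ Real.sqrt η * (2 * Real.sqrt η * N) := by
        have e : (2 * Real.sqrt η) ^ 2 / 4 = η := by
          rw [mul_pow, sq (Real.sqrt η), hss]
          ring
        rw [e] at h1
        have e2 : Real.sqrt η * (2 * Real.sqrt η * N) = 2 * η * N := by
          calc Real.sqrt η * (2 * Real.sqrt η * N) = 2 * (Real.sqrt η * Real.sqrt η) * N := by ring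
            _ = 2 * η * N := by rw [hss]
        rw [e2]
        linarith
      have h3 := le_of_mul_le_mul_left h2 hs
      linarith
  have : ∑ x, F x = 2 ^ N * m := by
    rw [hm]
    field_simp
  rw [this]
  exact mul_le_mul_of_nonneg_left hfin h2N.le

end MtMt

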