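import Pool.Agent.H636R2.MT.SpecT
import Pool.Agent.HypVol.L_card_layer
import Pool.Agent.HypVol.L_shp_lower
open MeasureTheory Real
open scoped ENNReal BigOperators

/-!
EXI: most sign patterns are not bad.
-/

namespace MtMt
open HypVol MWidth SmSm

theorem exi_sg_sq (b : Bool) : sg b * sg b = 1 := by cases b <;> simp [sg]

theorem exi_sg_not (b : Bool) : sg (!b) = -sg b := by cases b <;> simp [sg]

theorem exi_sg_mul_le (b c : Bool) : sg b * sg c ≤ 1 := by
  cases b <;> cases c <;> simp [sg]

/-- flip the signs off `A` -/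
def exi_flip {I : Type} [DecidableEq I] (A : Finset I) (ε : I → Bool) : I → Bool :=
  fun k => if k ∈ A then ε k else !(ε k)

theorem exi_flip_flip {I : Type} [DecidableEq I] (A : Finset I) (ε : I → Bool) :
    exi_flip A (exi_flip A ε) = ε := by
  funext k
  unfold exi_flip
  by_cases hk : k ∈ A
  · simp [hk]
  · simp [hk]

theorem exi_sum_flip {I : Type} [Fintype I] [DecidableEq I] (A : Finset I)
    (W : (I → Bool) → ℝ) : ∑ ε, W (exi_flip A ε) = ∑ ε, W ε := by
  let e : (I → Bool) ≃ (I → Bool) :=
    ⟨exi_flip A, exi_flip A, exi_flip_flip A, exi_flip_flip A⟩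
  exact Equiv.sum_comp e W

theorem exi_card_ge (d n : ℕ) (hd : 1 ≤ d) (hn : 1 ≤ n) : n ≤ (layer d n).card := by
  rw [card_layer]
  obtain ⟨c, hc, h⟩ := shp_lower d hd
  have h1 : (0 : ℝ) < shp d n := by
    refine lt_of_lt_of_le ?_ (h n hn)
    have : (0 : ℝ) < n := by exact_mod_cast hn
    positivity
  have h2 : 0 < shp d n := by exact_mod_cast h1
  calc n ≤ 2 ^ n := Nat.lt_two_pow_self.le
    _ = 2 ^ n * 1 := (mul_one _).symm
    _ ≤ 2 ^ n * shp d n := Nat.mul_le_mul_left _ h2

open Classical in
/-- patterns which are bad with the set `A` -/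
noncomputable def exi_E (d n : ℕ) (δ : ℝ) (A : Finset (layer d n)) :
    Finset (layer d n → Bool) :=
  Finset.univ.filter (fun ε => ∃ h ∈ Sp d n, ∀ k ∈ A,
    ip h k.1 = sg (ε k) / (δ * Real.sqrt (n * (layer d n).card)))

open Classical in
theorem exi_one (hcon : S_CON) {d n : ℕ} (hn : 1 ≤ n) (hL : 0 < (layer d n).card)
    {C δ c0 : ℝ} (hδ : 0 < δ) (hsmall : C * δ + c0 < 1 / 2)
    (W : (layer d n → Bool) → ℝ)
    (hW1 : ∀ ε, ∀ h ∈ Sp d n, ∑ k : layer d n, sg (ε k) * ip h k.1 ≤ W ε)
    (hW2 : ∑ ε, W ε ≤ 2^(layer d n).card * (C * Real.sqrt ((layer d n).card / n)))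
    (A : Finset (layer d n)) (hA : (1 - c0) * (layer d n).card ≤ A.card) :
    ((exi_E d n δ A).card : ℝ) ≤
      2^(layer d n).card * Real.exp (-((1/16 : ℝ) * (layer d n).card)) := by
  by_contra hcontra
  rw [not_le] at hcontra
  set L : ℕ := (layer d n).card with hLdef
  have hLr : (0 : ℝ) < L := by exact_mod_cast hL
  have hnr : (0 : ℝ) < n := by exact_mod_cast hn
  have hcard : Fintype.card (layer d n) = L := Fintype.card_coe _
  set s : ℝ := δ * Real.sqrt (n * L) with hs
  have hspos : 0 < s := mul_pos hδ (Real.sqrt_pos.2 (mul_pos hnr hLr))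
  have key := hcon (layer d n) (exi_E d n δ A) (1/16)
    (fun ε' => (W ε' + W (exi_flip A ε')) * (s / 2) + ((L : ℝ) - A.card)) (by norm_num)
    (by rw [hcard]; exact hcontra.le)
    (by
      intro ε' ε hε
      unfold exi_E at hε
      rw [Finset.mem_filter] at hε
      obtain ⟨-, h, hh, hhA⟩ := hε
      have hpt : ∀ i : layer d n, sg (ε' i) * sg (ε i) ≤
          (sg (ε' i) * ip h i.1 + sg (exi_flip A ε' i) * ip h i.1) * (s / 2) +
            (if i ∈ A then (0 : ℝ) else 1) := by
        intro i
        by_cases hi : i ∈ A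
        · rw [if_pos hi]
          have h1 : exi_flip A ε' i = ε' i := by simp [exi_flip, hi]
          have h6 := hhA i hi
          rw [← hLdef, ← hs] at h6
          rw [h1, h6]
          apply le_of_eq
          have h7 : sg (ε i) / s * s = sg (ε i) := div_mul_cancel₀ _ hspos.ne'
          calc sg (ε' i) * sg (ε i) = sg (ε' i) * (sg (ε i) / s * s) := by rw [h7]
            _ = _ := by ring
        · rw [if_neg hi]
          have h1 : sg (exi_flip A ε' i) = - sg (ε' i) := by
            rw [← exi_sg_not]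
            simp [exi_flip, hi]
          rw [h1]
          have := exi_sg_mul_le (ε' i) (ε i)
          linarith [this]
      calc ∑ i, sg (ε' i) * sg (ε i) ≤ ∑ i : layer d n,
            ((sg (ε' i) * ip h i.1 + sg (exi_flip A ε' i) * ip h i.1) * (s / 2) +
            (if i ∈ A then (0 : ℝ) else 1)) := Finset.sum_le_sum (fun i _ => hpt i)
        _ = (∑ i : layer d n, sg (ε' i) * ip h i.1 +
              ∑ i : layer d n, sg (exi_flip A ε' i) * ip h i.1) * (s / 2) +
            ∑ i : layer d n, (if i ∈ A then (0 : ℝ) else 1) := by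
            rw [Finset.sum_add_distrib, ← Finset.sum_mul, Finset.sum_add_distrib]
        _ ≤ (W ε' + W (exi_flip A ε')) * (s / 2) + ((L : ℝ) - A.card) := by
            have h1 := hW1 ε' h hh
            have h2 := hW1 (exi_flip A ε') h hh
            have h3 : ∑ i : layer d n, (if i ∈ A then (0 : ℝ) else 1) = (L : ℝ) - A.card := by
              have h4 : ∀ i : layer d n, (if i ∈ A then (0 : ℝ) else 1) =
                  1 - (if i ∈ A then (1 : ℝ) else 0) := by
                intro i
                split_ifs <;> norm_num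
              rw [Finset.sum_congr rfl (fun i _ => h4 i), Finset.sum_sub_distrib,
                Finset.sum_ite_mem, Finset.univ_inter, Finset.sum_const, Finset.sum_const,
                Finset.card_univ, hcard]
              simp
            rw [h3]
            have h5 : 0 < s / 2 := by positivity
            nlinarith [mul_le_mul_of_nonneg_right (add_le_add h1 h2) h5.le])
  have hsum : ∑ ε' : layer d n → Bool,
      ((W ε' + W (exi_flip A ε')) * (s / 2) + ((L : ℝ) - A.card)) =
      (∑ ε', W ε') * s + 2 ^ L * ((L : ℝ) - A.card) := by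
    rw [Finset.sum_add_distrib, ← Finset.sum_mul, Finset.sum_add_distrib, exi_sum_flip,
      Finset.sum_const, Finset.card_univ, Fintype.card_fun, Fintype.card_bool, hcard, nsmul_eq_mul]
    push_cast
    ring
  rw [hsum, hcard] at key
  have hsq : Real.sqrt (1/16 : ℝ) = 1/4 := by
    rw [show (1/16 : ℝ) = (1/4)^2 by norm_num]
    exact Real.sqrt_sq (by norm_num)
  rw [hsq] at key
  have hprod : Real.sqrt ((L : ℝ) / n) * Real.sqrt (n * L) = L := by
    rw [← Real.sqrt_mul (by positivity)]
    have : (L : ℝ) / n * (n * L) = (L : ℝ)^2 := by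
      field_simp
    rw [this]
    exact Real.sqrt_sq hLr.le
  have h1 : (∑ ε', W ε') * s ≤ 2 ^ L * (C * δ * L) := by
    calc (∑ ε', W ε') * s ≤ (2^L * (C * Real.sqrt ((L : ℝ) / n))) * s :=
          mul_le_mul_of_nonneg_right hW2 hspos.le
      _ = 2^L * (C * δ * (Real.sqrt ((L : ℝ) / n) * Real.sqrt (n * L))) := by
          rw [hs]; ring
      _ = 2 ^ L * (C * δ * L) := by rw [hprod]
  have h2 : (L : ℝ) - A.card ≤ c0 * L := by linarith
  have h2L : (0 : ℝ) < 2 ^ L := by positivity
  have h3 : (2 : ℝ)^L * (L * (1 - 2 * (1/4))) ≤ 2 ^ L * (C * δ * L) + 2 ^ L * (c0 * L) := by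
    refine key.trans ?_
    have := mul_le_mul_of_nonneg_left h2 h2L.le
    linarith
  have h4 : (L : ℝ) * (1 - 2 * (1/4)) ≤ C * δ * L + c0 * L := by
    have : (2 : ℝ)^L * (L * (1 - 2 * (1/4))) ≤ 2 ^ L * (C * δ * L + c0 * L) := by
      rw [mul_add]; exact h3
    exact le_of_mul_le_mul_left this h2L
  have h5 : (C * δ + c0) * L < 1/2 * L := mul_lt_mul_of_pos_right hsmall hLr
  linarith

theorem exi_exp_five : Real.exp (-5) ≤ 1/64 := by
  have h1 : (2.7 : ℝ) < Real.exp 1 := by
    have := Real.exp_one_gt_d9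
    linarith
  have h2 : Real.exp 5 = (Real.exp 1)^5 := by
    rw [← Real.exp_nat_mul]; norm_num
  have h3 : (64 : ℝ) ≤ Real.exp 5 := by
    rw [h2]
    calc (64 : ℝ) ≤ 2.7^5 := by norm_num
      _ ≤ (Real.exp 1)^5 := pow_le_pow_left₀ (by norm_num) h1.le 5
  rw [Real.exp_neg, ← one_div]
  exact one_div_le_one_div_of_le (by norm_num) h3

theorem exi_count {I : Type} [Fintype I] [DecidableEq I] (S : Finset (Finset I))
    (hS : ∀ A ∈ S, (1 - (1/320 : ℝ)) * Fintype.card I ≤ A.card) :
    (S.card : ℝ) ≤ Real.exp (Fintype.card I / 32) := by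
  set L : ℕ := Fintype.card I with hL
  have h1 := Finset.sum_pow_mul_eq_add_pow (1 : ℝ) (Real.exp (-5)) (Finset.univ : Finset I)
  rw [Finset.card_univ, ← hL] at h1
  have h2 : (S.card : ℝ) * Real.exp (-(L / 64 : ℝ)) ≤ (1 + Real.exp (-5))^L := by
    rw [← h1, ← nsmul_eq_mul, ← Finset.sum_const]
    calc ∑ A ∈ S, Real.exp (-(L / 64 : ℝ)) ≤
          ∑ A ∈ S, (1 : ℝ)^A.card * (Real.exp (-5))^(L - A.card) := by
          apply Finset.sum_le_sum
          intro A hA
          rw [one_pow, one_mul, ← Real.exp_nat_mul, Real.exp_le_exp]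
          have h3 := hS A hA
          have h4 : A.card ≤ L := by
            rw [hL]; exact Finset.card_le_univ A
          rw [Nat.cast_sub h4]
          have h5 : (L : ℝ) - A.card ≤ L / 320 := by
            linarith
          nlinarith
      _ ≤ ∑ A ∈ (Finset.univ : Finset I).powerset,
            (1 : ℝ)^A.card * (Real.exp (-5))^(L - A.card) := by
          apply Finset.sum_le_sum_of_subset_of_nonneg
          · intro A _
            rw [Finset.mem_powerset]
            exact Finset.subset_univ A
          · intro A _ _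
            positivity
  have h3 : (1 + Real.exp (-5))^L ≤ Real.exp (L / 64) := by
    have h4 : 1 + Real.exp (-5) ≤ Real.exp (1/64) := by
      have h5 := Real.add_one_le_exp (1/64 : ℝ)
      have h6 := exi_exp_five
      linarith
    calc (1 + Real.exp (-5))^L ≤ (Real.exp (1/64))^L :=
          pow_le_pow_left₀ (by positivity) h4 L
      _ = Real.exp (L / 64) := by
          rw [← Real.exp_nat_mul]; congr 1; ring
  have h4 : (S.card : ℝ) = (S.card * Real.exp (-(L / 64 : ℝ))) * Real.exp (L / 64) := by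
    rw [mul_assoc, ← Real.exp_add]
    simp
  rw [h4]
  calc (S.card * Real.exp (-(L / 64 : ℝ))) * Real.exp (L / 64) ≤
        Real.exp (L / 64) * Real.exp (L / 64) :=
        mul_le_mul_of_nonneg_right (h2.trans h3) (Real.exp_pos _).le
    _ = Real.exp (L / 32) := by
        rw [← Real.exp_add]; congr 1; ring

open Classical in
theorem exi (h1 : S_WID) (h2 : S_CON) : S_EXI := by
  intro d hd
  obtain ⟨C, n0, hC, hWID⟩ := h1 d hd
  refine ⟨1/320, 1/(4*C), n0 + 64, by norm_num, by norm_num, by positivity, ?_⟩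
  intro n hn
  have hn64 : 64 ≤ n := by omega
  obtain ⟨W, hW1, hW2⟩ := hWID n (by omega)
  set L : ℕ := (layer d n).card with hL
  have hLn : n ≤ L := exi_card_ge d n (by omega) (by omega)
  have hLpos : 0 < L := by omega
  have hcard : Fintype.card (layer d n) = L := Fintype.card_coe _
  have hL64 : (64 : ℝ) ≤ L := by exact_mod_cast (hn64.trans hLn)
  set S : Finset (Finset (layer d n)) :=
    Finset.univ.filter (fun A => (1 - (1/320 : ℝ)) * L ≤ A.card) with hS
  have hsub : {ε : layer d n → Bool | Bad d n (1/320) (1/(4*C)) ε} ⊆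
      ((S.biUnion (fun A => exi_E d n (1/(4*C)) A) : Finset (layer d n → Bool)) :
        Set (layer d n → Bool)) := by
    intro ε hε
    obtain ⟨A, hA, h, hh, hhA⟩ := hε
    rw [Finset.mem_coe, Finset.mem_biUnion]
    refine ⟨A, ?_, ?_⟩
    · rw [hS, Finset.mem_filter]
      exact ⟨Finset.mem_univ _, hA⟩
    · unfold exi_E
      rw [Finset.mem_filter]
      exact ⟨Finset.mem_univ _, h, hh, hhA⟩
  have hle : (Set.ncard {ε : layer d n → Bool | Bad d n (1/320) (1/(4*C)) ε} : ℝ) ≤
      ∑ A ∈ S, ((exi_E d n (1/(4*C)) A).card : ℝ) := by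
    have h3 := Set.ncard_le_ncard hsub (Finset.finite_toSet _)
    rw [Set.ncard_coe_finset] at h3
    have h4 := h3.trans (Finset.card_biUnion_le (s := S) (t := fun A => exi_E d n (1/(4*C)) A))
    exact_mod_cast h4
  have hsmall : C * (1/(4*C)) + 1/320 < 1/2 := by
    have : C * (1/(4*C)) = 1/4 := by field_simp
    rw [this]; norm_num
  have hone : ∀ A ∈ S, ((exi_E d n (1/(4*C)) A).card : ℝ) ≤
      2^L * Real.exp (-((1/16 : ℝ) * L)) := by
    intro A hA
    rw [hS, Finset.mem_filter] at hA
    exact exi_one h2 (by omega) hLpos (by positivity) hsmall W hW1 hW2 A hA.2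
  have hcount : (S.card : ℝ) ≤ Real.exp ((L : ℝ) / 32) := by
    have := exi_count S (by
      intro A hA
      rw [hS, Finset.mem_filter] at hA
      rw [hcard]
      exact hA.2)
    rw [hcard] at this
    exact this
  calc (Set.ncard {ε : layer d n → Bool | Bad d n (1/320) (1/(4*C)) ε} : ℝ) ≤
        ∑ A ∈ S, ((exi_E d n (1/(4*C)) A).card : ℝ) := hle
    _ ≤ ∑ A ∈ S, (2^L * Real.exp (-((1/16 : ℝ) * L))) := Finset.sum_le_sum hone
    _ = S.card * (2^L * Real.exp (-((1/16 : ℝ) * L))) := by
        rw [Finset.sum_const, nsmul_eq_mul]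
    _ ≤ Real.exp ((L : ℝ) / 32) * (2^L * Real.exp (-((1/16 : ℝ) * L))) :=
        mul_le_mul_of_nonneg_right hcount (by positivity)
    _ = 2^L * Real.exp (-(L / 32 : ℝ)) := by
        rw [mul_left_comm, ← Real.exp_add]
        congr 2
        ring
    _ ≤ 2^L * (1/4) := by
        apply mul_le_mul_of_nonneg_left _ (by positivity)
        have h5 : Real.exp (-(L / 32 : ℝ)) ≤ Real.exp (-2) := by
          rw [Real.exp_le_exp]; linarith
        have h6 : Real.exp (-2 : ℝ) ≤ 1/4 := by
          have h7 : (2.7 : ℝ) < Real.exp 1 := by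
            have := Real.exp_one_gt_d9
            linarith
          have h8 : Real.exp 2 = (Real.exp 1)^2 := by
            rw [← Real.exp_nat_mul]; norm_num
          have h9 : (4 : ℝ) ≤ Real.exp 2 := by
            rw [h8]; nlinarith
          rw [Real.exp_neg, ← one_div]
          exact one_div_le_one_div_of_le (by norm_num) h9
        exact h5.trans h6
    _ = 2^L / 4 := by ring

end MtMt
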