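import Pool.Agent.H636R2.MT.SpecT
open MeasureTheory Real
open scoped ENNReal BigOperators

/-!
Task T_FB: coefficients of products of real characters (by helper379).
-/

set_option autoImplicit false

namespace MtMt
open HypVol MWidth SmSm

theorem fb_chi_add {d : ℕ} (k l : Fin d → ℤ) (x : Fin d → ℝ) :
    chi (k + l) x = chi k x * chi l x := by
  simp only [chi]
  rw [← Complex.exp_add, ← mul_add, ← Complex.ofReal_add, ← Finset.sum_add_distrib]
  have h : ∑ j, (((k + l) j : ℤ) : ℝ) * x j = ∑ j, ((k j : ℝ) * x j + (l j : ℝ) * x j) := by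
    refine Finset.sum_congr rfl fun j _ => ?_
    rw [Pi.add_apply]
    push_cast
    ring
  rw [h]

theorem fb_chi_zero {d : ℕ} (x : Fin d → ℝ) : chi 0 x = 1 := by simp [chi]

theorem fb_chi_sum {d : ℕ} {ι : Type} (s : Finset ι) (k : ι → Fin d → ℤ) (x : Fin d → ℝ) :
    chi (∑ i ∈ s, k i) x = ∏ i ∈ s, chi (k i) x := by
  classical
  induction s using Finset.induction_on with
  | empty => simp [fb_chi_zero]
  | insert a s ha ih => rw [Finset.sum_insert ha, Finset.prod_insert ha, fb_chi_add, ih]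

/-- `gf` as a linear map -/
noncomputable def fb_L {d m : ℕ} (l : GG d m) : (GG d m → ℂ) →ₗ[ℂ] ℂ where
  toFun h := gf h l
  map_add' h g := by
    unfold gf
    rw [← add_div, ← Finset.sum_add_distrib]
    congr 1
    refine Finset.sum_congr rfl fun y _ => ?_
    rw [Pi.add_apply, add_mul]
  map_smul' c h := by
    unfold gf
    rw [RingHom.id_apply, smul_eq_mul, ← mul_div_assoc, Finset.mul_sum]
    congr 1
    refine Finset.sum_congr rfl fun y _ => ?_
    rw [Pi.smul_apply, smul_eq_mul, mul_assoc]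

theorem fb_L_apply {d m : ℕ} (l : GG d m) (h : GG d m → ℂ) : fb_L l h = gf h l := rfl

/-- geometric sums of roots of unity -/
theorem fb_geom (N : ℕ) (hN : 0 < N) (a : ℤ) :
    (∑ y : Fin N, Complex.exp (Complex.I * ((2 * π * (a : ℝ) * ((y : ℕ) : ℝ) / N : ℝ) : ℂ))) = 0 ∨
    (∑ y : Fin N, Complex.exp (Complex.I * ((2 * π * (a : ℝ) * ((y : ℕ) : ℝ) / N : ℝ) : ℂ))) = N := by
  have hNR : (N : ℂ) ≠ 0 := by exact_mod_cast hN.ne'
  set ζ : ℂ := Complex.exp (Complex.I * ((2 * π * (a : ℝ) / N : ℝ) : ℂ)) with hζ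
  have h1 : ∀ y : Fin N, Complex.exp (Complex.I * ((2 * π * (a : ℝ) * ((y : ℕ) : ℝ) / N : ℝ) : ℂ)) =
      ζ ^ (y : ℕ) := by
    intro y
    rw [hζ, ← Complex.exp_nat_mul]
    congr 1
    push_cast
    ring
  have hζN : ζ ^ N = 1 := by
    rw [hζ, ← Complex.exp_nat_mul]
    have : (N : ℂ) * (Complex.I * ((2 * π * (a : ℝ) / N : ℝ) : ℂ)) = a * (2 * π * Complex.I) := by
      push_cast
      field_simp
    rw [this, Complex.exp_int_mul_two_pi_mul_I]
  simp only [h1]
  rw [Fin.sum_univ_eq_sum_range (fun y => ζ ^ y) N]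
  by_cases h2 : ζ = 1
  · right
    rw [h2]
    simp
  · left
    rw [geom_sum_eq h2, hζN, sub_self, zero_div]

theorem fb_gf_chi {d n : ℕ} (m : Fin d → ℤ) (l : GG d n) :
    gf (fun y => chi m (gpt y)) l = 0 ∨ gf (fun y => chi m (gpt y)) l = 1 := by
  have hN : 0 < 2 ^ (n + 2) := by positivity
  set N := 2 ^ (n + 2) with hNdef
  set a : Fin d → ℤ := fun j => m j - ((l j : ℕ) : ℤ) with ha
  have h1 : ∀ y : GG d n, chi m (gpt y) * chi (fun j => -((l j : ℕ) : ℤ)) (gpt y) =
      ∏ j, Complex.exp (Complex.I * ((2 * π * (a j : ℝ) * (((y j : Fin (2 ^ (n + 2))) : ℕ) : ℝ) / N : ℝ) : ℂ)) := by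
    intro y
    rw [← fb_chi_add]
    unfold chi
    rw [← Complex.exp_sum, ← Finset.mul_sum]
    congr 2
    rw [← Complex.ofReal_sum]
    congr 1
    refine Finset.sum_congr rfl fun j _ => ?_
    simp only [Pi.add_apply, gpt, ha, hNdef]
    push_cast
    ring
  have h2 : (∑ y : GG d n, chi m (gpt y) * chi (fun j => -((l j : ℕ) : ℤ)) (gpt y)) =
      ∏ j, ∑ y : Fin (2 ^ (n + 2)),
        Complex.exp (Complex.I * ((2 * π * (a j : ℝ) * ((y : ℕ) : ℝ) / N : ℝ) : ℂ)) := by
    rw [Finset.prod_univ_sum, Fintype.piFinset_univ]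
    exact Finset.sum_congr rfl fun y _ => h1 y
  unfold gf
  simp only
  rw [h2]
  by_cases h3 : ∀ j, ∑ y : Fin (2 ^ (n + 2)),
        Complex.exp (Complex.I * ((2 * π * (a j : ℝ) * ((y : ℕ) : ℝ) / N : ℝ) : ℂ)) = N
  · right
    rw [Finset.prod_congr rfl fun j _ => h3 j, Finset.prod_const, Finset.card_univ,
      Fintype.card_fin, hNdef]
    push_cast
    exact div_self (pow_ne_zero _ (pow_ne_zero _ two_ne_zero))
  · left
    rw [not_forall] at h3
    obtain ⟨j, hj⟩ := h3
    have h4 := (fb_geom N hN (a j)).resolve_right hj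
    rw [Finset.prod_eq_zero (Finset.mem_univ j) h4, zero_div]

theorem fb_gf_re {d n : ℕ} (m : Fin d → ℤ) (l : GG d n) :
    0 ≤ (gf (fun y => chi m (gpt y)) l).re ∧ (gf (fun y => chi m (gpt y)) l).re ≤ 1 ∧
    ‖gf (fun y => chi m (gpt y)) l‖ = (gf (fun y => chi m (gpt y)) l).re := by
  rcases fb_gf_chi m l with h | h <;> rw [h] <;> simp

/-- nonnegative combinations of characters -/
inductive FbP {d n : ℕ} : (GG d n → ℂ) → Prop
  | mono (c : ℝ) (hc : 0 ≤ c) (m : Fin d → ℤ) : FbP (fun y => (c : ℂ) * chi m (gpt y))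
  | add {h g : GG d n → ℂ} : FbP h → FbP g → FbP (h + g)

theorem fb_P_re {d n : ℕ} {h : GG d n → ℂ} (hh : FbP h) (l : GG d n) : 0 ≤ (gf h l).re := by
  induction hh with
  | mono c hc m =>
    have h1 : gf (fun y => (c : ℂ) * chi m (gpt y)) l = (c : ℂ) * gf (fun y => chi m (gpt y)) l :=
      (fb_L l).map_smul (c : ℂ) (fun y => chi m (gpt y))
    rw [h1, Complex.re_ofReal_mul]
    exact mul_nonneg hc (fb_gf_re m l).1
  | add h1 h2 ih1 ih2 =>
    have h3 := (fb_L l).map_add
    simp only [fb_L_apply] at h3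
    rw [h3, Complex.add_re]
    exact add_nonneg ih1 ih2

theorem fb_P_zero {d n : ℕ} : FbP (0 : GG d n → ℂ) := by
  have h := FbP.mono (d := d) (n := n) 0 le_rfl 0
  have h2 : (fun y : GG d n => ((0 : ℝ) : ℂ) * chi 0 (gpt y)) = 0 := by
    funext y
    simp
  rwa [h2] at h

theorem fb_P_one {d n : ℕ} : FbP (1 : GG d n → ℂ) := by
  have h := FbP.mono (d := d) (n := n) 1 zero_le_one 0
  have h2 : (fun y : GG d n => ((1 : ℝ) : ℂ) * chi 0 (gpt y)) = 1 := by
    funext y
    simp [fb_chi_zero]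
  rwa [h2] at h

theorem fb_P_mul {d n : ℕ} {h g : GG d n → ℂ} (hh : FbP h) (hg : FbP g) : FbP (h * g) := by
  induction hh with
  | mono c hc m =>
    induction hg with
    | mono c' hc' m' =>
      have h1 := FbP.mono (d := d) (n := n) (c * c') (mul_nonneg hc hc') (m + m')
      have h2 : (fun y : GG d n => ((c * c' : ℝ) : ℂ) * chi (m + m') (gpt y)) =
          (fun y => (c : ℂ) * chi m (gpt y)) * fun y => (c' : ℂ) * chi m' (gpt y) := by
        funext y
        rw [Pi.mul_apply, fb_chi_add]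
        push_cast
        ring
      rwa [h2] at h1
    | add h1 h2 ih1 ih2 =>
      rw [mul_add]
      exact FbP.add ih1 ih2
  | add h1 h2 ih1 ih2 =>
    rw [add_mul]
    exact FbP.add ih1 ih2

theorem fb_P_smul {d n : ℕ} {c : ℝ} (hc : 0 ≤ c) {h : GG d n → ℂ} (hh : FbP h) :
    FbP (fun y => (c : ℂ) * h y) := by
  have h1 := fb_P_mul (FbP.mono (d := d) (n := n) c hc 0) hh
  have h2 : (fun y : GG d n => (c : ℂ) * chi 0 (gpt y)) * h = fun y => (c : ℂ) * h y := by
    funext y
    rw [Pi.mul_apply, fb_chi_zero, mul_one]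
  rwa [h2] at h1

theorem fb_P_pow {d n : ℕ} {h : GG d n → ℂ} (hh : FbP h) (j : ℕ) : FbP (fun y => h y ^ j) := by
  induction j with
  | zero =>
    simp only [pow_zero]
    exact fb_P_one
  | succ j ih =>
    have h1 := fb_P_mul ih hh
    have h2 : (fun y => h y ^ j) * h = fun y => h y ^ (j + 1) := by
      funext y
      rw [Pi.mul_apply, pow_succ]
    rwa [h2] at h1

theorem fb_P_sum {d n : ℕ} {ι : Type} (s : Finset ι) (f : ι → GG d n → ℂ)
    (hf : ∀ i ∈ s, FbP (f i)) : FbP (fun y => ∑ i ∈ s, f i y) := by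
  classical
  induction s using Finset.induction_on with
  | empty =>
    simp only [Finset.sum_empty]
    exact fb_P_zero
  | insert a s ha ih =>
    have h1 := FbP.add (hf a (Finset.mem_insert_self a s))
      (ih fun i hi => hf i (Finset.mem_insert_of_mem hi))
    have h2 : (f a + fun y => ∑ i ∈ s, f i y) = fun y => ∑ i ∈ insert a s, f i y := by
      funext y
      rw [Pi.add_apply, Finset.sum_insert ha]
    rwa [h2] at h1

/-- truncated exponential -/
noncomputable def fbE (M : ℕ) (a : ℂ) : ℂ := ∑ j ∈ Finset.range (M + 2), a ^ j / j.factorial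

theorem fbE_eq (M : ℕ) (a : ℂ) :
    fbE M a = 1 + a + ∑ j ∈ Finset.range M, (((((j + 2).factorial : ℝ))⁻¹ : ℝ) : ℂ) * a ^ (j + 2) := by
  unfold fbE
  rw [Finset.sum_range_succ', Finset.sum_range_succ']
  simp only [zero_add, pow_zero, Nat.factorial_zero, Nat.cast_one, div_one, pow_one,
    Nat.factorial_one]
  have : ∀ j : ℕ, a ^ (j + 1 + 1) / ((j + 1 + 1).factorial : ℂ) =
      ((((j + 2).factorial : ℝ)⁻¹ : ℝ) : ℂ) * a ^ (j + 2) := by
    intro j
    push_cast
    rw [div_eq_inv_mul]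
  rw [Finset.sum_congr rfl fun j _ => this j]
  ring

theorem fbE_lim (a : ℂ) : Filter.Tendsto (fun M => fbE M a) Filter.atTop (nhds (Complex.exp a)) := by
  have h1 := (NormedSpace.expSeries_div_hasSum_exp a).tendsto_sum_nat
  rw [← Complex.exp_eq_exp_ℂ] at h1
  exact h1.comp (Filter.tendsto_add_atTop_nat 2)

/-- products of truncated exponentials dominate -/
theorem fb_prod {d n : ℕ} {ι : Type} (s : Finset ι) (a : ι → GG d n → ℂ)
    (ha : ∀ i ∈ s, FbP (a i)) (M : ℕ) :
    ∃ r : GG d n → ℂ, FbP r ∧ FbP (fun y => ∏ i ∈ s, (1 + a i y)) ∧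
      ∀ y, ∏ i ∈ s, fbE M (a i y) = ∏ i ∈ s, (1 + a i y) + r y := by
  classical
  induction s using Finset.induction_on with
  | empty =>
    refine ⟨0, fb_P_zero, ?_, fun y => by simp⟩
    simp only [Finset.prod_empty]
    exact fb_P_one
  | insert i s hi ih =>
    obtain ⟨r, hr, hp, hy⟩ := ih fun j hj => ha j (Finset.mem_insert_of_mem hj)
    have hai := ha i (Finset.mem_insert_self i s)
    set q : GG d n → ℂ := fun y => ∑ j ∈ Finset.range M,
      ((((j + 2).factorial : ℝ)⁻¹ : ℝ) : ℂ) * a i y ^ (j + 2) with hq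
    have hqP : FbP q := fb_P_sum _ _ fun j _ => fb_P_smul (by positivity) (fb_P_pow hai _)
    have h1a : FbP (1 + a i) := FbP.add fb_P_one hai
    refine ⟨(1 + a i) * r + q * (fun y => ∏ j ∈ s, (1 + a j y)) + q * r, ?_, ?_, ?_⟩
    · exact FbP.add (FbP.add (fb_P_mul h1a hr) (fb_P_mul hqP hp)) (fb_P_mul hqP hr)
    · have h2 := fb_P_mul h1a hp
      have h3 : (1 + a i) * (fun y => ∏ j ∈ s, (1 + a j y)) =
          fun y => ∏ j ∈ insert i s, (1 + a j y) := by
        funext y
        rw [Pi.mul_apply, Finset.prod_insert hi]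
        rfl
      rwa [h3] at h2
    · intro y
      rw [Finset.prod_insert hi, Finset.prod_insert hi, hy y, fbE_eq]
      simp only [Pi.add_apply, Pi.mul_apply, Pi.one_apply, hq]
      ring

theorem fb_split {ι : Type} [Fintype ι] [DecidableEq ι] (a : ι → ℂ) :
    ∏ i, (1 + a i) = 1 + ∑ i, a i +
      ∑ B ∈ (Finset.univ : Finset (Finset ι)).filter (fun B => 2 ≤ B.card), ∏ i ∈ B, a i := by
  rw [Finset.prod_one_add, Finset.powerset_univ,
    ← Finset.sum_filter_add_sum_filter_not Finset.univ (fun B : Finset ι => 2 ≤ B.card), add_comm]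
  congr 1
  have h1 : (Finset.univ : Finset (Finset ι)).filter (fun B => ¬ 2 ≤ B.card) =
      Finset.powersetCard 0 Finset.univ ∪ Finset.powersetCard 1 Finset.univ := by
    ext B
    simp only [Finset.mem_filter, Finset.mem_univ, true_and, Finset.mem_union,
      Finset.mem_powersetCard, Finset.subset_univ]
    omega
  rw [h1, Finset.sum_union, Finset.powersetCard_zero, Finset.sum_singleton, Finset.prod_empty,
    Finset.powersetCard_one, Finset.sum_map]
  · simp
  · rw [Finset.disjoint_left]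
    intro B hB hB'
    rw [Finset.mem_powersetCard] at hB hB'
    omega

open Classical in
/-- the unimodular factor -/
noncomputable def fbu {d : ℕ} (k : Fin d → ℤ) : ℂ := if posk k then 1 else -Complex.I

theorem fbu_norm {d : ℕ} (k : Fin d → ℤ) : ‖fbu k‖ = 1 := by
  unfold fbu
  split_ifs <;> simp

theorem fb_ph {d : ℕ} (k : Fin d → ℤ) (x : Fin d → ℝ) :
    ((ph k x : ℝ) : ℂ) = ((Real.sqrt 2 / 2 : ℝ) : ℂ) *
      (fbu k * chi k x + (starRingEnd ℂ) (fbu k) * chi (-k) x) := by
  set t : ℝ := ∑ j, (k j : ℝ) * x j with ht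
  have h1 : chi k x = Complex.cos t + Complex.sin t * Complex.I := by
    unfold chi
    rw [← ht, mul_comm, Complex.exp_mul_I]
  have h2 : chi (-k) x = Complex.cos t - Complex.sin t * Complex.I := by
    unfold chi
    have : ∑ j, (((-k) j : ℤ) : ℝ) * x j = -t := by
      rw [ht, ← Finset.sum_neg_distrib]
      refine Finset.sum_congr rfl fun j _ => ?_
      rw [Pi.neg_apply]
      push_cast
      ring
    rw [this, mul_comm, Complex.exp_mul_I, Complex.ofReal_neg, Complex.cos_neg, Complex.sin_neg]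
    ring
  rw [h1, h2]
  unfold ph fbu
  rw [← ht]
  split_ifs
  · push_cast
    rw [map_one]
    ring
  · push_cast
    rw [map_neg, Complex.conj_I]
    ring_nf
    rw [Complex.I_sq]
    ring

/-- the size of the coefficients of the products -/
theorem fb_bound {d n : ℕ} (B : Finset (layer d n)) (l : GG d n) :
    ‖gf (fun y => ((∏ k ∈ B, ph k.1 (gpt y) : ℝ) : ℂ)) l‖ ^ 2 ≤
      (gf (fun y => ∏ k ∈ B, (chi k.1 (gpt y) + chi (-k.1) (gpt y))) l).re := by
  classical
  set σ : Finset (layer d n) → Fin d → ℤ := fun t =>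
    (∑ k ∈ t, k.1) + ∑ k ∈ B \ t, -k.1 with hσ
  set c : Finset (layer d n) → ℂ := fun t =>
    (∏ k ∈ t, fbu k.1) * ∏ k ∈ B \ t, (starRingEnd ℂ) (fbu k.1) with hc
  have hcn : ∀ t, ‖c t‖ = 1 := by
    intro t
    rw [hc]
    simp only
    rw [norm_mul, norm_prod, norm_prod, Finset.prod_eq_one fun k _ => fbu_norm k.1,
      Finset.prod_eq_one fun k _ => ?_, one_mul]
    rw [RCLike.norm_conj]
    exact fbu_norm k.1
  have e1 : (fun y : GG d n => ∏ k ∈ B, (chi k.1 (gpt y) + chi (-k.1) (gpt y))) =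
      ∑ t ∈ B.powerset, fun y => chi (σ t) (gpt y) := by
    funext y
    rw [Finset.prod_add, Finset.sum_apply]
    refine Finset.sum_congr rfl fun t _ => ?_
    rw [hσ]
    simp only
    rw [fb_chi_add, fb_chi_sum, fb_chi_sum]
  have e2 : (fun y : GG d n => ((∏ k ∈ B, ph k.1 (gpt y) : ℝ) : ℂ)) =
      (((Real.sqrt 2 / 2) ^ B.card : ℝ) : ℂ) •
        ∑ t ∈ B.powerset, (c t) • fun y => chi (σ t) (gpt y) := by
    funext y
    rw [Complex.ofReal_prod, Finset.prod_congr rfl fun k _ => fb_ph k.1 (gpt y),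
      Finset.prod_mul_distrib, Finset.prod_const, Finset.prod_add, Pi.smul_apply,
      Finset.sum_apply, smul_eq_mul]
    push_cast
    congr 1
    refine Finset.sum_congr rfl fun t _ => ?_
    rw [Pi.smul_apply, smul_eq_mul, hσ, hc]
    simp only
    rw [fb_chi_add, fb_chi_sum, fb_chi_sum, Finset.prod_mul_distrib, Finset.prod_mul_distrib]
    ring
  set g : Finset (layer d n) → ℂ := fun t => gf (fun y => chi (σ t) (gpt y)) l with hg
  have e3 : gf (fun y => ∏ k ∈ B, (chi k.1 (gpt y) + chi (-k.1) (gpt y))) l =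
      ∑ t ∈ B.powerset, g t := by
    rw [e1]
    exact map_sum (fb_L l) _ _
  have e4 : gf (fun y => ((∏ k ∈ B, ph k.1 (gpt y) : ℝ) : ℂ)) l =
      (((Real.sqrt 2 / 2) ^ B.card : ℝ) : ℂ) * ∑ t ∈ B.powerset, c t * g t := by
    rw [e2]
    have := (fb_L l).map_smul (((Real.sqrt 2 / 2) ^ B.card : ℝ) : ℂ)
      (∑ t ∈ B.powerset, (c t) • fun y => chi (σ t) (gpt y))
    rw [fb_L_apply, map_sum] at this
    rw [this, smul_eq_mul]
    congr 1
    refine Finset.sum_congr rfl fun t _ => ?_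
    rw [(fb_L l).map_smul, smul_eq_mul]
    rfl
  have e5 : (gf (fun y => ∏ k ∈ B, (chi k.1 (gpt y) + chi (-k.1) (gpt y))) l).re =
      ∑ t ∈ B.powerset, (g t).re := by
    rw [e3, Complex.re_sum]
  rw [e5, e4, norm_mul, mul_pow]
  set R : ℝ := ∑ t ∈ B.powerset, (g t).re with hR
  have hR0 : 0 ≤ R := Finset.sum_nonneg fun t _ => (fb_gf_re (σ t) l).1
  have hR1 : R ≤ 2 ^ B.card := by
    calc R ≤ ∑ _t ∈ B.powerset, (1 : ℝ) := Finset.sum_le_sum fun t _ => (fb_gf_re (σ t) l).2.1
      _ = 2 ^ B.card := by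
        rw [Finset.sum_const, Finset.card_powerset, nsmul_eq_mul, mul_one]
        push_cast
        rfl
  have hsum : ‖∑ t ∈ B.powerset, c t * g t‖ ≤ R := by
    refine (norm_sum_le _ _).trans (Finset.sum_le_sum fun t _ => ?_)
    rw [norm_mul, hcn, one_mul]
    exact (fb_gf_re (σ t) l).2.2.le
  have hs2 : ‖(((Real.sqrt 2 / 2) ^ B.card : ℝ) : ℂ)‖ ^ 2 = (1 / 2) ^ B.card := by
    rw [Complex.norm_real, Real.norm_eq_abs, sq_abs, ← pow_mul, mul_comm, pow_mul, div_pow,
      Real.sq_sqrt (by norm_num)]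
    norm_num
  rw [hs2]
  calc (1 / 2 : ℝ) ^ B.card * ‖∑ t ∈ B.powerset, c t * g t‖ ^ 2 ≤ (1 / 2) ^ B.card * R ^ 2 := by
        apply mul_le_mul_of_nonneg_left _ (by positivity)
        exact pow_le_pow_left₀ (norm_nonneg _) hsum 2
    _ = (1 / 2) ^ B.card * (R * R) := by rw [sq]
    _ ≤ (1 / 2) ^ B.card * (2 ^ B.card * R) := by
        apply mul_le_mul_of_nonneg_left _ (by positivity)
        exact mul_le_mul_of_nonneg_right hR1 hR0
    _ = R := by
        rw [← mul_assoc, ← mul_pow]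
        norm_num

theorem fb_Fh {d : ℕ} (k : Fin d → ℤ) : Fh 0 (0 : Fin d → ℝ) k = 1 := by
  unfold Fh
  refine Finset.prod_eq_one fun j _ => ?_
  split_ifs with h
  · rfl
  · simp

theorem fb : S_FB := by
  classical
  intro d n _ lam hlam l
  have hc0 : (0 : ℝ) ≤ 3 * lam ^ 2 := by positivity
  set a : layer d n → GG d n → ℂ := fun k y =>
    ((3 * lam ^ 2 : ℝ) : ℂ) * (chi k.1 (gpt y) + chi (-k.1) (gpt y)) with ha
  have haP : ∀ k ∈ (Finset.univ : Finset (layer d n)), FbP (a k) := by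
    intro k _
    have h1 := FbP.add (FbP.mono (d := d) (n := n) (3 * lam ^ 2) hc0 k.1)
      (FbP.mono (3 * lam ^ 2) hc0 (-k.1))
    have h2 : ((fun y : GG d n => ((3 * lam ^ 2 : ℝ) : ℂ) * chi k.1 (gpt y)) +
        fun y => ((3 * lam ^ 2 : ℝ) : ℂ) * chi (-k.1) (gpt y)) = a k := by
      funext y
      simp only [Pi.add_apply, ha]
      ring
    rwa [h2] at h1
  -- the exponential
  have hare : ∀ k y, a k y = ((6 * lam ^ 2 * (chi k.1 (gpt y)).re : ℝ) : ℂ) := by
    intro k y
    have h1 : chi (-k.1) (gpt y) = (starRingEnd ℂ) (chi k.1 (gpt y)) := by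
      unfold chi
      rw [← Complex.exp_conj, map_mul, Complex.conj_I, Complex.conj_ofReal, neg_mul, ← mul_neg,
        ← Complex.ofReal_neg, ← Finset.sum_neg_distrib]
      congr 3
      refine Finset.sum_congr rfl fun j _ => ?_
      rw [Pi.neg_apply]
      push_cast
      ring
    simp only [ha]
    rw [h1, Complex.add_conj]
    push_cast
    ring
  have hsum : ∀ y : GG d n, ∑ k, a k y = ((6 * lam ^ 2 * ker n 0 0 (gpt y) : ℝ) : ℂ) := by
    intro y
    have h1 : ker n 0 0 (gpt y) = ∑ k : layer d n, (chi k.1 (gpt y)).re := by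
      unfold ker
      rw [← Finset.sum_coe_sort]
      refine Finset.sum_congr rfl fun k _ => ?_
      rw [fb_Fh, one_mul]
    rw [h1, Finset.mul_sum, Complex.ofReal_sum]
    exact Finset.sum_congr rfl fun k _ => hare k y
  -- the function of the left side
  set F : GG d n → ℂ := fun y =>
    ∑ B ∈ (Finset.univ : Finset (Finset (layer d n))).filter (fun B => 2 ≤ B.card),
      ∏ k ∈ B, a k y with hF
  have hLHS : ∑ B ∈ (Finset.univ : Finset (Finset (layer d n))).filter (fun B => 2 ≤ B.card),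
      (3 * lam^2)^(B.card) * ‖gf (fun y => ((∏ k ∈ B, ph k.1 (gpt y) : ℝ) : ℂ)) l‖^2 ≤
      (gf F l).re := by
    have h1 : F = ∑ B ∈ (Finset.univ : Finset (Finset (layer d n))).filter (fun B => 2 ≤ B.card),
        (((3 * lam ^ 2) ^ B.card : ℝ) : ℂ) •
          fun y => ∏ k ∈ B, (chi k.1 (gpt y) + chi (-k.1) (gpt y)) := by
      funext y
      rw [Finset.sum_apply]
      simp only [hF]
      refine Finset.sum_congr rfl fun B _ => ?_
      simp only [ha]
      rw [Finset.prod_mul_distrib, Finset.prod_const, Pi.smul_apply, smul_eq_mul]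
      push_cast
      rfl
    have h2 : gf F l = ∑ B ∈ (Finset.univ : Finset (Finset (layer d n))).filter
        (fun B => 2 ≤ B.card), (((3 * lam ^ 2) ^ B.card : ℝ) : ℂ) *
          gf (fun y => ∏ k ∈ B, (chi k.1 (gpt y) + chi (-k.1) (gpt y))) l := by
      rw [h1, ← fb_L_apply, map_sum]
      refine Finset.sum_congr rfl fun B _ => ?_
      rw [(fb_L l).map_smul, smul_eq_mul]
      rfl
    rw [h2, Complex.re_sum]
    refine Finset.sum_le_sum fun B _ => ?_
    rw [Complex.re_ofReal_mul]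
    exact mul_le_mul_of_nonneg_left (fb_bound B l) (by positivity)
  refine hLHS.trans ?_
  -- approximation
  set H : ℕ → GG d n → ℂ := fun M y => ∏ k, fbE M (a k y) - 1 - ∑ k, a k y with hH
  have hle : ∀ M, (gf F l).re ≤ (gf (H M) l).re := by
    intro M
    obtain ⟨r, hr, -, hy⟩ := fb_prod Finset.univ a haP M
    have h1 : H M = F + r := by
      funext y
      rw [Pi.add_apply]
      simp only [hH, hF]
      rw [hy y, fb_split (fun k => a k y)]
      ring
    have h2 : gf (H M) l = gf F l + gf r l := by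
      rw [h1, ← fb_L_apply, map_add]
      rfl
    rw [h2, Complex.add_re]
    linarith [fb_P_re hr l]
  have hlimy : ∀ y, Filter.Tendsto (fun M => H M y) Filter.atTop
      (nhds (((Gk d n (6 * lam ^ 2) y : ℝ) : ℂ))) := by
    intro y
    have h1 : ((Gk d n (6 * lam ^ 2) y : ℝ) : ℂ) = ∏ k, Complex.exp (a k y) - 1 - ∑ k, a k y := by
      rw [← Complex.exp_sum, hsum y]
      unfold Gk
      push_cast
      ring
    rw [h1]
    exact ((tendsto_finsetProd _ fun k _ => fbE_lim (a k y)).sub_const 1).sub_const _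
  have hlim : Filter.Tendsto (fun M => (gf (H M) l).re) Filter.atTop
      (nhds (gf (fun y => ((Gk d n (6 * lam^2) y : ℝ) : ℂ)) l).re) := by
    have h1 : Filter.Tendsto (fun M => gf (H M) l) Filter.atTop
        (nhds (gf (fun y => ((Gk d n (6 * lam^2) y : ℝ) : ℂ)) l)) := by
      unfold gf
      refine Filter.Tendsto.div_const ?_ _
      exact tendsto_finsetSum _ fun y _ => (hlimy y).mul_const _
    exact (Complex.continuous_re.tendsto _).comp h1
  exact ge_of_tendsto' hlim hle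

end MtMt
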