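import Pool.Agent.H636R2.MT.SpecT
import Pool.Agent.EntX.L_conv_L
import Pool.Agent.EntX.L_fc_unique
open MeasureTheory Real
open scoped ENNReal BigOperators

/-!
# T_FINT: lower bound for the best `m`-term approximation of the class `W^r_p`
-/

namespace MtMt
open HypVol MWidth SmSm

theorem fint_TP (d : ℕ) : TP d = (ENNReal.ofReal (2 * π)⁻¹) ^ d • BX d := by
  unfold TP BX
  rw [volume_pi, Measure.restrict_pi_pi]
  have : IsFiniteMeasure (volume.restrict (Set.Ico (0:ℝ) (2 * π))) := ⟨by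
    rw [Measure.restrict_apply_univ, Real.volume_Ico]
    exact ENNReal.ofReal_lt_top⟩
  have h2 : IsFiniteMeasure (ENNReal.ofReal (2 * π)⁻¹ • volume.restrict (Set.Ico (0:ℝ) (2 * π))) :=
    Measure.smul_finite _ ENNReal.ofReal_ne_top
  refine Measure.pi_eq fun s hs => ?_
  rw [Measure.smul_apply, Measure.pi_pi, smul_eq_mul]
  simp only [Measure.smul_apply, smul_eq_mul]
  rw [Finset.prod_mul_distrib, Finset.prod_const, Finset.card_univ, Fintype.card_fin]

theorem fint_BX (d : ℕ) : BX d = (ENNReal.ofReal (2 * π)) ^ d • TP d := by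
  rw [fint_TP, smul_smul, ← mul_pow, ← ENNReal.ofReal_mul (by positivity),
    mul_inv_cancel₀ (by positivity), ENNReal.ofReal_one, one_pow, one_smul]

theorem fint_TP_mem (d : ℕ) : ∀ᵐ x ∂(TP d), x ∈ Set.pi Set.univ fun _ : Fin d => Set.Icc 0 (2 * π) := by
  rw [fint_TP]
  have h1 : ∀ᵐ x ∂(BX d), x ∈ Set.pi Set.univ fun _ : Fin d => Set.Ico 0 (2 * π) := by
    unfold BX
    exact ae_restrict_mem (MeasurableSet.univ_pi fun _ => measurableSet_Ico)
  have h2 : ∀ᵐ x ∂((ENNReal.ofReal (2 * π)⁻¹) ^ d • BX d),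
      x ∈ Set.pi Set.univ fun _ : Fin d => Set.Ico 0 (2 * π) :=
    Measure.ae_smul_measure h1 _
  filter_upwards [h2] with x hx i hi
  exact Set.Ico_subset_Icc_self (hx i hi)

theorem fint_cont_memLp {d : ℕ} (φ : (Fin d → ℝ) → ℂ) (hφ : Continuous φ) (q : ℝ≥0∞) :
    MemLp φ q (TP d) := by
  have := TP_prob d
  have hK : IsCompact (Set.pi Set.univ fun _ : Fin d => Set.Icc (0:ℝ) (2 * π)) :=
    isCompact_univ_pi fun _ => isCompact_Icc
  obtain ⟨M, hM⟩ := hK.exists_bound_of_continuousOn hφ.continuousOn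
  exact MemLp.of_bound hφ.aestronglyMeasurable M
    ((fint_TP_mem d).mono fun x hx => hM x hx)

theorem fint_toC (z : ℂ) : toC z = z := by
  unfold toC
  exact Complex.re_add_im z

theorem fint_fc_smul {d : ℕ} (a : ℂ) (g : (Fin d → ℝ) → ℂ) (k : Fin d → ℤ) :
    fc (fun x => a * g x) k = a * fc g k := by
  unfold fc
  rw [← integral_const_mul]
  refine integral_congr_ae (Filter.Eventually.of_forall fun x => ?_)
  simp only
  ring

theorem fint_fc_sub {d : ℕ} (f g : (Fin d → ℝ) → ℂ) (hf : Integrable f (TP d))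
    (hg : Integrable g (TP d)) (k : Fin d → ℤ) :
    fc (fun x => f x - g x) k = fc f k - fc g k := by
  have hb : ∀ h : (Fin d → ℝ) → ℂ, Integrable h (TP d) → Integrable (fun x => h x *
      Complex.exp (-(Complex.I * ((∑ j, (k j : ℝ) * x j : ℝ) : ℂ)))) (TP d) := by
    intro h hh
    refine Integrable.mono hh (hh.aestronglyMeasurable.mul ?_) ?_
    · exact Continuous.aestronglyMeasurable (by fun_prop)
    · refine Filter.Eventually.of_forall fun x => ?_
      rw [norm_mul, Complex.norm_exp]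
      simp
  unfold fc
  rw [← integral_sub (hb f hf) (hb g hg)]
  refine integral_congr_ae (Filter.Eventually.of_forall fun x => ?_)
  simp only
  ring

theorem fint_ph_cont {d : ℕ} (k : Fin d → ℤ) : Continuous (ph k) := by
  unfold ph
  by_cases h : posk k
  · simp only [if_pos h]
    fun_prop
  · simp only [if_neg h]
    fun_prop

theorem fint_ge_cont {d n : ℕ} (ε : layer d n → Bool) : Continuous (ge ε) := by
  unfold ge
  exact continuous_finset_sum _ fun k _ => continuous_const.mul (fint_ph_cont k.1)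

theorem fint_exists {α : Type*} [Fintype α] [DecidableEq α] (good : Finset α) (B : Set α)
    (N : ℝ) (hN : 0 < N) (h1 : (3/4 : ℝ) * N ≤ good.card) (h2 : (Set.ncard B : ℝ) ≤ N / 4) :
    ∃ a ∈ good, a ∉ B := by
  by_contra hcon
  push_neg at hcon
  have h3 : (good : Set α) ⊆ B := fun a ha => hcon a ha
  have h4 : Set.ncard (good : Set α) ≤ Set.ncard B := Set.ncard_le_ncard h3 (Set.toFinite B)
  rw [Set.ncard_coe_finset] at h4
  have h5 : (good.card : ℝ) ≤ Set.ncard B := by exact_mod_cast h4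
  linarith

theorem fint_norm {d : ℕ} (j : ℕ) (hj : 1 ≤ j) (φ : (Fin d → ℝ) → ℝ) (hφ : Continuous φ) (C : ℝ)
    (hC : 0 < C) (h : ∫ x, (φ x)^(2*j) ∂(TP d) ≤ C^(2*j)) (p : ℝ) (hp : 1 ≤ p) (hpj : p ≤ 2 * j) :
    eLpNorm (fun x => ((φ x / C : ℝ) : ℂ)) (ENNReal.ofReal p) (TP d) ≤ 1 := by
  have := TP_prob d
  have hc : Continuous (fun x => ((φ x / C : ℝ) : ℂ)) := by fun_prop
  have h1 : eLpNorm (fun x => ((φ x / C : ℝ) : ℂ)) (ENNReal.ofReal p) (TP d) ≤
      eLpNorm (fun x => ((φ x / C : ℝ) : ℂ)) (((2 * j : ℕ)) : ℝ≥0∞) (TP d) := by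
    refine eLpNorm_le_eLpNorm_of_exponent_le ?_ hc.aestronglyMeasurable
    rw [← ENNReal.ofReal_natCast]
    refine ENNReal.ofReal_le_ofReal ?_
    push_cast
    exact hpj
  refine h1.trans ?_
  have h2j : (2 * j : ℕ) ≠ 0 := by omega
  have hm : MemLp (fun x => ((φ x / C : ℝ) : ℂ)) (((2 * j : ℕ)) : ℝ≥0∞) (TP d) :=
    fint_cont_memLp _ hc _
  rw [hm.eLpNorm_eq_integral_rpow_norm (by exact_mod_cast h2j) (ENNReal.natCast_ne_top _)]
  rw [← ENNReal.ofReal_one]
  refine ENNReal.ofReal_le_ofReal ?_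
  refine Real.rpow_le_one (integral_nonneg fun x => by positivity) ?_ (by positivity)
  have h3 : ∀ x, ‖((φ x / C : ℝ) : ℂ)‖ ^ (((2 * j : ℕ) : ℝ≥0∞)).toReal = (φ x)^(2*j) * (C^(2*j))⁻¹ := by
    intro x
    rw [ENNReal.toReal_natCast, Real.rpow_natCast, Complex.norm_real, Real.norm_eq_abs,
      Even.pow_abs (even_two_mul j), div_pow, div_eq_mul_inv]
  simp only [h3]
  rw [integral_mul_const]
  have hCp : 0 < C^(2*j) := by positivity
  rw [← div_eq_mul_inv, div_le_one hCp]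
  exact h

/-- FINT -/
theorem fint (h1 : S_EXI) (h2 : S_TOR) (h3 : S_CLS) (h4 : S_NUMT) : S_FINT := by
  intro d hd p r hp hr
  have := TP_prob d
  obtain ⟨j, hj1, hpj⟩ : ∃ j : ℕ, 1 ≤ j ∧ p ≤ 2 * j := by
    obtain ⟨j, hj⟩ := exists_nat_ge p
    refine ⟨j, ?_, ?_⟩
    · have : (1:ℝ) ≤ j := hp.trans hj
      exact_mod_cast this
    · have : (0:ℝ) ≤ j := Nat.cast_nonneg j
      linarith
  obtain ⟨c0, δ, n0, hc0, hc01, hδ, hexi⟩ := h1 d hd
  obtain ⟨C, hC, hcls⟩ := h3 d (by omega) r hr j hj1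
  obtain ⟨c, hc, hnum⟩ := h4 d (by omega) r c0 n0 hr hc0
  refine ⟨(2 * π)^d / C * δ * c, by positivity, fun m hm => ?_⟩
  obtain ⟨n, hn0, hn1, hmn, hcn⟩ := hnum m hm
  obtain ⟨good, hgood, hgood2⟩ := hcls n hn1
  have hbad := hexi n hn0
  classical
  obtain ⟨ε, hεg, hεb⟩ := fint_exists good {ε : layer d n → Bool | Bad d n c0 δ ε}
    ((2:ℝ)^(layer d n).card) (by positivity) hgood hbad
  have hεb' : ¬ Bad d n c0 δ ε := hεb
  obtain ⟨φ, hφc, hφi, hφf⟩ := hgood2 ε hεg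
  have hN : 0 < ((layer d n).card : ℝ) := by
    have hm' : (2:ℝ) ≤ m := by exact_mod_cast hm
    by_contra hcon
    have h5 : ((layer d n).card : ℝ) = 0 := le_antisymm (not_lt.1 hcon) (Nat.cast_nonneg _)
    rw [h5] at hmn
    linarith
  set ψ : (Fin d → ℝ) → ℂ := fun x => ((φ x / C : ℝ) : ℂ) with hψ
  have hψc : Continuous ψ := by rw [hψ]; fun_prop
  set f : (Fin d → ℝ) → ℂ := fun x => ∫ y, (FrL r (fun _ => r) (x - y) : ℂ) * ψ y ∂(BX d) with hf
  have hfW : f ∈ WU d r (ENNReal.ofReal p) :=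
    ⟨ψ, fint_cont_memLp ψ hψc _, fint_norm j hj1 φ hφc C hC hφi p hp hpj, rfl⟩
  obtain ⟨hg1, hg2⟩ := conv_L r hr (fun _ => r) ψ ((fint_cont_memLp ψ hψc 1).integrable le_rfl)
  set g : (Fin d → ℝ) → ℂ := fun x => ∫ y, FrL r (fun _ => r) (x - y) • ψ y ∂(TP d) with hg
  have hfg : f = fun x => (((2 * π)^d : ℝ) : ℂ) * g x := by
    funext x
    simp only [hf, hg]
    rw [fint_BX, integral_smul_measure, ENNReal.toReal_pow, ENNReal.toReal_ofReal (by positivity)]
    rw [Complex.real_smul]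
    congr 1
  set A : ℝ := (2:ℝ)^(-(r * n)) / Real.sqrt (layer d n).card with hA
  have hApos : 0 < A := by
    rw [hA]
    have := Real.sqrt_pos.2 hN
    positivity
  set K : ℝ := (2 * π)^d / C * A with hK
  have hKpos : 0 < K := by rw [hK]; positivity
  -- Fourier coefficients
  have hfcψ : ∀ k, fc ψ k = ((C⁻¹ : ℝ) : ℂ) * fc (fun x => (φ x : ℂ)) k := by
    intro k
    rw [← fint_fc_smul]
    congr 1
    funext x
    rw [hψ]
    push_cast
    rw [div_eq_inv_mul]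
  have hfcf : ∀ k, fc f k = fc (fun x => (K : ℂ) * (ge ε x : ℂ)) k := by
    intro k
    rw [hfg, fint_fc_smul, fint_fc_smul]
    have h5 := hg2 k
    simp only [fint_toC] at h5
    have h6 : fc (fun x => ψ x) k = fc ψ k := rfl
    rw [h6, hfcψ] at h5
    have h7 : fc g k = Fh r (fun _ => r) k * (((C⁻¹ : ℝ) : ℂ) * fc (fun x => (φ x : ℂ)) k) := h5
    rw [h7]
    have h8 := hφf k
    calc (((2 * π)^d : ℝ) : ℂ) * (Fh r (fun _ => r) k * (((C⁻¹ : ℝ) : ℂ) * fc (fun x => (φ x : ℂ)) k))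
        = (((2 * π)^d : ℝ) : ℂ) * ((C⁻¹ : ℝ) : ℂ) * (Fh r (fun _ => r) k * fc (fun x => (φ x : ℂ)) k) := by
          ring
      _ = (((2 * π)^d : ℝ) : ℂ) * ((C⁻¹ : ℝ) : ℂ) * ((A : ℂ) * fc (fun x => (ge ε x : ℂ)) k) := by
          rw [h8]
      _ = (K : ℂ) * fc (fun x => (ge ε x : ℂ)) k := by
          rw [hK]
          push_cast
          ring
  have hgec : Continuous (fun x => (K : ℂ) * (ge ε x : ℂ)) :=
    continuous_const.mul (Complex.continuous_ofReal.comp (fint_ge_cont ε))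
  have hgei : Integrable (fun x => (K : ℂ) * (ge ε x : ℂ)) (TP d) :=
    (fint_cont_memLp _ hgec 1).integrable le_rfl
  have hfi : Integrable f (TP d) := by
    rw [hfg]
    exact (hg1.integrable le_rfl).const_mul _
  have hae : ∀ᵐ x ∂(TP d), f x = (K : ℂ) * (ge ε x : ℂ) := by
    have h5 := fc_unique (fun x => f x - (K : ℂ) * (ge ε x : ℂ)) (hfi.sub hgei) (fun k => by
      rw [fint_fc_sub f _ hfi hgei, hfcf k, sub_self])
    filter_upwards [h5] with x hx
    exact sub_eq_zero.1 hx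
  -- the lower bound
  refine le_trans ?_ (le_iSup₂ (f := fun f (_ : f ∈ WU d r (ENNReal.ofReal p)) => sig m f) f hfW)
  unfold sig
  refine le_iInf fun Λ => le_iInf fun hΛ => le_iInf fun a => ?_
  have h5 := h2 d n (by omega) hn1 c0 δ hc0 hc01 hδ ε hεb' Λ (by
    have : (Λ.card : ℝ) ≤ m := by exact_mod_cast hΛ
    linarith) (fun k => (K : ℂ)⁻¹ * a k)
  have hKc : (K : ℂ) ≠ 0 := by exact_mod_cast hKpos.ne'
  have h6 : eLpNorm (fun x => f x - ∑ k ∈ Λ, a k * chi k x) ⊤ (TP d) =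
      ENNReal.ofReal K * eLpNorm (fun x => ((ge ε x : ℝ) : ℂ) - ∑ k ∈ Λ, ((K : ℂ)⁻¹ * a k) * chi k x) ⊤ (TP d) := by
    have h7 : (fun x => f x - ∑ k ∈ Λ, a k * chi k x) =ᵐ[TP d]
        (K : ℂ) • (fun x => ((ge ε x : ℝ) : ℂ) - ∑ k ∈ Λ, ((K : ℂ)⁻¹ * a k) * chi k x) := by
      filter_upwards [hae] with x hx
      rw [Pi.smul_apply, smul_eq_mul, mul_sub, hx, Finset.mul_sum]
      congr 1
      refine Finset.sum_congr rfl fun k _ => ?_
      field_simp
    rw [eLpNorm_congr_ae h7, eLpNorm_const_smul]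
    congr 1
    rw [← ofReal_norm, Complex.norm_real, Real.norm_eq_abs, abs_of_pos hKpos]
  rw [h6]
  calc ENNReal.ofReal ((2 * π)^d / C * δ * c * ((m:ℝ)^(-r) * (Real.log m)^(r * ((d:ℝ)-1) + 1/2)))
      ≤ ENNReal.ofReal (K * (δ * Real.sqrt (n * (layer d n).card))) := by
        refine ENNReal.ofReal_le_ofReal ?_
        have h8 : K * (δ * Real.sqrt (n * (layer d n).card)) =
            (2 * π)^d / C * δ * ((2:ℝ)^(-(r * n)) * Real.sqrt n) := by
          rw [hK, hA, Real.sqrt_mul (Nat.cast_nonneg n)]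
          have := (Real.sqrt_pos.2 hN).ne'
          field_simp
        rw [h8]
        have h9 : 0 ≤ (2 * π)^d / C * δ := by positivity
        calc (2 * π)^d / C * δ * c * ((m:ℝ)^(-r) * (Real.log m)^(r * ((d:ℝ)-1) + 1/2))
            = (2 * π)^d / C * δ * (c * ((m:ℝ)^(-r) * (Real.log m)^(r * ((d:ℝ)-1) + 1/2))) := by ring
          _ ≤ _ := mul_le_mul_of_nonneg_left hcn h9
    _ = ENNReal.ofReal K * ENNReal.ofReal (δ * Real.sqrt (n * (layer d n).card)) :=
        ENNReal.ofReal_mul hKpos.le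
    _ ≤ _ := mul_le_mul' le_rfl h5

end MtMt
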