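import Pool.Agent.H636R2.MT.SpecT
import Pool.Agent.HypVol.L_card_layer
open MeasureTheory Real
open scoped ENNReal BigOperators

/-! K4: fourth moment of the kernel with an exponential weight. -/

namespace MtMt
open HypVol MWidth SmSm

theorem k4_exp (u : ℝ) : (Real.exp u - 1 - u) ^ 2 ≤ |u| ^ 4 * Real.exp (2 * |u|) := by
  have h := Complex.norm_exp_sub_sum_le_norm_mul_exp (u : ℂ) 2
  rw [Complex.norm_real, Real.norm_eq_abs] at h
  have h2 : Complex.exp (u : ℂ) - ∑ m ∈ Finset.range 2, (u : ℂ) ^ m / (m.factorial : ℂ) =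
      ((Real.exp u - 1 - u : ℝ) : ℂ) := by
    simp only [Finset.sum_range_succ, Finset.sum_range_zero, Nat.factorial]
    push_cast
    ring
  rw [h2, Complex.norm_real, Real.norm_eq_abs] at h
  rw [← sq_abs]
  calc |Real.exp u - 1 - u| ^ 2 ≤ (|u| ^ 2 * Real.exp |u|) ^ 2 :=
        pow_le_pow_left₀ (abs_nonneg _) h 2
    _ = |u| ^ 4 * Real.exp (2 * |u|) := by
        rw [mul_pow, ← Real.exp_nat_mul]
        push_cast
        ring

theorem k4_Th_nonneg (d n : ℕ) (T : Fin d → ℕ) : 0 ≤ Th d n T := by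
  unfold Th
  exact Finset.sum_nonneg fun s _ => by positivity

theorem k4_T1_comm (m : ℕ) (x y : Fin (2 ^ (m + 2))) : T1 m x y = T1 m y x := by
  unfold T1
  rw [max_comm, min_comm (x : ℕ) (y : ℕ)]

theorem k4 (h1 : S_NUM1) (h2 : S_ROW) (h3 : S_KB) : S_K4 := by
  intro d hd
  have hd1 : 1 ≤ d := by omega
  obtain ⟨a1, ha1, hN⟩ := h1 d hd
  obtain ⟨C4, hC4, hN4⟩ := hN 4 (by norm_num)
  obtain ⟨C1, hC1, hK⟩ := h3 d hd1 0 le_rfl 0
  set a : ℝ := a1 / (2 * C1) with ha
  have hapos : 0 < a := div_pos ha1 (by positivity)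
  refine ⟨a, C1 ^ 4 * 4 ^ d * C4, hapos, by positivity, ?_⟩
  intro n hn θ hθ0 hθ
  set N : ℝ := ((layer d n).card : ℝ) with hNd
  have hNe : N = 2 ^ n * shp d n := by
    rw [hNd, card_layer]
    push_cast
    ring
  set W : ℝ := ((2 : ℝ) ^ (n + 2)) ^ d with hW
  have hWpos : 0 < W := by positivity
  -- the origin of the grid
  let x0 : GG d n := fun _ => ⟨0, by positivity⟩
  have hx0 : gpt x0 = 0 := by
    funext j
    simp [gpt, x0]
  have hKB : ∀ y : GG d n, |ker n 0 0 (gpt y)| ≤ C1 * Th d n (fun j => T1 n (x0 j) (y j)) := by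
    intro y
    have h := hK n n le_rfl y x0
    rw [hx0] at h
    have hc : (fun j => T1 n (x0 j) (y j)) = fun j => T1 n (y j) (x0 j) := by
      funext j
      exact k4_T1_comm _ _ _
    rw [hc]
    simpa using h
  have hθ1 : 2 * (θ * C1) ≤ a1 * n / N := by
    have : 2 * (θ * C1) ≤ 2 * (a * n / N * C1) := by
      have := mul_le_mul_of_nonneg_right hθ hC1.le
      linarith
    refine this.trans (le_of_eq ?_)
    rw [ha]
    field_simp
  set F : (Fin d → ℕ) → ℝ := fun T => Th d n T ^ 4 * Real.exp (a1 * n * Th d n T /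
    (2 ^ n * shp d n)) with hF
  have hF0 : ∀ T, 0 ≤ F T := fun T =>
    mul_nonneg (pow_nonneg (k4_Th_nonneg d n T) 4) (Real.exp_pos _).le
  have hpt : ∀ y : GG d n, (Gk d n θ y) ^ 2 ≤
      (θ * C1) ^ 4 * F (fun j => T1 n (x0 j) (y j)) := by
    intro y
    set t := Th d n (fun j => T1 n (x0 j) (y j)) with ht
    have ht0 : 0 ≤ t := k4_Th_nonneg d n _
    have e1 : |θ * ker n 0 0 (gpt y)| ≤ θ * C1 * t := by
      rw [abs_mul, abs_of_nonneg hθ0, mul_assoc]
      exact mul_le_mul_of_nonneg_left (hKB y) hθ0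
    have e2 : 2 * |θ * ker n 0 0 (gpt y)| ≤ a1 * n * t / (2 ^ n * shp d n) := by
      have e3 : 2 * |θ * ker n 0 0 (gpt y)| ≤ 2 * (θ * C1) * t := by linarith
      refine e3.trans ?_
      have := mul_le_mul_of_nonneg_right hθ1 ht0
      refine this.trans (le_of_eq ?_)
      rw [hNe]
      ring
    calc (Gk d n θ y) ^ 2
        ≤ |θ * ker n 0 0 (gpt y)| ^ 4 * Real.exp (2 * |θ * ker n 0 0 (gpt y)|) := k4_exp _
      _ ≤ (θ * C1 * t) ^ 4 * Real.exp (a1 * n * t / (2 ^ n * shp d n)) :=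
          mul_le_mul (pow_le_pow_left₀ (abs_nonneg _) e1 4) (Real.exp_le_exp.2 e2)
            (Real.exp_pos _).le (by positivity)
      _ = (θ * C1) ^ 4 * F (fun j => T1 n (x0 j) (y j)) := by
          rw [hF]
          ring
  calc ∑ y : GG d n, (Gk d n θ y) ^ 2
      ≤ ∑ y : GG d n, (θ * C1) ^ 4 * F (fun j => T1 n (x0 j) (y j)) :=
        Finset.sum_le_sum fun y _ => hpt y
    _ = (θ * C1) ^ 4 * ∑ y : GG d n, F (fun j => T1 n (x0 j) (y j)) := by
        rw [Finset.mul_sum]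
    _ ≤ (θ * C1) ^ 4 * (W * 4 ^ d * (C4 * (2 : ℝ) ^ (3 * n) * ((n : ℝ) + 1) ^ (d - 1))) := by
        refine mul_le_mul_of_nonneg_left ?_ (by positivity)
        refine (h2 d n x0 F hF0).trans ?_
        refine mul_le_mul_of_nonneg_left ?_ (by positivity)
        have := hN4 n (n + 3) hn
        refine le_trans (le_of_eq ?_) this
        refine Finset.sum_congr rfl fun T _ => ?_
        rw [hF]
        ring
    _ = C1 ^ 4 * 4 ^ d * C4 * W * θ ^ 4 * (2 : ℝ) ^ (3 * n) * ((n : ℝ) + 1) ^ (d - 1) := by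
        ring

end MtMt
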