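import Pool.Agent.H636R2.MT.SpecT
import Pool.Agent.H636R2.SM.KSQ
import Pool.Agent.H636R2.SM.PIG
open MeasureTheory Real
open scoped ENNReal BigOperators

/-!
TOR: from the grid to the torus (helper708).
-/

namespace MtMt
open HypVol MWidth SmSm

theorem tor_chi_add {d : ℕ} (k l : Fin d → ℤ) (x : Fin d → ℝ) : chi (k + l) x = chi k x * chi l x := by
  unfold chi
  rw [← Complex.exp_add]
  congr 1
  rw [← mul_add, ← Complex.ofReal_add, ← Finset.sum_add_distrib]
  congr 2
  refine Finset.sum_congr rfl fun j _ => ?_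
  simp only [Pi.add_apply]
  push_cast
  ring

theorem tor_chi_conj {d : ℕ} (k : Fin d → ℤ) (x : Fin d → ℝ) :
    (starRingEnd ℂ) (chi k x) = chi (-k) x := by
  unfold chi
  rw [← Complex.exp_conj]
  congr 1
  simp only [map_mul, Complex.conj_I, Complex.conj_ofReal, Pi.neg_apply]
  push_cast
  simp [Finset.sum_neg_distrib]

theorem tor_chi_cont {d : ℕ} (k : Fin d → ℤ) : Continuous (chi k : (Fin d → ℝ) → ℂ) := by
  unfold chi
  refine Complex.continuous_exp.comp (continuous_const.mul (Complex.continuous_ofReal.comp ?_))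
  exact continuous_finsetSum _ fun j _ => continuous_const.mul (continuous_apply j)

theorem tor_chi_per {d : ℕ} (k : Fin d → ℤ) (x : Fin d → ℝ) (j : Fin d) :
    chi k (Function.update x j (x j + 2 * π)) = chi k x := by
  unfold chi
  have h : ∑ i, (k i : ℝ) * Function.update x j (x j + 2 * π) i =
      (∑ i, (k i : ℝ) * x i) + (k j : ℝ) * (2 * π) := by
    have h1 : ∀ i, (k i : ℝ) * Function.update x j (x j + 2 * π) i =
        (k i : ℝ) * x i + (if i = j then (k j : ℝ) * (2 * π) else 0) := by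
      intro i
      by_cases hi : i = j
      · subst hi
        simp only [Function.update_self, if_true]
        ring
      · rw [Function.update_of_ne hi, if_neg hi, add_zero]
    rw [Finset.sum_congr rfl (fun i _ => h1 i), Finset.sum_add_distrib, Finset.sum_ite_eq']
    simp
  rw [h]
  push_cast
  rw [mul_add, Complex.exp_add]
  have h2 : Complex.I * ((k j : ℂ) * (2 * π)) = (k j : ℂ) * (2 * π * Complex.I) := by ring
  rw [h2, Complex.exp_int_mul_two_pi_mul_I, mul_one]

theorem tor_chi_re {d : ℕ} (k : Fin d → ℤ) (x : Fin d → ℝ) :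
    (chi k x).re = Real.cos (∑ j, (k j : ℝ) * x j) := by
  unfold chi
  rw [mul_comm, Complex.exp_ofReal_mul_I_re]

theorem tor_chi_im {d : ℕ} (k : Fin d → ℤ) (x : Fin d → ℝ) :
    (chi k x).im = Real.sin (∑ j, (k j : ℝ) * x j) := by
  unfold chi
  rw [mul_comm, Complex.exp_ofReal_mul_I_im]

open Classical in
theorem tor_ph {d : ℕ} (k : Fin d → ℤ) (x : Fin d → ℝ) :
    ph k x = if posk k then Real.sqrt 2 * (chi k x).re else Real.sqrt 2 * (chi k x).im := by
  unfold ph
  rw [tor_chi_re, tor_chi_im]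

theorem tor_ph_cont {d : ℕ} (k : Fin d → ℤ) : Continuous (ph k : (Fin d → ℝ) → ℝ) := by
  classical
  have h : (ph k : (Fin d → ℝ) → ℝ) = fun x => if posk k then Real.sqrt 2 * (chi k x).re
    else Real.sqrt 2 * (chi k x).im := funext fun x => tor_ph k x
  rw [h]
  by_cases hp : posk k
  · simp only [if_pos hp]
    exact continuous_const.mul (Complex.continuous_re.comp (tor_chi_cont k))
  · simp only [if_neg hp]
    exact continuous_const.mul (Complex.continuous_im.comp (tor_chi_cont k))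

theorem tor_ph_per {d : ℕ} (k : Fin d → ℤ) (x : Fin d → ℝ) (j : Fin d) :
    ph k (Function.update x j (x j + 2 * π)) = ph k x := by
  rw [tor_ph, tor_ph, tor_chi_per]

/-- real characters through characters -/
theorem tor_ph_exp {d : ℕ} (k : Fin d → ℤ) : ∃ a b : ℂ, ∀ x : Fin d → ℝ,
    ((ph k x : ℝ) : ℂ) = a * chi k x + b * chi (-k) x := by
  classical
  by_cases hp : posk k
  · refine ⟨(Real.sqrt 2 : ℂ) / 2, (Real.sqrt 2 : ℂ) / 2, fun x => ?_⟩
    rw [tor_ph, if_pos hp, ← tor_chi_conj]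
    have := Complex.re_eq_add_conj (chi k x)
    push_cast
    rw [this]
    ring
  · refine ⟨(Real.sqrt 2 : ℂ) / (2 * Complex.I), -((Real.sqrt 2 : ℂ) / (2 * Complex.I)), fun x => ?_⟩
    rw [tor_ph, if_neg hp, ← tor_chi_conj]
    have := Complex.im_eq_sub_conj (chi k x)
    push_cast
    rw [this]
    ring

theorem tor_re_exp {d : ℕ} (c : ℂ) (k : Fin d → ℤ) (x : Fin d → ℝ) :
    (((c * chi k x).re : ℝ) : ℂ) = c / 2 * chi k x + (starRingEnd ℂ) c / 2 * chi (-k) x := by
  rw [Complex.re_eq_add_conj, map_mul, tor_chi_conj]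
  ring

/-- congruence modulo `2^(n+2)` -/
def tor_cong {d : ℕ} (n : ℕ) (k l : Fin d → ℤ) : Prop := ∀ j, (2:ℤ)^(n+2) ∣ k j - l j

theorem tor_chi_one {d n : ℕ} (k : Fin d → ℤ) (hk : ∀ j, (2:ℤ)^(n+2) ∣ k j) (y : GG d n) :
    chi k (gpt y) = 1 := by
  choose t ht using hk
  unfold chi gpt
  have h : ((∑ j, (k j : ℝ) * (2 * π * ((y j : ℕ) : ℝ) / 2^(n+2)) : ℝ)) =
      ((∑ j, t j * ((y j : ℕ) : ℤ) : ℤ) : ℝ) * (2 * π) := by
    push_cast
    rw [Finset.sum_mul]
    refine Finset.sum_congr rfl fun j _ => ?_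
    rw [ht j]
    push_cast
    field_simp
  rw [h]
  push_cast
  have h2 : Complex.I * ((∑ j, (t j : ℂ) * ((y j : ℕ) : ℂ)) * (2 * π)) =
      ((∑ j, t j * ((y j : ℕ) : ℤ) : ℤ) : ℂ) * (2 * π * Complex.I) := by
    push_cast
    ring
  rw [h2, Complex.exp_int_mul_two_pi_mul_I]

theorem tor_chi_cong {d n : ℕ} (k l : Fin d → ℤ) (h : tor_cong n k l) (y : GG d n) :
    chi k (gpt y) = chi l (gpt y) := by
  have h1 : k = (k - l) + l := by ring
  rw [h1, tor_chi_add, tor_chi_one (k - l) (fun j => h j), one_mul]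

theorem tor_sum_zero {d n : ℕ} (k : Fin d → ℤ) (h : ¬ tor_cong n k 0) :
    ∑ y : GG d n, chi k (gpt y) = 0 := by
  have hq : (0:ℤ) < 2^(n+2) := by positivity
  set k' : Fin d → ℤ := fun j => -(k j % 2^(n+2)) with hk'
  have h1 : ∀ y : GG d n, chi k (gpt y) = chi k' (0 - gpt y) := by
    intro y
    have h2 : chi k' (0 - gpt y) = chi (-k') (gpt y) := by
      unfold chi
      congr 2
      refine congrArg _ (Finset.sum_congr rfl fun j _ => ?_)
      simp only [Pi.sub_apply, Pi.zero_apply, Pi.neg_apply]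
      push_cast
      ring
    rw [h2]
    refine tor_chi_cong k (-k') (fun j => ?_) y
    simp only [Pi.neg_apply, hk', neg_neg]
    exact Int.dvd_self_sub_emod
  rw [Finset.sum_congr rfl (fun y _ => h1 y)]
  refine ksq_orth k' ?_ ?_ 0
  · intro h0
    apply h
    intro j
    have := congrFun h0 j
    simp only [hk', Pi.zero_apply, neg_eq_zero] at this
    simp only [Pi.zero_apply, sub_zero]
    exact Int.dvd_of_emod_eq_zero this
  · intro j
    simp only [hk', abs_neg]
    rw [abs_of_nonneg (Int.emod_nonneg _ hq.ne')]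
    exact Int.emod_lt_of_pos _ hq

theorem tor_layer_neg {d n : ℕ} {k : Fin d → ℤ} (hk : k ∈ layer d n) : -k ∈ layer d n := by
  classical
  unfold layer at hk ⊢
  rw [Finset.mem_filter, Fintype.mem_piFinset] at hk ⊢
  refine ⟨fun j => ?_, ?_⟩
  · have := Finset.mem_Ioo.1 (hk.1 j)
    rw [Finset.mem_Ioo, Pi.neg_apply]
    omega
  · obtain ⟨s, hs, hr⟩ := hk.2
    refine ⟨s, hs, fun j => ?_⟩
    have := hr j
    unfold rho at this ⊢
    simp only [Set.mem_setOf_eq, Pi.neg_apply, abs_neg] at this ⊢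
    exact this

theorem tor_layer_cong {d n : ℕ} {k k' : Fin d → ℤ} (hk : k ∈ layer d n) (hk' : k' ∈ layer d n)
    (h : tor_cong n k k') : k = k' := by
  funext j
  have h1 := (ksq_layer hk).1 j
  have h2 := (ksq_layer hk').1 j
  have h3 := h j
  have hq : (2:ℤ)^(n+2) = 4 * 2^n := by ring
  rw [hq] at h3
  obtain ⟨t, ht⟩ := h3
  rw [abs_lt] at h1 h2
  have hp : (0:ℤ) < 2^n := by positivity
  have ht0 : t = 0 := by
    by_contra hne
    rcases lt_or_gt_of_ne hne with h4 | h4
    · nlinarith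
    · nlinarith
  rw [ht0] at ht
  omega

theorem tor_cong_symm {d n : ℕ} {k l : Fin d → ℤ} (h : tor_cong n k l) : tor_cong n l k := fun j => by
  have := h j
  rw [← neg_sub]
  exact (dvd_neg).2 this

theorem tor_cong_trans {d n : ℕ} {k l m : Fin d → ℤ} (h : tor_cong n k l) (h' : tor_cong n l m) :
    tor_cong n k m := fun j => by
  have := dvd_add (h j) (h' j)
  have e : k j - l j + (l j - m j) = k j - m j := by ring
  rwa [e] at this

/-- the pairing of two characters on the grid -/
theorem tor_pair {d n : ℕ} (k l : Fin d → ℤ) (h : ¬ tor_cong n k (-l)) :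
    ∑ y : GG d n, chi k (gpt y) * chi l (gpt y) = 0 := by
  simp_rw [← tor_chi_add]
  refine tor_sum_zero _ fun h1 => h fun j => ?_
  have := h1 j
  simp only [Pi.add_apply, Pi.zero_apply, sub_zero] at this
  simpa only [Pi.neg_apply, sub_neg_eq_add] using this

/-- the residue -/
def tor_res {d : ℕ} (n : ℕ) (k : Fin d → ℤ) : GG d n := fun j =>
  ⟨(k j % 2^(n+2)).toNat, by
    have hq : (0:ℤ) < 2^(n+2) := by positivity
    have h1 := Int.emod_lt_of_pos (k j) hq
    have h2 := Int.emod_nonneg (k j) hq.ne'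
    zify
    rw [Int.toNat_of_nonneg h2]
    exact h1⟩

theorem tor_res_eq {d n : ℕ} (k : Fin d → ℤ) (l : GG d n) (h : tor_cong n k (fun j => ((l j : ℕ) : ℤ))) :
    l = tor_res n k := by
  funext j
  apply Fin.ext
  unfold tor_res
  simp only
  have hq : (0:ℤ) < 2^(n+2) := by positivity
  have h1 : k j % 2^(n+2) = ((l j : ℕ) : ℤ) % 2^(n+2) :=
    Int.emod_eq_emod_iff_emod_sub_eq_zero.2 (Int.emod_eq_zero_of_dvd (h j))
  have h2 : ((l j : ℕ) : ℤ) % 2^(n+2) = ((l j : ℕ) : ℤ) := by
    refine Int.emod_eq_of_lt (by positivity) ?_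
    have := (l j).2
    exact_mod_cast this
  rw [h1, h2, Int.toNat_natCast]

theorem tor (h1 : S_PHO) : S_TOR := by
  classical
  intro d n hd hn c0 δ hc0 hc01 hδ ε hbad Λ hΛ c
  by_contra hlt
  push Not at hlt
  set N : ℝ := ((layer d n).card : ℝ) with hN
  set ω : ℝ := δ * Real.sqrt (n * N) with hω
  have hω0 : 0 < ω := by
    by_contra hle
    rw [ENNReal.ofReal_of_nonpos (not_lt.1 hle)] at hlt
    exact absurd hlt (by simp)
  obtain ⟨-, hort, -, -⟩ := h1 d n hn
  set F : (Fin d → ℝ) → ℂ := fun x => ((ge ε x : ℝ) : ℂ) - ∑ k ∈ Λ, c k * chi k x with hF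
  have hgec : Continuous (fun x : Fin d → ℝ => ge ε x) := by
    unfold ge
    exact continuous_finsetSum _ fun k _ => continuous_const.mul (tor_ph_cont _)
  have hFc : Continuous F := by
    refine (Complex.continuous_ofReal.comp hgec).sub ?_
    exact continuous_finsetSum _ fun k _ => continuous_const.mul (tor_chi_cont k)
  have hFper : ∀ (x : Fin d → ℝ) (j : Fin d), F (Function.update x j (x j + 2 * π)) = F x := by
    intro x j
    simp only [hF, ge, tor_ph_per, tor_chi_per]
  have hFb : ∀ x, ‖F x‖ ≤ ω := by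
    refine pig_everywhere (fun x => ‖F x‖) hFc.norm (fun x j => by simp only [hFper]) ω ?_
    exact pig_ess F ω hω0.le hlt.le
  set θ : ℝ := 1 / ω with hθ
  have hθ0 : 0 < θ := by positivity
  set h : GG d n → ℝ := fun y => θ * (F (gpt y)).re with hh
  have hhval : ∀ y, h y = θ * (ge ε (gpt y) - (∑ k ∈ Λ, c k * chi k (gpt y)).re) := by
    intro y
    simp only [hh, hF, Complex.sub_re, Complex.ofReal_re]
  -- the spectrum
  have hspec : ∀ l : GG d n, gf (fun y => (h y : ℂ)) l ≠ 0 →
      l ∈ (layer d n ∪ Λ ∪ Λ.image (fun k => -k)).image (tor_res n) := by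
    intro l hl
    by_contra hcon
    have hno : ∀ k ∈ (layer d n ∪ Λ ∪ Λ.image (fun k => -k)),
        ¬ tor_cong n k (fun j => ((l j : ℕ) : ℤ)) := by
      intro k hk hkl
      exact hcon (Finset.mem_image.2 ⟨k, hk, (tor_res_eq k l hkl).symm⟩)
    apply hl
    unfold gf
    rw [div_eq_zero_iff]
    left
    have hneg : (fun j => -((l j : ℕ) : ℤ)) = -(fun j => ((l j : ℕ) : ℤ)) := rfl
    rw [hneg]
    set L : Fin d → ℤ := fun j => ((l j : ℕ) : ℤ) with hL
    have hzero : ∀ k ∈ (layer d n ∪ Λ ∪ Λ.image (fun k => -k)),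
        ∑ y : GG d n, chi k (gpt y) * chi (-L) (gpt y) = 0 := by
      intro k hk
      refine tor_pair k (-L) ?_
      rw [neg_neg]
      exact hno k hk
    have hterm1 : ∀ k : layer d n, ∑ y : GG d n, ((ph k.1 (gpt y) : ℝ) : ℂ) * chi (-L) (gpt y) = 0 := by
      intro k
      obtain ⟨a, b, hab⟩ := tor_ph_exp k.1
      have e : ∀ y : GG d n, ((ph k.1 (gpt y) : ℝ) : ℂ) * chi (-L) (gpt y) =
          a * (chi k.1 (gpt y) * chi (-L) (gpt y)) + b * (chi (-k.1) (gpt y) * chi (-L) (gpt y)) := by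
        intro y; rw [hab]; ring
      rw [Finset.sum_congr rfl (fun y _ => e y), Finset.sum_add_distrib, ← Finset.mul_sum,
        ← Finset.mul_sum, hzero k.1 (by simp [k.2]), hzero (-k.1) (by simp [tor_layer_neg k.2])]
      simp
    have hterm2 : ∀ k ∈ Λ, ∑ y : GG d n, (((c k * chi k (gpt y)).re : ℝ) : ℂ) * chi (-L) (gpt y) = 0 := by
      intro k hk
      have e : ∀ y : GG d n, (((c k * chi k (gpt y)).re : ℝ) : ℂ) * chi (-L) (gpt y) =
          c k / 2 * (chi k (gpt y) * chi (-L) (gpt y)) +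
            (starRingEnd ℂ) (c k) / 2 * (chi (-k) (gpt y) * chi (-L) (gpt y)) := by
        intro y; rw [tor_re_exp]; ring
      rw [Finset.sum_congr rfl (fun y _ => e y), Finset.sum_add_distrib, ← Finset.mul_sum,
        ← Finset.mul_sum, hzero k (by simp [hk]), hzero (-k) (by simp [hk])]
      simp
    have e : ∀ y : GG d n, ((h y : ℝ) : ℂ) * chi (-L) (gpt y) =
        (θ : ℂ) * ((∑ k : layer d n, (sg (ε k) : ℂ) * (((ph k.1 (gpt y) : ℝ) : ℂ) * chi (-L) (gpt y))) -
          ∑ k ∈ Λ, (((c k * chi k (gpt y)).re : ℝ) : ℂ) * chi (-L) (gpt y)) := by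
      intro y
      rw [hhval, Complex.re_sum]
      unfold ge
      push_cast
      rw [← Finset.sum_mul]
      have : ∑ k : layer d n, (sg (ε k) : ℂ) * (((ph k.1 (gpt y) : ℝ) : ℂ) * chi (-L) (gpt y)) =
          (∑ k : layer d n, (sg (ε k) : ℂ) * ((ph k.1 (gpt y) : ℝ) : ℂ)) * chi (-L) (gpt y) := by
        rw [Finset.sum_mul]
        exact Finset.sum_congr rfl fun k _ => by ring
      rw [this]
      ring
    show ∑ y : GG d n, ((h y : ℝ) : ℂ) * chi (-L) (gpt y) = 0
    rw [Finset.sum_congr rfl (fun y _ => e y), ← Finset.mul_sum, Finset.sum_sub_distrib,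
      Finset.sum_comm, Finset.sum_comm (s := Finset.univ) (t := Λ)]
    rw [Finset.sum_eq_zero (s := Λ) (fun k hk => hterm2 k hk), sub_zero]
    rw [Finset.sum_eq_zero, mul_zero]
    intro k _
    rw [← Finset.mul_sum, hterm1 k, mul_zero]
  have hcard : Set.ncard {l : GG d n | gf (fun y => (h y : ℂ)) l ≠ 0} ≤ 2 * (layer d n).card := by
    have a1 : Set.ncard {l : GG d n | gf (fun y => (h y : ℂ)) l ≠ 0} ≤
        ((layer d n ∪ Λ ∪ Λ.image (fun k => -k)).image (tor_res n)).card := by
      rw [← Set.ncard_coe_finset]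
      exact Set.ncard_le_ncard (fun l hl => hspec l hl) (Finset.finite_toSet _)
    have a2 : ((layer d n ∪ Λ ∪ Λ.image (fun k => -k)).image (tor_res n)).card ≤
        (layer d n).card + Λ.card + Λ.card := by
      refine Finset.card_image_le.trans ?_
      refine (Finset.card_union_le _ _).trans ?_
      exact add_le_add (Finset.card_union_le _ _) Finset.card_image_le
    have a3 : 2 * Λ.card ≤ (layer d n).card := by
      have : (2:ℝ) * (Λ.card : ℝ) ≤ ((layer d n).card : ℝ) := by
        have hN0 : 0 ≤ N := by rw [hN]; positivity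
        nlinarith
      exact_mod_cast this
    omega
  apply hbad
  -- the good frequencies
  let A : Finset (layer d n) := Finset.univ.filter
    (fun k => ∀ l ∈ Λ, ¬ tor_cong n l k.1 ∧ ¬ tor_cong n l (-k.1))
  have hAc : (Aᶜ).card ≤ 2 * Λ.card := by
    have hsub : Aᶜ ⊆ Λ.biUnion (fun l => (Finset.univ.filter (fun k : layer d n => tor_cong n l k.1)) ∪
        (Finset.univ.filter (fun k : layer d n => tor_cong n l (-k.1)))) := by
      intro k hk
      rw [Finset.mem_compl, Finset.mem_filter] at hk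
      push Not at hk
      obtain ⟨l, hl, hlk⟩ := hk (Finset.mem_univ _)
      rw [Finset.mem_biUnion]
      refine ⟨l, hl, ?_⟩
      rw [Finset.mem_union, Finset.mem_filter, Finset.mem_filter]
      by_cases h3 : tor_cong n l k.1
      · left; exact ⟨Finset.mem_univ _, h3⟩
      · right; exact ⟨Finset.mem_univ _, hlk h3⟩
    refine (Finset.card_le_card hsub).trans (Finset.card_biUnion_le.trans ?_)
    have hone : ∀ l ∈ Λ, ((Finset.univ.filter (fun k : layer d n => tor_cong n l k.1)) ∪
        (Finset.univ.filter (fun k : layer d n => tor_cong n l (-k.1)))).card ≤ 2 := by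
      intro l _
      refine (Finset.card_union_le _ _).trans ?_
      have b1 : (Finset.univ.filter (fun k : layer d n => tor_cong n l k.1)).card ≤ 1 := by
        rw [Finset.card_le_one]
        intro k hk k' hk'
        rw [Finset.mem_filter] at hk hk'
        exact Subtype.ext (tor_layer_cong k.2 k'.2 (tor_cong_trans (tor_cong_symm hk.2) hk'.2))
      have b2 : (Finset.univ.filter (fun k : layer d n => tor_cong n l (-k.1))).card ≤ 1 := by
        rw [Finset.card_le_one]
        intro k hk k' hk'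
        rw [Finset.mem_filter] at hk hk'
        have := tor_layer_cong (tor_layer_neg k.2) (tor_layer_neg k'.2)
          (tor_cong_trans (tor_cong_symm hk.2) hk'.2)
        exact Subtype.ext (neg_injective this)
      omega
    calc _ ≤ ∑ l ∈ Λ, 2 := Finset.sum_le_sum hone
      _ = 2 * Λ.card := by rw [Finset.sum_const, smul_eq_mul, mul_comm]
  refine ⟨A, ?_, h, ⟨?_, hcard⟩, ?_⟩
  · have a1 : (A.card : ℝ) + (Aᶜ).card = N := by
      have := Finset.card_add_card_compl A
      rw [Fintype.card_coe] at this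
      rw [hN]
      exact_mod_cast this
    have a2 : ((Aᶜ).card : ℝ) ≤ 2 * Λ.card := by exact_mod_cast hAc
    have hN0 : 0 ≤ N := by rw [hN]; positivity
    rw [← hN]
    nlinarith
  · intro y
    simp only [hh]
    rw [abs_mul, abs_of_pos hθ0]
    have a1 : |(F (gpt y)).re| ≤ ω := (Complex.abs_re_le_norm _).trans (hFb _)
    calc θ * |(F (gpt y)).re| ≤ θ * ω := mul_le_mul_of_nonneg_left a1 hθ0.le
      _ = 1 := by rw [hθ]; field_simp
  · intro k hk
    rw [Finset.mem_filter] at hk
    obtain ⟨a, b, hab⟩ := tor_ph_exp k.1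
    have hz : ∀ l ∈ Λ, ∑ y : GG d n, chi l (gpt y) * ((ph k.1 (gpt y) : ℝ) : ℂ) = 0 := by
      intro l hl
      obtain ⟨g1, g2⟩ := hk.2 l hl
      have e : ∀ y : GG d n, chi l (gpt y) * ((ph k.1 (gpt y) : ℝ) : ℂ) =
          a * (chi l (gpt y) * chi k.1 (gpt y)) + b * (chi l (gpt y) * chi (-k.1) (gpt y)) := by
        intro y; rw [hab]; ring
      rw [Finset.sum_congr rfl (fun y _ => e y), Finset.sum_add_distrib, ← Finset.mul_sum,
        ← Finset.mul_sum, tor_pair l k.1 g2, tor_pair l (-k.1) (by rw [neg_neg]; exact g1)]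
      simp
    have hsecond : ∑ y : GG d n, (∑ l ∈ Λ, c l * chi l (gpt y)).re * ph k.1 (gpt y) = 0 := by
      have e1 : ((∑ y : GG d n, (∑ l ∈ Λ, c l * chi l (gpt y)).re * ph k.1 (gpt y) : ℝ)) =
          (∑ y : GG d n, (∑ l ∈ Λ, c l * chi l (gpt y)) * ((ph k.1 (gpt y) : ℝ) : ℂ)).re := by
        rw [Complex.re_sum]
        refine Finset.sum_congr rfl fun y _ => ?_
        rw [Complex.re_mul_ofReal]
      rw [e1]
      have e2 : ∑ y : GG d n, (∑ l ∈ Λ, c l * chi l (gpt y)) * ((ph k.1 (gpt y) : ℝ) : ℂ) =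
          ∑ l ∈ Λ, c l * ∑ y : GG d n, chi l (gpt y) * ((ph k.1 (gpt y) : ℝ) : ℂ) := by
        simp_rw [Finset.sum_mul]
        rw [Finset.sum_comm]
        refine Finset.sum_congr rfl fun l _ => ?_
        rw [Finset.mul_sum]
        exact Finset.sum_congr rfl fun y _ => by ring
      rw [e2, Finset.sum_eq_zero (fun l hl => by rw [hz l hl, mul_zero]), Complex.zero_re]
    unfold ip
    have e3 : ∑ y : GG d n, h y * ph k.1 (gpt y) =
        θ * ∑ k' : layer d n, sg (ε k') * ∑ y : GG d n, ph k'.1 (gpt y) * ph k.1 (gpt y) := by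
      have e4 : ∀ y : GG d n, h y * ph k.1 (gpt y) =
          θ * ((∑ k' : layer d n, sg (ε k') * (ph k'.1 (gpt y) * ph k.1 (gpt y))) -
            (∑ l ∈ Λ, c l * chi l (gpt y)).re * ph k.1 (gpt y)) := by
        intro y
        rw [hhval]
        unfold ge
        have : ∑ k' : layer d n, sg (ε k') * (ph k'.1 (gpt y) * ph k.1 (gpt y)) =
            (∑ k' : layer d n, sg (ε k') * ph k'.1 (gpt y)) * ph k.1 (gpt y) := by
          rw [Finset.sum_mul]
          exact Finset.sum_congr rfl fun k _ => by ring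
        rw [this]
        ring
      rw [Finset.sum_congr rfl (fun y _ => e4 y), ← Finset.mul_sum, Finset.sum_sub_distrib,
        hsecond, sub_zero, Finset.sum_comm]
      congr 1
      refine Finset.sum_congr rfl fun k' _ => ?_
      rw [Finset.mul_sum]
    rw [e3, mul_div_assoc, Finset.sum_div]
    have e5 : ∀ k' : layer d n, sg (ε k') * (∑ y : GG d n, ph k'.1 (gpt y) * ph k.1 (gpt y)) /
        ((2:ℝ)^(n+2))^d = if k' = k then sg (ε k) else 0 := by
      intro k'
      rw [mul_div_assoc, hort k'.1 k'.2 k.1 k.2]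
      by_cases hkk : k' = k
      · subst hkk; simp
      · rw [if_neg (fun h0 => hkk (Subtype.ext h0)), if_neg hkk, mul_zero]
    rw [Finset.sum_congr rfl (fun k' _ => e5 k'), Finset.sum_ite_eq']
    simp only [Finset.mem_univ, if_true]
    rw [hθ, ← hN]
    ring

end MtMt
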