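import Pool.Agent.H636R2.MT.SpecT
import Pool.Agent.HypVol.L_shp_lower
import Pool.Agent.HypVol.L_card_layer
open MeasureTheory Real
open scoped ENNReal BigOperators

/-!
WID: mean width of the set `Sp`.
-/

set_option autoImplicit false

namespace MtMt
open HypVol MWidth SmSm

theorem wid_layer (d : ℕ) (hd : 1 ≤ d) : ∃ c : ℝ, 0 < c ∧ ∀ n : ℕ, 1 ≤ n →
    c * 2 ^ n * (n : ℝ) ^ (d - 1) ≤ (layer d n).card := by
  obtain ⟨c, hc, h⟩ := shp_lower d hd
  refine ⟨c, hc, fun n hn => ?_⟩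
  rw [card_layer]
  push_cast
  have := h n hn
  calc c * 2 ^ n * (n : ℝ) ^ (d - 1) = 2 ^ n * (c * (n : ℝ) ^ (d - 1)) := by ring
    _ ≤ 2 ^ n * (shp d n : ℝ) := mul_le_mul_of_nonneg_left this (by positivity)

theorem wid_prod {I : Type} [Fintype I] [DecidableEq I] (lam : ℝ) (a : I → ℝ) :
    ∑ ε : I → Bool, ∏ i, (1 + lam * sg (ε i) * a i) = 2 ^ (Fintype.card I) := by
  have h := Finset.prod_univ_sum (fun _ : I => (Finset.univ : Finset Bool))
    (fun i b => 1 + lam * sg b * a i)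
  rw [Fintype.piFinset_univ] at h
  rw [← h]
  have h2 : ∀ i : I, ∑ b : Bool, (1 + lam * sg b * a i) = 2 := by
    intro i
    rw [Fintype.sum_bool]
    simp only [sg]
    norm_num
    ring
  rw [Finset.prod_congr rfl (fun i _ => h2 i), Finset.prod_const, Finset.card_univ]

theorem wid_le_fr {a b : ℝ} (h : a ^ 4 ≤ b) : a ≤ √(√b) := by
  apply Real.le_sqrt_of_sq_le
  apply Real.le_sqrt_of_sq_le
  calc (a ^ 2) ^ 2 = a ^ 4 := by ring
    _ ≤ b := h

theorem wid_jensen {I : Type} [Fintype I] (X : I → ℝ) (hX : ∀ i, 0 ≤ X i) (K : ℝ)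
    (hK : ∑ i, X i ≤ Fintype.card I * K) :
    ∑ i, √(√(X i)) ≤ Fintype.card I * √(√K) := by
  rcases isEmpty_or_nonempty I with hI | hI
  · simp
  have hcard : (0 : ℝ) < Fintype.card I := by exact_mod_cast Fintype.card_pos
  have hK0 : 0 ≤ K := by
    by_contra hneg
    push Not at hneg
    have h1 : 0 ≤ ∑ i, X i := Finset.sum_nonneg (fun i _ => hX i)
    nlinarith
  have h1 : (∑ i, √(√(X i))) ^ 2 ≤ Fintype.card I * ∑ i, √(X i) := by
    have := sq_sum_le_card_mul_sum_sq (s := (Finset.univ : Finset I)) (f := fun i => √(√(X i)))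
    simp only [Real.sq_sqrt (Real.sqrt_nonneg _), Finset.card_univ] at this
    exact this
  have h2 : (∑ i, √(X i)) ^ 2 ≤ Fintype.card I * ∑ i, X i := by
    have := sq_sum_le_card_mul_sum_sq (s := (Finset.univ : Finset I)) (f := fun i => √(X i))
    simp only [Real.sq_sqrt (hX _), Finset.card_univ] at this
    exact this
  have h0 : 0 ≤ ∑ i, √(√(X i)) := Finset.sum_nonneg (fun i _ => Real.sqrt_nonneg _)
  have h00 : 0 ≤ ∑ i, √(X i) := Finset.sum_nonneg (fun i _ => Real.sqrt_nonneg _)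
  have h3 : ((∑ i, √(√(X i))) / Fintype.card I) ^ 4 ≤ K := by
    rw [div_pow, div_le_iff₀ (by positivity)]
    calc (∑ i, √(√(X i))) ^ 4 = ((∑ i, √(√(X i))) ^ 2) ^ 2 := by ring
      _ ≤ (Fintype.card I * ∑ i, √(X i)) ^ 2 := pow_le_pow_left₀ (by positivity) h1 2
      _ = (Fintype.card I : ℝ) ^ 2 * (∑ i, √(X i)) ^ 2 := by ring
      _ ≤ (Fintype.card I : ℝ) ^ 2 * (Fintype.card I * ∑ i, X i) :=
          mul_le_mul_of_nonneg_left h2 (by positivity)
      _ ≤ (Fintype.card I : ℝ) ^ 2 * (Fintype.card I * (Fintype.card I * K)) := by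
          apply mul_le_mul_of_nonneg_left _ (by positivity)
          exact mul_le_mul_of_nonneg_left hK (by positivity)
      _ = K * (Fintype.card I : ℝ) ^ 4 := by ring
  have h4 := wid_le_fr h3
  rw [div_le_iff₀ hcard] at h4
  linarith

theorem wid_cardGG (d n : ℕ) : (Fintype.card (GG d n) : ℝ) = ((2 : ℝ) ^ (n + 2)) ^ d := by
  simp [GG]

/-- the correlation with a function of small spectrum -/
theorem wid_corr (h1 : S_PHO) (d n : ℕ) (hn : 1 ≤ n) (h : GG d n → ℝ) (hh : h ∈ Sp d n)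
    (R : GG d n → ℝ) :
    |(∑ y, h y * R y) / ((2 : ℝ) ^ (n + 2)) ^ d| ≤
      √(√(2 * (layer d n).card * ∑ l : GG d n, ‖gf (fun y => ((R y : ℝ) : ℂ)) l‖ ^ 4)) := by
  classical
  obtain ⟨_, _, hP, hI⟩ := h1 d n hn
  set M : ℝ := ((2 : ℝ) ^ (n + 2)) ^ d with hM
  have hM0 : 0 < M := by positivity
  have e1 := hI (fun y => (h y : ℂ)) (fun y => (R y : ℂ))
  have e2 : (∑ y, (h y : ℂ) * (starRingEnd ℂ) (R y : ℂ)) / ((2 : ℂ) ^ (n + 2)) ^ d =
      (((∑ y, h y * R y) / M : ℝ) : ℂ) := by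
    rw [hM]
    push_cast
    congr 1
    apply Finset.sum_congr rfl
    intro y _
    rw [Complex.conj_ofReal]
  have e3 : |(∑ y, h y * R y) / M| =
      ‖∑ l, gf (fun y => (h y : ℂ)) l * (starRingEnd ℂ) (gf (fun y => (R y : ℂ)) l)‖ := by
    rw [← e1, e2, Complex.norm_real, Real.norm_eq_abs]
  rw [e3]
  set u : GG d n → ℝ := fun l => ‖gf (fun y => (h y : ℂ)) l‖ with hu
  set v : GG d n → ℝ := fun l => ‖gf (fun y => (R y : ℂ)) l‖ with hv
  set s : Finset (GG d n) := Finset.univ.filter (fun l => gf (fun y => (h y : ℂ)) l ≠ 0) with hs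
  have hscard : (s.card : ℝ) ≤ 2 * (layer d n).card := by
    have h5 := hh.2
    have h6 : {l : GG d n | gf (fun y => (h y : ℂ)) l ≠ 0} = (s : Set (GG d n)) := by
      ext l
      simp [hs]
    rw [h6, Set.ncard_coe_finset] at h5
    exact_mod_cast h5
  have hb1 : ‖∑ l, gf (fun y => (h y : ℂ)) l * (starRingEnd ℂ) (gf (fun y => (R y : ℂ)) l)‖ ≤
      ∑ l ∈ s, u l * v l := by
    refine (norm_sum_le _ _).trans ?_
    have : ∑ l, ‖gf (fun y => (h y : ℂ)) l * (starRingEnd ℂ) (gf (fun y => (R y : ℂ)) l)‖ =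
        ∑ l, u l * v l := by
      apply Finset.sum_congr rfl
      intro l _
      rw [norm_mul, RCLike.norm_conj]
    rw [this]
    apply le_of_eq
    symm
    apply Finset.sum_subset (Finset.subset_univ s)
    intro l _ hl
    have : gf (fun y => (h y : ℂ)) l = 0 := by
      by_contra hne
      exact hl (Finset.mem_filter.2 ⟨Finset.mem_univ l, hne⟩)
    simp only [hu, this, norm_zero, zero_mul]
  have hu1 : ∑ l ∈ s, u l ^ 2 ≤ 1 := by
    calc ∑ l ∈ s, u l ^ 2 ≤ ∑ l, u l ^ 2 :=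
          Finset.sum_le_sum_of_subset_of_nonneg (Finset.subset_univ s) (fun l _ _ => sq_nonneg _)
      _ = (∑ y, ‖(h y : ℂ)‖ ^ 2) / M := hP (fun y => (h y : ℂ))
      _ ≤ (∑ _y : GG d n, (1 : ℝ)) / M := by
          apply div_le_div_of_nonneg_right _ hM0.le
          apply Finset.sum_le_sum
          intro y _
          rw [Complex.norm_real, Real.norm_eq_abs]
          exact pow_le_one₀ (abs_nonneg _) (hh.1 y)
      _ = 1 := by
          rw [Finset.sum_const, nsmul_eq_mul, mul_one, Finset.card_univ, wid_cardGG]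
          exact div_self hM0.ne'
  have hsum0 : 0 ≤ ∑ l ∈ s, u l * v l :=
    Finset.sum_nonneg (fun l _ => mul_nonneg (norm_nonneg _) (norm_nonneg _))
  have hv0 : 0 ≤ ∑ l ∈ s, v l ^ 2 := Finset.sum_nonneg (fun l _ => sq_nonneg _)
  have hcs : (∑ l ∈ s, u l * v l) ^ 2 ≤ ∑ l ∈ s, v l ^ 2 := by
    refine (Finset.sum_mul_sq_le_sq_mul_sq s u v).trans ?_
    calc (∑ l ∈ s, u l ^ 2) * ∑ l ∈ s, v l ^ 2 ≤ 1 * ∑ l ∈ s, v l ^ 2 :=
          mul_le_mul_of_nonneg_right hu1 hv0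
      _ = _ := one_mul _
  have hv4 : (∑ l ∈ s, v l ^ 2) ^ 2 ≤ 2 * (layer d n).card * ∑ l, v l ^ 4 := by
    have h7 := sq_sum_le_card_mul_sum_sq (s := s) (f := fun l => v l ^ 2)
    refine h7.trans ?_
    apply mul_le_mul hscard _ (Finset.sum_nonneg (fun l _ => sq_nonneg _)) (by positivity)
    calc ∑ l ∈ s, (v l ^ 2) ^ 2 = ∑ l ∈ s, v l ^ 4 := by
          apply Finset.sum_congr rfl
          intro l _
          ring
      _ ≤ ∑ l, v l ^ 4 :=
          Finset.sum_le_sum_of_subset_of_nonneg (Finset.subset_univ s)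
            (fun l _ _ => pow_nonneg (norm_nonneg _) 4)
  refine hb1.trans ?_
  apply wid_le_fr
  calc (∑ l ∈ s, u l * v l) ^ 4 = ((∑ l ∈ s, u l * v l) ^ 2) ^ 2 := by ring
    _ ≤ (∑ l ∈ s, v l ^ 2) ^ 2 := pow_le_pow_left₀ (sq_nonneg _) hcs 2
    _ ≤ _ := hv4

theorem wid_one (h1 : S_PHO) (d n : ℕ) (hn : 1 ≤ n) (lam : ℝ) (hlam : 0 < lam)
    (hlam2 : lam * √2 ≤ 1) (ε : layer d n → Bool) (h : GG d n → ℝ) (hh : h ∈ Sp d n) :
    ∑ k : layer d n, sg (ε k) * ip h k.1 ≤
      ((∑ y : GG d n, ∏ k : layer d n, (1 + lam * sg (ε k) * ph k.1 (gpt y))) /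
          ((2 : ℝ) ^ (n + 2)) ^ d + 1 +
        √(√(2 * (layer d n).card *
          ∑ l : GG d n, ‖gf (fun y => ((Rr lam ε y : ℝ) : ℂ)) l‖ ^ 4))) / lam := by
  have hc := wid_corr h1 d n hn h hh (Rr lam ε)
  obtain ⟨hph, _, _, _⟩ := h1 d n hn
  set M : ℝ := ((2 : ℝ) ^ (n + 2)) ^ d with hM
  have hM0 : 0 < M := by positivity
  rw [le_div_iff₀ hlam]
  set Q : GG d n → ℝ := fun y => ∏ k : layer d n, (1 + lam * sg (ε k) * ph k.1 (gpt y)) with hQ
  have hQ0 : ∀ y, 0 ≤ Q y := by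
    intro y
    apply Finset.prod_nonneg
    intro k _
    have h5 : |lam * sg (ε k) * ph k.1 (gpt y)| ≤ 1 := by
      rw [abs_mul, abs_mul, abs_of_pos hlam]
      have h6 : |sg (ε k)| = 1 := by
        unfold sg
        split_ifs <;> simp
      rw [h6, mul_one]
      calc lam * |ph k.1 (gpt y)| ≤ lam * √2 := mul_le_mul_of_nonneg_left (hph _ _) hlam.le
        _ ≤ 1 := hlam2
    have := (abs_le.1 h5).1
    linarith
  have e1 : ∑ k : layer d n, sg (ε k) * ip h k.1 = (∑ y, h y * ge ε (gpt y)) / M := by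
    unfold ip ge
    rw [← hM]
    simp only [mul_div_assoc', Finset.mul_sum]
    rw [← Finset.sum_div, Finset.sum_comm]
    congr 1
    apply Finset.sum_congr rfl
    intro y _
    apply Finset.sum_congr rfl
    intro k _
    ring
  have e2 : (∑ y, h y * ge ε (gpt y)) / M * lam =
      (∑ y, h y * Q y) / M - (∑ y, h y) / M - (∑ y, h y * Rr lam ε y) / M := by
    rw [← sub_div, ← sub_div, div_mul_eq_mul_div, Finset.sum_mul, ← Finset.sum_sub_distrib,
      ← Finset.sum_sub_distrib]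
    congr 1
    apply Finset.sum_congr rfl
    intro y _
    unfold Rr
    rw [hQ]
    ring
  rw [e1, e2]
  have b1 : (∑ y, h y * Q y) / M ≤ (∑ y, Q y) / M := by
    apply div_le_div_of_nonneg_right _ hM0.le
    apply Finset.sum_le_sum
    intro y _
    have h5 := (abs_le.1 (hh.1 y)).2
    calc h y * Q y ≤ 1 * Q y := mul_le_mul_of_nonneg_right h5 (hQ0 y)
      _ = Q y := one_mul _
  have b2 : -1 ≤ (∑ y, h y) / M := by
    rw [le_div_iff₀ hM0]
    calc -1 * M = ∑ _y : GG d n, (-1 : ℝ) := by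
          rw [Finset.sum_const, nsmul_eq_mul, Finset.card_univ, wid_cardGG]
          ring
      _ ≤ ∑ y, h y := Finset.sum_le_sum (fun y _ => (abs_le.1 (hh.1 y)).1)
  have b3 := (abs_le.1 hc).1
  linarith

theorem wid (h1 : S_PHO) (h2 : S_K4) (h3 : S_RB) : S_WID := by
  intro d hd
  obtain ⟨c, hc, hlay⟩ := wid_layer d (by omega)
  obtain ⟨a, C, ha, hC, hK4⟩ := h2 d (by omega)
  set a' : ℝ := min a (3 * c) with ha'
  have ha'0 : 0 < a' := lt_min ha (by positivity)
  have ha'a : a' ≤ a := min_le_left _ _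
  have ha'c : a' ≤ 3 * c := min_le_right _ _
  set Kc : ℝ := 2 * C * a' ^ 4 * 2 ^ (d - 1) / c ^ 3 with hKc
  have hKc0 : 0 < Kc := by positivity
  refine ⟨(2 + √(√Kc)) * √(6 / a'), 1, by positivity, ?_⟩
  intro n hn
  set N : ℝ := ((layer d n).card : ℝ) with hN
  have hn0 : (0 : ℝ) < n := by exact_mod_cast hn
  have hn1 : (1 : ℝ) ≤ n := by exact_mod_cast hn
  have hNl := hlay n hn
  rw [← hN] at hNl
  have hNpos : 0 < N := lt_of_lt_of_le (by positivity) hNl
  have hNcn : c * n ≤ N := by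
    refine le_trans ?_ hNl
    calc c * n = c * 1 * (n : ℝ) ^ 1 := by ring
      _ ≤ c * 2 ^ n * (n : ℝ) ^ (d - 1) := by
          apply mul_le_mul _ _ (by positivity) (by positivity)
          · apply mul_le_mul_of_nonneg_left _ hc.le
            exact one_le_pow₀ (by norm_num)
          · exact pow_le_pow_right₀ hn1 (by omega)
  set lam : ℝ := √(a' * n / (6 * N)) with hlam
  have hlam0 : 0 < lam := Real.sqrt_pos.mpr (by positivity)
  have hlamsq : lam ^ 2 = a' * n / (6 * N) := Real.sq_sqrt (by positivity)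
  have hlam2 : lam * √2 ≤ 1 := by
    rw [hlam, ← Real.sqrt_mul (by positivity)]
    rw [Real.sqrt_le_one]
    rw [div_mul_eq_mul_div, div_le_one (by positivity)]
    nlinarith
  refine ⟨fun ε => ((∑ y : GG d n, ∏ k : layer d n, (1 + lam * sg (ε k) * ph k.1 (gpt y))) /
          ((2 : ℝ) ^ (n + 2)) ^ d + 1 +
        √(√(2 * (layer d n).card *
          ∑ l : GG d n, ‖gf (fun y => ((Rr lam ε y : ℝ) : ℂ)) l‖ ^ 4))) / lam,
    fun ε h hh => wid_one h1 d n hn lam hlam0 hlam2 ε h hh, ?_⟩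
  set M : ℝ := ((2 : ℝ) ^ (n + 2)) ^ d with hM
  have hM0 : 0 < M := by positivity
  have hcardε : (Fintype.card (layer d n → Bool) : ℝ) = 2 ^ (layer d n).card := by
    rw [Fintype.card_fun, Fintype.card_bool, Fintype.card_coe]
    push_cast
    ring
  rw [← Finset.sum_div, Finset.sum_add_distrib, Finset.sum_add_distrib, ← Finset.sum_div,
    Finset.sum_comm]
  have s1 : (∑ y : GG d n, ∑ ε : layer d n → Bool,
      ∏ k : layer d n, (1 + lam * sg (ε k) * ph k.1 (gpt y))) / M = 2 ^ (layer d n).card := by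
    rw [Finset.sum_congr rfl (fun y _ => wid_prod lam (fun k : layer d n => ph k.1 (gpt y))),
      Finset.sum_const, nsmul_eq_mul, Finset.card_univ, wid_cardGG, Fintype.card_coe]
    rw [mul_comm, mul_div_assoc, div_self hM0.ne', mul_one]
  have s2 : ∑ _ε : layer d n → Bool, (1 : ℝ) = 2 ^ (layer d n).card := by
    rw [Finset.sum_const, nsmul_eq_mul, mul_one, Finset.card_univ]
    exact hcardε
  have hθ : 6 * lam ^ 2 = a' * n / N := by
    rw [hlamsq]
    field_simp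
  have hθ0 : 0 ≤ a' * n / N := by positivity
  have s3 : ∑ ε : layer d n → Bool, √(√(2 * (layer d n).card *
          ∑ l : GG d n, ‖gf (fun y => ((Rr lam ε y : ℝ) : ℂ)) l‖ ^ 4)) ≤
      2 ^ (layer d n).card * √(√Kc) := by
    rw [← hcardε]
    apply wid_jensen
    · intro ε
      positivity
    · rw [← Finset.mul_sum, hcardε]
      have hRB := h3 d n hn lam hlam0.le
      have hG := hK4 n hn (6 * lam ^ 2) (by positivity) (by
        rw [hθ]
        apply div_le_div_of_nonneg_right _ hNpos.le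
        exact mul_le_mul_of_nonneg_right ha'a hn0.le)
      rw [← hM] at hRB hG
      have hG2 : (∑ y : GG d n, Gk d n (6 * lam ^ 2) y ^ 2) / M ≤
          C * (a' * n / N) ^ 4 * 2 ^ (3 * n) * ((n : ℝ) + 1) ^ (d - 1) := by
        rw [div_le_iff₀ hM0]
        refine hG.trans (le_of_eq ?_)
        rw [hθ]
        ring
      have hfin : 2 * N * (C * (a' * n / N) ^ 4 * 2 ^ (3 * n) * ((n : ℝ) + 1) ^ (d - 1)) ≤ Kc := by
        have e1 : 2 * N * (C * (a' * n / N) ^ 4 * 2 ^ (3 * n) * ((n : ℝ) + 1) ^ (d - 1)) =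
            2 * C * a' ^ 4 * (n ^ 4 * 2 ^ (3 * n) * ((n : ℝ) + 1) ^ (d - 1)) / N ^ 3 := by
          field_simp
        rw [e1, hKc, div_le_div_iff₀ (by positivity) (by positivity)]
        have e2 : (n : ℝ) ^ 4 * 2 ^ (3 * n) * ((n : ℝ) + 1) ^ (d - 1) * c ^ 3 ≤
            2 ^ (d - 1) * N ^ 3 := by
          have e3 : ((n : ℝ) + 1) ^ (d - 1) ≤ 2 ^ (d - 1) * (n : ℝ) ^ (d - 1) := by
            rw [← mul_pow]
            exact pow_le_pow_left₀ (by positivity) (by linarith) _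
          have e4 : (n : ℝ) ^ 4 * (n : ℝ) ^ (d - 1) ≤ ((n : ℝ) ^ (d - 1)) ^ 3 := by
            rw [← pow_add, ← pow_mul]
            exact pow_le_pow_right₀ hn1 (by omega)
          have e5 : (c * 2 ^ n * (n : ℝ) ^ (d - 1)) ^ 3 ≤ N ^ 3 :=
            pow_le_pow_left₀ (by positivity) hNl 3
          calc (n : ℝ) ^ 4 * 2 ^ (3 * n) * ((n : ℝ) + 1) ^ (d - 1) * c ^ 3
              ≤ (n : ℝ) ^ 4 * 2 ^ (3 * n) * (2 ^ (d - 1) * (n : ℝ) ^ (d - 1)) * c ^ 3 := by
                apply mul_le_mul_of_nonneg_right _ (by positivity)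
                exact mul_le_mul_of_nonneg_left e3 (by positivity)
            _ = 2 ^ (d - 1) * (2 ^ (3 * n) * c ^ 3 * ((n : ℝ) ^ 4 * (n : ℝ) ^ (d - 1))) := by ring
            _ ≤ 2 ^ (d - 1) * (2 ^ (3 * n) * c ^ 3 * ((n : ℝ) ^ (d - 1)) ^ 3) := by
                apply mul_le_mul_of_nonneg_left _ (by positivity)
                exact mul_le_mul_of_nonneg_left e4 (by positivity)
            _ = 2 ^ (d - 1) * (c * 2 ^ n * (n : ℝ) ^ (d - 1)) ^ 3 := by
                have e7 : (2 : ℝ) ^ (3 * n) = (2 ^ n) ^ 3 := by rw [← pow_mul, mul_comm]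
                rw [e7]
                ring
            _ ≤ 2 ^ (d - 1) * N ^ 3 := mul_le_mul_of_nonneg_left e5 (by positivity)
        calc 2 * C * a' ^ 4 * (n ^ 4 * 2 ^ (3 * n) * ((n : ℝ) + 1) ^ (d - 1)) * c ^ 3
            = 2 * C * a' ^ 4 * ((n : ℝ) ^ 4 * 2 ^ (3 * n) * ((n : ℝ) + 1) ^ (d - 1) * c ^ 3) := by
              ring
          _ ≤ 2 * C * a' ^ 4 * (2 ^ (d - 1) * N ^ 3) :=
              mul_le_mul_of_nonneg_left e2 (by positivity)
          _ = 2 * C * a' ^ 4 * 2 ^ (d - 1) * N ^ 3 := by ring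
      calc 2 * N * ∑ ε : layer d n → Bool, ∑ l : GG d n,
            ‖gf (fun y => ((Rr lam ε y : ℝ) : ℂ)) l‖ ^ 4
          ≤ 2 * N * (2 ^ (layer d n).card *
              ((∑ y : GG d n, Gk d n (6 * lam ^ 2) y ^ 2) / M)) :=
            mul_le_mul_of_nonneg_left hRB (by positivity)
        _ ≤ 2 * N * (2 ^ (layer d n).card *
              (C * (a' * n / N) ^ 4 * 2 ^ (3 * n) * ((n : ℝ) + 1) ^ (d - 1))) := by
            apply mul_le_mul_of_nonneg_left _ (by positivity)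
            exact mul_le_mul_of_nonneg_left hG2 (by positivity)
        _ = 2 ^ (layer d n).card *
              (2 * N * (C * (a' * n / N) ^ 4 * 2 ^ (3 * n) * ((n : ℝ) + 1) ^ (d - 1))) := by ring
        _ ≤ 2 ^ (layer d n).card * Kc := mul_le_mul_of_nonneg_left hfin (by positivity)
  rw [s1, s2]
  have hinv : 1 / lam = √(6 / a') * √(N / n) := by
    rw [← Real.sqrt_mul (by positivity), hlam, one_div, ← Real.sqrt_inv]
    congr 1
    field_simp
  calc (2 ^ (layer d n).card + 2 ^ (layer d n).card + ∑ ε : layer d n → Bool,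
        √(√(2 * N * ∑ l : GG d n, ‖gf (fun y => ((Rr lam ε y : ℝ) : ℂ)) l‖ ^ 4))) / lam
      ≤ (2 ^ (layer d n).card + 2 ^ (layer d n).card + 2 ^ (layer d n).card * √(√Kc)) / lam := by
        apply div_le_div_of_nonneg_right _ hlam0.le
        linarith
    _ = 2 ^ (layer d n).card * (2 + √(√Kc)) * (1 / lam) := by ring
    _ = 2 ^ (layer d n).card * ((2 + √(√Kc)) * √(6 / a') * √(N / n)) := by
        rw [hinv]
        ring

end MtMt
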