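import Pool.Agent.H636R2.SM.ALL
import Pool.Agent.H636R2.MT.PHO
import Pool.Agent.H636R2.MT.KHI
import Pool.Agent.H636R2.MT.CLS
import Pool.Agent.H636R2.MT.NUMT
import Pool.Agent.H636R2.MT.RB
import Pool.Agent.H636R2.MT.T_BON
import Pool.Agent.H636R2.MT.T_CON
import Pool.Agent.H636R2.MT.T_EXI
import Pool.Agent.H636R2.MT.T_FB
import Pool.Agent.H636R2.MT.T_FINT
import Pool.Agent.H636R2.MT.T_K4
import Pool.Agent.H636R2.MT.T_TOR
import Pool.Agent.H636R2.MT.T_WID

/-! All tasks put together. -/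

namespace MtMt

theorem all_k4 : S_K4 := k4 SmSm.num1 SmSm.row SmSm.kb
theorem all_rb : S_RB := rb pho bon fb
theorem all_wid : S_WID := wid pho all_k4 all_rb
theorem all_exi : S_EXI := exi all_wid con
theorem all_tor : S_TOR := tor pho
theorem all_cls : S_CLS := cls khi
theorem all_fint : S_FINT := fint all_exi all_tor all_cls numt

end MtMt
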