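import Pool.Agent.H636R2.SM.Spec
open MeasureTheory Real
open scoped ENNReal BigOperators

/-!
Best `m`-term trigonometric approximation of `W^r_p` in `L_∞`, `d ≥ 3`, `p < ∞`: lower bound
(MP_8c6e6e_an).
-/

namespace MtMt
open HypVol MWidth SmSm

/-- sign -/
def sg (b : Bool) : ℝ := if b then 1 else -1

/-- the first nonzero coordinate is positive -/
def posk {d : ℕ} (k : Fin d → ℤ) : Prop := ∃ i, 0 < k i ∧ ∀ j, j < i → k j = 0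

open Classical in
/-- real characters -/
noncomputable def ph {d : ℕ} (k : Fin d → ℤ) (x : Fin d → ℝ) : ℝ :=
  if posk k then Real.sqrt 2 * Real.cos (∑ j, (k j : ℝ) * x j)
  else Real.sqrt 2 * Real.sin (∑ j, (k j : ℝ) * x j)

/-- random polynomial with signs -/
noncomputable def ge {d n : ℕ} (ε : layer d n → Bool) (x : Fin d → ℝ) : ℝ :=
  ∑ k : layer d n, sg (ε k) * ph k.1 x

/-- discrete Fourier transform on the grid -/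
noncomputable def gf {d m : ℕ} (h : GG d m → ℂ) (l : GG d m) : ℂ :=
  (∑ y, h y * chi (fun j => -((l j : ℕ) : ℤ)) (gpt y)) / ((2:ℂ)^(m+2))^d

/-- bounded functions on the grid with a small spectrum -/
def Sp (d n : ℕ) : Set (GG d n → ℝ) :=
  {h | (∀ y, |h y| ≤ 1) ∧
    Set.ncard {l : GG d n | gf (fun y => (h y : ℂ)) l ≠ 0} ≤ 2 * (layer d n).card}

/-- coordinates -/
noncomputable def ip {d n : ℕ} (h : GG d n → ℝ) (k : Fin d → ℤ) : ℝ :=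
  (∑ y, h y * ph k (gpt y)) / ((2:ℝ)^(n+2))^d

/-- the product minus the terms of order 0 and 1 -/
noncomputable def Rr {d n : ℕ} (lam : ℝ) (ε : layer d n → Bool) (y : GG d n) : ℝ :=
  (∏ k : layer d n, (1 + lam * sg (ε k) * ph k.1 (gpt y))) - 1 - lam * ge ε (gpt y)

/-- remainder of the exponential of the kernel -/
noncomputable def Gk (d n : ℕ) (θ : ℝ) (y : GG d n) : ℝ :=
  Real.exp (θ * ker n 0 0 (gpt y)) - 1 - θ * ker n 0 0 (gpt y)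

/-- PHO: the real characters on the grid -/
def S_PHO : Prop := ∀ (d n : ℕ), 1 ≤ n →
  (∀ (k : Fin d → ℤ) (x : Fin d → ℝ), |ph k x| ≤ Real.sqrt 2) ∧
  (∀ k ∈ layer d n, ∀ k' ∈ layer d n,
    (∑ y : GG d n, ph k (gpt y) * ph k' (gpt y)) / ((2:ℝ)^(n+2))^d = if k = k' then 1 else 0) ∧
  (∀ h : GG d n → ℂ, ∑ l, ‖gf h l‖^2 = (∑ y, ‖h y‖^2) / ((2:ℝ)^(n+2))^d) ∧
  (∀ h g : GG d n → ℂ, (∑ y, h y * (starRingEnd ℂ) (g y)) / ((2:ℂ)^(n+2))^d =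
    ∑ l, gf h l * (starRingEnd ℂ) (gf g l))

/-- K4: fourth moment of the kernel with an exponential weight -/
def S_K4 : Prop := ∀ (d : ℕ), 2 ≤ d → ∃ a C : ℝ, 0 < a ∧ 0 < C ∧
  ∀ (n : ℕ), 1 ≤ n → ∀ θ : ℝ, 0 ≤ θ → θ ≤ a * n / (layer d n).card →
    ∑ y : GG d n, (Gk d n θ y)^2 ≤
      C * ((2:ℝ)^(n+2))^d * θ^4 * (2:ℝ)^(3*n) * ((n:ℝ)+1)^(d-1)

/-- BON: Bonami's inequality, fourth moment, complex coefficients -/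
def S_BON : Prop := ∀ (I : Type) [Fintype I] [DecidableEq I] (a : Finset I → ℂ),
  ∑ ε : I → Bool, ‖∑ B : Finset I, a B * ∏ i ∈ B, (sg (ε i) : ℂ)‖^4 ≤
    2^(Fintype.card I) * (∑ B : Finset I, (3:ℝ)^(B.card) * ‖a B‖^2)^2

/-- FB: coefficients of the products of real characters -/
def S_FB : Prop := ∀ (d n : ℕ), 1 ≤ n → ∀ lam : ℝ, 0 ≤ lam → ∀ l : GG d n,
  ∑ B ∈ (Finset.univ : Finset (Finset (layer d n))).filter (fun B => 2 ≤ B.card),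
    (3 * lam^2)^(B.card) * ‖gf (fun y => ((∏ k ∈ B, ph k.1 (gpt y) : ℝ) : ℂ)) l‖^2 ≤
    (gf (fun y => ((Gk d n (6 * lam^2) y : ℝ) : ℂ)) l).re

/-- RB: the remainders have a small spectrum in the mean -/
def S_RB : Prop := ∀ (d n : ℕ), 1 ≤ n → ∀ lam : ℝ, 0 ≤ lam →
  ∑ ε : layer d n → Bool, ∑ l : GG d n, ‖gf (fun y => ((Rr lam ε y : ℝ) : ℂ)) l‖^4 ≤
    2^(layer d n).card * ((∑ y : GG d n, (Gk d n (6 * lam^2) y)^2) / ((2:ℝ)^(n+2))^d)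

/-- WID: mean width of the set `Sp` -/
def S_WID : Prop := ∀ (d : ℕ), 3 ≤ d → ∃ (C : ℝ) (n0 : ℕ), 0 < C ∧ ∀ n : ℕ, n0 ≤ n →
  ∃ W : (layer d n → Bool) → ℝ, (∀ ε, ∀ h ∈ Sp d n, ∑ k : layer d n, sg (ε k) * ip h k.1 ≤ W ε) ∧
    ∑ ε, W ε ≤ 2^(layer d n).card * (C * Real.sqrt ((layer d n).card / n))

/-- CON: concentration on the cube -/
def S_CON : Prop := ∀ (I : Type) [Fintype I] [DecidableEq I] (E : Finset (I → Bool)) (η : ℝ) (F : (I → Bool) → ℝ),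
  0 ≤ η → (2:ℝ)^(Fintype.card I) * Real.exp (-(η * Fintype.card I)) ≤ E.card →
  (∀ ε', ∀ ε ∈ E, ∑ i, sg (ε' i) * sg (ε i) ≤ F ε') →
  (2:ℝ)^(Fintype.card I) * (Fintype.card I * (1 - 2 * Real.sqrt η)) ≤ ∑ ε', F ε'

/-- sign patterns realised on a large set of frequencies -/
def Bad (d n : ℕ) (c0 δ : ℝ) (ε : layer d n → Bool) : Prop :=
  ∃ A : Finset (layer d n), (1 - c0) * (layer d n).card ≤ A.card ∧
    ∃ h ∈ Sp d n, ∀ k ∈ A, ip h k.1 = sg (ε k) / (δ * Real.sqrt (n * (layer d n).card))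

/-- EXI: most sign patterns are not bad -/
def S_EXI : Prop := ∀ (d : ℕ), 3 ≤ d → ∃ (c0 δ : ℝ) (n0 : ℕ), 0 < c0 ∧ c0 ≤ 1 ∧ 0 < δ ∧ ∀ n : ℕ, n0 ≤ n →
  (Set.ncard {ε : layer d n → Bool | Bad d n c0 δ ε} : ℝ) ≤ 2^(layer d n).card / 4

/-- TOR: from the grid to the torus -/
def S_TOR : Prop := ∀ (d n : ℕ), 1 ≤ d → 1 ≤ n → ∀ (c0 δ : ℝ), 0 < c0 → c0 ≤ 1 → 0 < δ →
  ∀ ε : layer d n → Bool, ¬ Bad d n c0 δ ε → ∀ Λ : Finset (Fin d → ℤ),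
    (Λ.card : ℝ) ≤ c0 * (layer d n).card / 4 → ∀ c : (Fin d → ℤ) → ℂ,
    ENNReal.ofReal (δ * Real.sqrt (n * (layer d n).card)) ≤
      eLpNorm (fun x => ((ge ε x : ℝ) : ℂ) - ∑ k ∈ Λ, c k * chi k x) ⊤ (TP d)

/-- KHI: Khinchine's inequality -/
def S_KHI : Prop := ∀ j : ℕ, ∃ C : ℝ, 0 < C ∧ ∀ (I : Type) [Fintype I] [DecidableEq I] (b : I → ℝ),
  ∑ ε : I → Bool, (∑ i, sg (ε i) * b i)^(2*j) ≤ C * 2^(Fintype.card I) * (∑ i, (b i)^2)^j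

/-- CLS: the random polynomials belong to the class -/
def S_CLS : Prop := ∀ (d : ℕ), 1 ≤ d → ∀ (r : ℝ), 0 < r → ∀ j : ℕ, 1 ≤ j → ∃ C : ℝ, 0 < C ∧ ∀ n : ℕ, 1 ≤ n →
  ∃ good : Finset (layer d n → Bool), (3/4 : ℝ) * 2^(layer d n).card ≤ good.card ∧ ∀ ε ∈ good,
    ∃ φ : (Fin d → ℝ) → ℝ, Continuous φ ∧ ∫ x, (φ x)^(2*j) ∂(TP d) ≤ C^(2*j) ∧
      ∀ k : Fin d → ℤ, Fh r (fun _ => r) k * fc (fun x => (φ x : ℂ)) k =
        (((2:ℝ)^(-(r * n)) / Real.sqrt (layer d n).card : ℝ) : ℂ) * fc (fun x => (ge ε x : ℂ)) k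

/-- NUMT -/
def S_NUMT : Prop := ∀ (d : ℕ), 2 ≤ d → ∀ (r c0 : ℝ) (n0 : ℕ), 0 < r → 0 < c0 → ∃ c : ℝ, 0 < c ∧
  ∀ m : ℕ, 2 ≤ m → ∃ n : ℕ, n0 ≤ n ∧ 1 ≤ n ∧ (m:ℝ) ≤ c0 * (layer d n).card / 4 ∧
    c * ((m:ℝ)^(-r) * (Real.log m)^(r * ((d:ℝ)-1) + 1/2)) ≤ (2:ℝ)^(-(r * n)) * Real.sqrt n

/-! ## the final statement -/

/-- unnormalised Lebesgue measure on `[0,2π)^d` -/
noncomputable def BX (d : ℕ) : Measure (Fin d → ℝ) :=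
  volume.restrict (Set.pi Set.univ fun _ => Set.Ico 0 (2 * π))

/-- the class `W^r_p` with the convolution with respect to `BX` -/
def WU (d : ℕ) (r : ℝ) (p : ℝ≥0∞) : Set ((Fin d → ℝ) → ℂ) :=
  {f | ∃ φ : (Fin d → ℝ) → ℂ, MemLp φ p (TP d) ∧ eLpNorm φ p (TP d) ≤ 1 ∧
    f = fun x => ∫ y, (FrL r (fun _ => r) (x - y) : ℂ) * φ y ∂(BX d)}

/-- best `m`-term approximation in `L_∞` of one function -/
noncomputable def sig {d : ℕ} (m : ℕ) (f : (Fin d → ℝ) → ℂ) : ℝ≥0∞ :=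
  ⨅ (Λ : Finset (Fin d → ℤ)) (_ : Λ.card ≤ m) (c : (Fin d → ℤ) → ℂ),
    eLpNorm (fun x => f x - ∑ k ∈ Λ, c k * chi k x) ⊤ (TP d)

/-- best `m`-term approximation of a class -/
noncomputable def sigC {d : ℕ} (m : ℕ) (F : Set ((Fin d → ℝ) → ℂ)) : ℝ≥0∞ := ⨆ f ∈ F, sig m f

/-- FINT -/
def S_FINT : Prop := ∀ (d : ℕ), 3 ≤ d → ∀ (p r : ℝ), 1 ≤ p → 0 < r → ∃ c : ℝ, 0 < c ∧ ∀ m : ℕ, 2 ≤ m →
  ENNReal.ofReal (c * ((m:ℝ)^(-r) * (Real.log m)^(r * ((d:ℝ)-1) + 1/2))) ≤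
    sigC m (WU d r (ENNReal.ofReal p))

end MtMt
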